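import Mathlib

/-!
Valuation-theoretic and representation-theoretic tools used for the results on linear constituents
of restrictions to Sylow subgroups.
-/

namespace Pool.Agent.H.MP_7d3ffc_al

open Finset

/-- There is a valuation on `ℂ` for which the prime `p` has value `< 1`. -/
theorem exists_valuation (p : ℕ) (hp : p.Prime) :
    ∃ B : ValuationSubring ℂ, B.valuation (p : ℂ) < 1 := by
  let A : Subring ℂ := (Int.castRingHom ℂ).range
  let a : A := ⟨(p : ℂ), ⟨(p : ℤ), by simp⟩⟩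
  have hI : (Ideal.span {a} : Ideal A) ≠ ⊤ := by
    intro h
    rw [Ideal.span_singleton_eq_top] at h
    obtain ⟨b, hb⟩ := h.exists_right_inv
    obtain ⟨n, hn⟩ := b.2
    have h1 : (p : ℂ) * (n : ℂ) = 1 := by
      have := congrArg (Subtype.val) hb
      simpa [a, ← hn] using this
    have h2 : (p : ℤ) * n = 1 := by exact_mod_cast h1
    have h3 : (p : ℤ) ∣ 1 := ⟨n, h2.symm⟩
    have h4 : p ∣ 1 := by exact_mod_cast h3
    exact hp.one_lt.ne' (Nat.dvd_one.mp h4)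
  obtain ⟨B, _, hB⟩ := Ideal.image_subset_nonunits_valuationSubring _ hI
  refine ⟨B, ?_⟩
  have hmem : (p : ℂ) ∈ (B.nonunits : Set ℂ) := hB ⟨a, Ideal.mem_span_singleton_self a, rfl⟩
  exact (ValuationSubring.mem_nonunits_iff B).mp hmem

variable {Γ₀ : Type*} [LinearOrderedCommGroupWithZero Γ₀] (v : Valuation ℂ Γ₀)

theorem val_natCast_le (n : ℕ) : v (n : ℂ) ≤ 1 := by
  induction n with
  | zero => simp
  | succ n ih =>
    rw [Nat.cast_succ]
    exact (v.map_add _ _).trans (max_le ih (by simp))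

theorem val_intCast_le (n : ℤ) : v (n : ℂ) ≤ 1 := by
  obtain ⟨m, rfl | rfl⟩ := n.eq_nat_or_neg
  · simpa using val_natCast_le v m
  · simpa [Valuation.map_neg] using val_natCast_le v m

theorem val_natCast_eq_one {p : ℕ} (hv : v (p : ℂ) < 1) {n : ℕ} (hn : Nat.Coprime n p) :
    v (n : ℂ) = 1 := by
  have hb := Nat.gcd_eq_gcd_ab n p
  rw [hn] at hb
  have h1 : (1 : ℂ) = (n : ℂ) * ((Nat.gcdA n p : ℤ) : ℂ) + (p : ℂ) * ((Nat.gcdB n p : ℤ) : ℂ) := by
    exact_mod_cast hb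
  have h2 : v ((p : ℂ) * ((Nat.gcdB n p : ℤ) : ℂ)) < 1 := by
    rw [map_mul]
    calc v (p : ℂ) * v ((Nat.gcdB n p : ℤ) : ℂ) ≤ v (p : ℂ) * 1 := by
          gcongr; exact val_intCast_le v _
      _ < 1 := by simpa using hv
  have h3 : v ((n : ℂ) * ((Nat.gcdA n p : ℤ) : ℂ)) = 1 := by
    have h4 : (n : ℂ) * ((Nat.gcdA n p : ℤ) : ℂ) = 1 - (p : ℂ) * ((Nat.gcdB n p : ℤ) : ℂ) := by
      rw [h1]; ring
    rw [h4]
    have := Valuation.map_one_sub_of_lt v h2
    exact this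
  refine le_antisymm (val_natCast_le v n) ?_
  rw [map_mul] at h3
  calc (1 : Γ₀) = v (n : ℂ) * v ((Nat.gcdA n p : ℤ) : ℂ) := h3.symm
    _ ≤ v (n : ℂ) * 1 := by gcongr; exact val_intCast_le v _
    _ = v (n : ℂ) := mul_one _

theorem val_rootOfUnity {z : ℂ} {n : ℕ} (hn : n ≠ 0) (hz : z ^ n = 1) : v z = 1 := by
  have h : v z ^ n = 1 := by rw [← map_pow, hz, map_one]
  exact (pow_eq_one_iff_of_nonneg zero_le hn).mp h

theorem val_sum_le {ι : Type*} (s : Finset ι) (f : ι → ℂ) (c : Γ₀) (hf : ∀ i ∈ s, v (f i) ≤ c) :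
    v (∑ i ∈ s, f i) ≤ c := by
  exact v.map_sum_le hf

/-- For a nontrivial root of unity `z` of `p`-power order, `v p ≤ v (1 - z) ^ (p - 1)`. -/
theorem val_prime_le {p : ℕ} (hp : p.Prime) {z : ℂ} {n : ℕ} (hz : z ^ p ^ n = 1)
    (hz1 : z ≠ 1) : v (p : ℂ) ≤ v (1 - z) ^ (p - 1) := by
  have : Fact p.Prime := ⟨hp⟩
  -- order of z is p^(m+1)
  obtain ⟨m, hm⟩ : ∃ m, orderOf z = p ^ (m + 1) := by
    have hd : orderOf z ∣ p ^ n := orderOf_dvd_of_pow_eq_one hz
    obtain ⟨m, _, hm⟩ := (Nat.dvd_prime_pow hp).mp hd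
    cases m with
    | zero => exact absurd (orderOf_eq_one_iff.mp (by simpa using hm)) hz1
    | succ m => exact ⟨m, hm⟩
  have hprim : IsPrimitiveRoot z (p ^ (m + 1)) := hm ▸ IsPrimitiveRoot.orderOf z
  have hprim' : IsPrimitiveRoot (z ^ p ^ m) p := by
    refine hprim.pow (pow_pos hp.pos _) ?_
    rw [pow_succ]
  obtain ⟨q, hq⟩ : ∃ q, p = q + 1 := ⟨p - 1, (Nat.succ_pred_eq_of_pos hp.pos).symm⟩
  have hprod : ∏ k ∈ range q, (1 - (z ^ p ^ m) ^ (k + 1)) = (p : ℂ) := by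
    have h := IsPrimitiveRoot.prod_one_sub_pow_eq_order (n := q) (μ := z ^ p ^ m) (by rwa [← hq])
    rw [h, hq]; push_cast; ring
  have hfac : ∀ j : ℕ, v (1 - z ^ j) ≤ v (1 - z) := by
    intro j
    have h1 : 1 - z ^ j = (∑ i ∈ range j, z ^ i) * (1 - z) := by
      have := geom_sum_mul_neg z j
      rw [this]
    rw [h1, map_mul]
    calc v (∑ i ∈ range j, z ^ i) * v (1 - z) ≤ 1 * v (1 - z) := by
          gcongr
          refine val_sum_le v _ _ _ (fun i _ => ?_)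
          rw [map_pow, val_rootOfUnity v (pow_ne_zero n hp.ne_zero) hz, one_pow]
      _ = v (1 - z) := one_mul _
  rw [← hprod, map_prod]
  calc ∏ k ∈ range q, v (1 - (z ^ p ^ m) ^ (k + 1)) ≤ ∏ _k ∈ range q, v (1 - z) := by
        refine Finset.prod_le_prod' (fun k _ => ?_)
        rw [← pow_mul]
        exact hfac _
    _ = v (1 - z) ^ (p - 1) := by rw [Finset.prod_const, card_range, hq]; simp

end Pool.Agent.H.MP_7d3ffc_al
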