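import Mathlib
import Pool.Agent.H.MP_7d3ffc_al.Val

/-!
Representation-theoretic tools: coset sums, Schur relation, linear constituents.
-/

namespace Pool.Agent.H.MP_7d3ffc_al

open Finset Module

section CosetSum

variable {G : Type*} [Group G]

/-- Sum over a finite group of a right-invariant function. -/
theorem sum_eq_card_smul_sum_quotient {W : Type*} [AddCommMonoid W] [Fintype G] (D : Subgroup G)
    [Fintype (G ⧸ D)] (F : G → W) (hF : ∀ g : G, ∀ d ∈ D, F (g * d) = F g) :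
    ∑ g : G, F g = Nat.card D • ∑ q : G ⧸ D, F q.out := by
  classical
  have h1 : ∑ g : G, F g = ∑ q : G ⧸ D, ∑ g ∈ univ.filter (fun g : G => (g : G ⧸ D) = q), F g := by
    rw [Finset.sum_fiberwise]
  rw [h1, Finset.smul_sum]
  refine Finset.sum_congr rfl (fun q _ => ?_)
  have h2 : ∀ g ∈ univ.filter (fun g : G => (g : G ⧸ D) = q), F g = F q.out := by
    intro g hg
    rw [Finset.mem_filter] at hg
    have h3 : ((q.out : G) : G ⧸ D) = (g : G ⧸ D) := by rw [hg.2]; exact Quotient.out_eq q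
    have h4 : (q.out)⁻¹ * g ∈ D := QuotientGroup.eq.mp h3
    have h5 := hF q.out _ h4
    rw [mul_inv_cancel_left] at h5
    exact h5
  rw [Finset.sum_congr rfl h2, Finset.sum_const]
  congr 1
  have h6 := QuotientGroup.card_preimage_mk D ({q} : Set (G ⧸ D))
  rw [Nat.card_coe_set_eq, Nat.card_coe_set_eq, Set.ncard_singleton, mul_one] at h6
  rw [← h6, ← Set.ncard_coe_finset]
  congr 1
  ext g
  simp

theorem sum_eq_card_mul_sum_quotient [Fintype G] (D : Subgroup G) [Fintype (G ⧸ D)]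
    (F : G → ℂ) (hF : ∀ g : G, ∀ d ∈ D, F (g * d) = F g) :
    ∑ g : G, F g = (Nat.card D : ℂ) * ∑ q : G ⧸ D, F q.out := by
  rw [sum_eq_card_smul_sum_quotient D F hF, nsmul_eq_mul]

theorem val_sum_invariant_le {Γ₀ : Type*} [LinearOrderedCommGroupWithZero Γ₀] (v : Valuation ℂ Γ₀)
    [Fintype G] (D : Subgroup G) (F : G → ℂ) (hF : ∀ g : G, ∀ d ∈ D, F (g * d) = F g) (c : Γ₀)
    (hc : ∀ g, v (F g) ≤ c) : v (∑ g : G, F g) ≤ v (Nat.card D : ℂ) * c := by
  classical
  have : Fintype (G ⧸ D) := Fintype.ofFinite _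
  rw [sum_eq_card_mul_sum_quotient D F hF, map_mul]
  gcongr
  exact val_sum_le v _ _ _ (fun q _ => hc _)

end CosetSum

section Rep

variable {G : Type*} [Group G] {V : Type*} [AddCommGroup V] [Module ℂ V]

/-- Schur's relation for the average of a rank one operator. -/
theorem schur_rank_one [Fintype G] [FiniteDimensional ℂ V] (ρ : Representation ℂ G V)
    (hρ : ρ.IsIrreducible) (ξ : V →ₗ[ℂ] ℂ) (w : V) :
    ∃ c : ℂ, (∀ x : V, ∑ g : G, ξ (ρ g⁻¹ x) • ρ g w = c • x) ∧
      c * (finrank ℂ V : ℂ) = (Nat.card G : ℂ) * ξ w := by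
  classical
  let f : V →ₗ[ℂ] V := ξ.smulRight w
  let F : V →ₗ[ℂ] V := ∑ g : G, ρ g ∘ₗ f ∘ₗ ρ g⁻¹
  have hFx : ∀ x : V, F x = ∑ g : G, ξ (ρ g⁻¹ x) • ρ g w := by
    intro x
    simp [F, f, LinearMap.sum_apply]
  have hcomm : ∀ (h : G) (x : V), F (ρ h x) = ρ h (F x) := by
    intro h x
    rw [hFx, hFx, map_sum]
    refine Fintype.sum_equiv (Equiv.mulLeft h⁻¹) _ _ (fun g => ?_)
    simp only [Equiv.coe_mulLeft, map_smul, mul_inv_rev, inv_inv, map_mul, Module.End.mul_apply,
      Representation.self_inv_apply]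
  let Φ : Representation.IntertwiningMap ρ ρ :=
    F.intertwiningMap_of_isIntertwiningMap ρ ρ hcomm
  obtain ⟨c, hc⟩ :=
    (Representation.IsIrreducible.algebraMap_intertwiningMap_bijective_of_isAlgClosed
      (ρ := ρ)).2 Φ
  have hc' : ∀ x : V, F x = c • x := by
    intro x
    have h1 : Φ x = F x := rfl
    rw [← h1, ← hc]
    rfl
  refine ⟨c, fun x => by rw [← hFx, hc'], ?_⟩
  have htr : LinearMap.trace ℂ V F = (Nat.card G : ℂ) * ξ w := by
    have h1 : ∀ g : G, LinearMap.trace ℂ V (ρ g ∘ₗ f ∘ₗ ρ g⁻¹) = ξ w := by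
      intro g
      rw [LinearMap.trace_comp_comm', LinearMap.comp_assoc, ← Module.End.mul_eq_comp (ρ g⁻¹) (ρ g),
        ← map_mul, inv_mul_cancel, map_one, Module.End.one_eq_id, LinearMap.comp_id]
      exact LinearMap.trace_smulRight ξ w
    simp only [F, map_sum, h1, Finset.sum_const, Finset.card_univ, nsmul_eq_mul,
      Nat.card_eq_fintype_card]
  have hF2 : F = c • LinearMap.id := by ext x; simp [hc']
  rw [hF2, map_smul, LinearMap.trace_id] at htr
  simpa using htr

end Rep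

end Pool.Agent.H.MP_7d3ffc_al
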