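import Mathlib
import Pool.Agent.H.MP_7d3ffc_al.Core

/-!
Linear constituents of the restriction of a complex representation to a subgroup.
-/

namespace Pool.Agent.H.MP_7d3ffc_al

open Finset Module

variable {G : Type*} [Group G] {V : Type*} [AddCommGroup V] [Module ℂ V]

/-- `Lin ρ P` is the set of linear characters `μ : P → ℂˣ` of the subgroup `P` with
`⟨χ_P, μ⟩ ≠ 0`, where `χ` is the character of `ρ`; here
`|P| ⟨χ_P, μ⟩ = ∑_{x ∈ P} χ(x) μ(x)⁻¹`. -/
noncomputable def Lin (ρ : Representation ℂ G V) (P : Subgroup G) : Set (P →* ℂˣ) :=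
  {μ | ∑ᶠ x : P, ρ.character (x : G) * (((μ x)⁻¹ : ℂˣ) : ℂ) ≠ 0}

/-- The restriction of `ρ` to `P`, twisted by the inverse of `μ`. -/
noncomputable def twist (ρ : Representation ℂ G V) (P : Subgroup G) (μ : P →* ℂˣ) :
    Representation ℂ P V where
  toFun x := (((μ x)⁻¹ : ℂˣ) : ℂ) • ρ (x : G)
  map_one' := by simp
  map_mul' x y := by
    ext u
    simp only [map_mul, mul_inv_rev, Units.val_mul, Subgroup.coe_mul, LinearMap.smul_apply,
      Module.End.mul_apply, map_smul, smul_smul]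

theorem twist_apply (ρ : Representation ℂ G V) (P : Subgroup G) (μ : P →* ℂˣ) (x : P) (y : V) :
    twist ρ P μ x y = (((μ x)⁻¹ : ℂˣ) : ℂ) • ρ (x : G) y := rfl

theorem twist_apply_eq_iff (ρ : Representation ℂ G V) (P : Subgroup G) (μ : P →* ℂˣ) (x : P)
    (y : V) : twist ρ P μ x y = y ↔ ρ (x : G) y = ((μ x : ℂˣ) : ℂ) • y := by
  rw [twist_apply, Units.val_inv_eq_inv_val]
  exact inv_smul_eq_iff₀ (Units.ne_zero _)

/-- `μ` is in `Lin ρ P` iff it is afforded by an eigenvector. -/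
theorem mem_Lin_iff [Finite G] [FiniteDimensional ℂ V] (ρ : Representation ℂ G V)
    (P : Subgroup G) (μ : P →* ℂˣ) :
    μ ∈ Lin ρ P ↔ ∃ y : V, y ≠ 0 ∧ ∀ x : P, ρ (x : G) y = ((μ x : ℂˣ) : ℂ) • y := by
  classical
  have : Fintype P := Fintype.ofFinite _
  have hcard : (Nat.card P : ℂ) ≠ 0 := Nat.cast_ne_zero.mpr Nat.card_pos.ne'
  have : Invertible (Nat.card P : ℂ) := invertibleOfNonzero hcard
  have h1 := Representation.card_inv_mul_sum_char_eq_finrank (twist ρ P μ)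
  have h2 : ∀ x : P, (twist ρ P μ).character x =
      ρ.character (x : G) * (((μ x)⁻¹ : ℂˣ) : ℂ) := by
    intro x
    have h3 : (twist ρ P μ) x = (((μ x)⁻¹ : ℂˣ) : ℂ) • ρ (x : G) := rfl
    simp only [Representation.character, h3, map_smul, smul_eq_mul, mul_comm]
  simp only [h2] at h1
  have h4 : μ ∈ Lin ρ P ↔ finrank ℂ (twist ρ P μ).invariants ≠ 0 := by
    simp only [Lin, Set.mem_ofPred_eq, finsum_eq_sum_of_fintype]
    rw [← Nat.cast_ne_zero (R := ℂ), ← h1]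
    simp [hcard]
  rw [h4]
  constructor
  · intro h
    obtain ⟨y, hy⟩ := Module.finrank_pos_iff_exists_ne_zero.mp (Nat.pos_of_ne_zero h)
    refine ⟨y, by simpa using hy, fun x => ?_⟩
    exact (twist_apply_eq_iff ρ P μ x y).mp (y.2 x)
  · rintro ⟨y, hy, hy'⟩
    have hmem : y ∈ (twist ρ P μ).invariants :=
      fun x => (twist_apply_eq_iff ρ P μ x y).mpr (hy' x)
    exact (Module.finrank_pos_iff_exists_ne_zero.mpr
      ⟨(⟨y, hmem⟩ : (twist ρ P μ).invariants), fun h => hy (congrArg Subtype.val h)⟩).ne'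

/-- The projection onto the `μ`-eigenspace of `P`. -/
noncomputable def proj (ρ : Representation ℂ G V) (P : Subgroup G) [Fintype P] (μ : P →* ℂˣ) :
    V →ₗ[ℂ] V :=
  (Nat.card P : ℂ)⁻¹ • ∑ x : P, (((μ x)⁻¹ : ℂˣ) : ℂ) • ρ (x : G)

theorem proj_apply (ρ : Representation ℂ G V) (P : Subgroup G) [Fintype P] (μ : P →* ℂˣ) (y : V) :
    proj ρ P μ y = (Nat.card P : ℂ)⁻¹ • ∑ x : P, (((μ x)⁻¹ : ℂˣ) : ℂ) • ρ (x : G) y := by
  simp [proj, LinearMap.sum_apply]

theorem rho_proj (ρ : Representation ℂ G V) (P : Subgroup G) [Fintype P] (μ : P →* ℂˣ) (y : V)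
    (z : P) : ρ (z : G) (proj ρ P μ y) = ((μ z : ℂˣ) : ℂ) • proj ρ P μ y := by
  rw [proj_apply, map_smul, smul_comm, map_sum, Finset.smul_sum (r := ((μ z : ℂˣ) : ℂ))]
  congr 1
  refine Fintype.sum_equiv (Equiv.mulLeft z) _ _ (fun x => ?_)
  simp only [map_smul, Equiv.coe_mulLeft, map_mul, mul_inv_rev, Units.val_mul, Subgroup.coe_mul,
    Module.End.mul_apply, smul_smul]
  congr 1
  rw [mul_comm, mul_assoc, ← Units.val_mul, inv_mul_cancel, Units.val_one, mul_one]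

theorem proj_eq_self (ρ : Representation ℂ G V) (P : Subgroup G) [Fintype P] (μ : P →* ℂˣ) (y : V)
    (hy : ∀ x : P, ρ (x : G) y = ((μ x : ℂˣ) : ℂ) • y) : proj ρ P μ y = y := by
  have hcard : (Nat.card P : ℂ) ≠ 0 := Nat.cast_ne_zero.mpr Nat.card_pos.ne'
  rw [proj_apply]
  have : ∀ x : P, (((μ x)⁻¹ : ℂˣ) : ℂ) • ρ (x : G) y = y := by
    intro x
    rw [hy x, smul_smul, ← Units.val_mul, inv_mul_cancel, Units.val_one, one_smul]
  simp only [this, Finset.sum_const, Finset.card_univ]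
  rw [← Nat.card_eq_fintype_card, ← Nat.cast_smul_eq_nsmul ℂ, smul_smul, inv_mul_cancel₀ hcard,
    one_smul]

theorem proj_eq_zero_of_notMem [Finite G] [FiniteDimensional ℂ V] (ρ : Representation ℂ G V)
    (P : Subgroup G) [Fintype P] (μ : P →* ℂˣ) (hμ : μ ∉ Lin ρ P) (y : V) :
    proj ρ P μ y = 0 := by
  by_contra h
  exact hμ ((mem_Lin_iff ρ P μ).mpr ⟨_, h, rho_proj ρ P μ y⟩)

theorem proj_rho (ρ : Representation ℂ G V) (P : Subgroup G) [Fintype P] (μ : P →* ℂˣ) (y : V)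
    (z : P) : proj ρ P μ (ρ (z : G) y) = ((μ z : ℂˣ) : ℂ) • proj ρ P μ y := by
  rw [proj_apply, proj_apply, smul_comm, Finset.smul_sum (r := ((μ z : ℂˣ) : ℂ))]
  congr 1
  refine Fintype.sum_equiv (Equiv.mulRight z) _ _ (fun x => ?_)
  simp only [Equiv.coe_mulRight, map_mul, mul_inv_rev, Units.val_mul, Subgroup.coe_mul,
    Module.End.mul_apply, smul_smul]
  congr 1
  rw [← mul_assoc, ← Units.val_mul, mul_inv_cancel, Units.val_one, one_mul]

/-- A functional `ξ` on `V` is `μ`-equivariant if `ξ(xy) = μ(x) ξ(y)` for `x ∈ P`. -/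
def FunEquiv (ρ : Representation ℂ G V) (P : Subgroup G) (μ : P →* ℂˣ) (ξ : V →ₗ[ℂ] ℂ) : Prop :=
  ∀ (x : P) (y : V), ξ (ρ (x : G) y) = ((μ x : ℂˣ) : ℂ) * ξ y

theorem exists_funEquiv [Finite G] (ρ : Representation ℂ G V) (P : Subgroup G) (μ : P →* ℂˣ)
    (y : V) (hy0 : y ≠ 0) (hy : ∀ x : P, ρ (x : G) y = ((μ x : ℂˣ) : ℂ) • y) :
    ∃ ξ : V →ₗ[ℂ] ℂ, FunEquiv ρ P μ ξ ∧ ξ y = 1 := by
  classical
  have : Fintype P := Fintype.ofFinite _
  obtain ⟨η, hη⟩ : ∃ η : Module.Dual ℂ V, η y ≠ 0 := by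
    by_contra h
    push Not at h
    exact hy0 ((Module.forall_dual_apply_eq_zero_iff ℂ y).mp h)
  refine ⟨(η y)⁻¹ • (η ∘ₗ proj ρ P μ), fun x u => ?_, ?_⟩
  · simp only [LinearMap.smul_apply, LinearMap.comp_apply, proj_rho, map_smul, smul_eq_mul]
    ring
  · simp only [LinearMap.smul_apply, LinearMap.comp_apply, proj_eq_self ρ P μ y hy, smul_eq_mul]
    exact inv_mul_cancel₀ hη

open scoped Classical in
/-- Orthogonality: the sum of the values of the linear characters of a finite group. -/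
theorem sum_linear_characters (P : Type*) [Group P] [Finite P] [Fintype (P →* ℂˣ)] (x : P) :
    ∑ μ : P →* ℂˣ, (((μ x)⁻¹ : ℂˣ) : ℂ) =
      if x ∈ commutator P then (Nat.card (P ⧸ commutator P) : ℂ) else 0 := by
  classical
  split_ifs with hx
  · have h1 : ∀ μ : P →* ℂˣ, μ x = 1 := by
      intro μ
      have : commutator P ≤ μ.ker := Abelianization.commutator_subset_ker μ
      exact this hx
    simp only [h1, inv_one, Units.val_one, Finset.sum_const, Finset.card_univ, nsmul_eq_mul,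
      mul_one, Nat.cast_inj]
    rw [← Nat.card_eq_fintype_card, Nat.card_congr (Abelianization.lift (G := P) (A := ℂˣ)),
      CommGroup.card_monoidHom_of_hasEnoughRootsOfUnity]
    rfl
  · have hx' : Abelianization.of x ≠ 1 := by
      intro h
      exact hx ((QuotientGroup.eq_one_iff x).mp h)
    obtain ⟨φ, hφ⟩ :=
      CommGroup.exists_apply_ne_one_of_hasEnoughRootsOfUnity (Abelianization P) ℂ hx'
    let ψ : P →* ℂˣ := φ.comp Abelianization.of
    have hψ : ψ x ≠ 1 := hφ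
    have h2 : (((ψ x)⁻¹ : ℂˣ) : ℂ) * ∑ μ : P →* ℂˣ, (((μ x)⁻¹ : ℂˣ) : ℂ) =
        ∑ μ : P →* ℂˣ, (((μ x)⁻¹ : ℂˣ) : ℂ) := by
      rw [Finset.mul_sum]
      refine Fintype.sum_equiv (Equiv.mulLeft ψ) _ _ (fun μ => ?_)
      simp [mul_comm]
    have h3 : ((((ψ x)⁻¹ : ℂˣ) : ℂ) - 1) * ∑ μ : P →* ℂˣ, (((μ x)⁻¹ : ℂˣ) : ℂ) = 0 := by
      rw [sub_mul, h2, one_mul, sub_self]
    rcases mul_eq_zero.mp h3 with h4 | h4
    · exfalso
      apply hψ
      have h5 : (((ψ x)⁻¹ : ℂˣ) : ℂ) = 1 := sub_eq_zero.mp h4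
      have h6 : (ψ x)⁻¹ = 1 := Units.ext h5
      exact inv_eq_one.mp h6
    · exact h4

/-- A vector fixed by the commutator subgroup of `P` is the sum of its projections to the
eigenspaces of the linear characters of `P`. -/
theorem sum_proj_eq (ρ : Representation ℂ G V) (P : Subgroup G) [Finite G] [Fintype P]
    [Fintype (P →* ℂˣ)] (u : V) (hu : ∀ x ∈ commutator P, ρ (x : G) u = u) :
    ∑ μ : P →* ℂˣ, proj ρ P μ u = u := by
  classical
  have hcard : (Nat.card P : ℂ) ≠ 0 := Nat.cast_ne_zero.mpr Nat.card_pos.ne'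
  simp only [proj_apply]
  rw [← Finset.smul_sum, Finset.sum_comm]
  have h1 : ∀ x : P, ∑ μ : P →* ℂˣ, (((μ x)⁻¹ : ℂˣ) : ℂ) • ρ (x : G) u =
      if x ∈ commutator P then (Nat.card (P ⧸ commutator P) : ℂ) • u else 0 := by
    intro x
    rw [← Finset.sum_smul, sum_linear_characters]
    split_ifs with hx
    · rw [hu x hx]
    · simp
  simp only [h1]
  rw [← Finset.sum_filter, Finset.sum_const, ← Nat.cast_smul_eq_nsmul ℂ, smul_smul, smul_smul]
  have h2 : (univ.filter (fun x : P => x ∈ commutator P)).card =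
      Nat.card (commutator P) := by
    rw [Nat.card_eq_fintype_card]
    exact (Fintype.card_subtype _).symm
  rw [h2, mul_assoc, ← Nat.cast_mul, mul_comm (Nat.card (commutator P)),
    ← Subgroup.card_eq_card_quotient_mul_card_subgroup, inv_mul_cancel₀ hcard, one_smul]

end Pool.Agent.H.MP_7d3ffc_al
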