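import Mathlib
import Pool.Agent.H.MP_7d3ffc_al.Lin

/-!
Lattices with respect to a valuation, killing operators, averaging.
-/

namespace Pool.Agent.H.MP_7d3ffc_al

open Finset Module

variable {G : Type*} [Group G] {V : Type*} [AddCommGroup V] [Module ℂ V]
variable {Γ₀ : Type*} [LinearOrderedCommGroupWithZero Γ₀]

/-- A `G`-stable module over the valuation ring of `v` inside `V`. -/
structure IsLattice (v : Valuation ℂ Γ₀) (ρ : Representation ℂ G V) (M : Set V) : Prop where
  zero_mem : (0 : V) ∈ M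
  add_mem : ∀ x ∈ M, ∀ y ∈ M, x + y ∈ M
  smul_mem : ∀ c : ℂ, v c ≤ 1 → ∀ x ∈ M, c • x ∈ M
  rho_mem : ∀ g : G, ∀ x ∈ M, ρ g x ∈ M

theorem IsLattice.sum_mem {v : Valuation ℂ Γ₀} {ρ : Representation ℂ G V} {M : Set V}
    (hM : IsLattice v ρ M) {ι : Type*} (s : Finset ι) (f : ι → V) (hf : ∀ i ∈ s, f i ∈ M) :
    ∑ i ∈ s, f i ∈ M := by
  classical
  induction s using Finset.induction_on with
  | empty => simpa using hM.zero_mem
  | insert a s ha ih =>
    rw [Finset.sum_insert ha]
    exact hM.add_mem _ (hf a (Finset.mem_insert_self a s)) _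
      (ih (fun i hi => hf i (Finset.mem_insert_of_mem hi)))

/-- The lattice of vectors on which all translates of the functional `ξ` are integral. -/
def latticeOf (v : Valuation ℂ Γ₀) (ρ : Representation ℂ G V) (ξ : V →ₗ[ℂ] ℂ) : Set V :=
  {y | ∀ g : G, v (ξ (ρ g y)) ≤ 1}

theorem isLattice_latticeOf (v : Valuation ℂ Γ₀) (ρ : Representation ℂ G V) (ξ : V →ₗ[ℂ] ℂ) :
    IsLattice v ρ (latticeOf v ρ ξ) where
  zero_mem := fun g => by simp
  add_mem := fun x hx y hy g => by
    rw [map_add, map_add]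
    exact (v.map_add _ _).trans (max_le (hx g) (hy g))
  smul_mem := fun c hc x hx g => by
    rw [map_smul, map_smul, smul_eq_mul, map_mul]
    exact mul_le_one' hc (hx g)
  rho_mem := fun h x hx g => by
    have := hx (g * h)
    rwa [map_mul, Module.End.mul_apply] at this

/-- Values of linear characters of a finite group have value one. -/
theorem val_linear_character [Finite G] (v : Valuation ℂ Γ₀) (P : Subgroup G) (μ : P →* ℂˣ)
    (x : P) : v ((μ x : ℂˣ) : ℂ) = 1 := by
  refine val_rootOfUnity v (n := Nat.card P) Nat.card_pos.ne' ?_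
  rw [← Units.val_pow_eq_pow_val, ← map_pow, pow_card_eq_one', map_one, Units.val_one]

/-- The killing operator: for a finite set `T` of linear characters of the `p`-group `P` not
containing `lam`, there is an operator (a polynomial in the `ρ x`, `x ∈ P`) which preserves
lattices, kills the eigenspaces of the characters in `T` and acts on the `lam`-eigenspace by a
scalar `c` with `v(p)^|T| ≤ v(c)^(p-1)`. -/
theorem exists_kill [Finite G] {p : ℕ} (hp : p.Prime) (v : Valuation ℂ Γ₀)
    (ρ : Representation ℂ G V) (P : Subgroup G) (hP : IsPGroup p P) (lam : P →* ℂˣ)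
    (T : Finset (P →* ℂˣ)) (hT : lam ∉ T) :
    ∃ (D : V →ₗ[ℂ] V) (c : (P →* ℂˣ) → ℂ),
      (∀ M : Set V, IsLattice v ρ M → ∀ y ∈ M, D y ∈ M) ∧
      (∀ (ν : P →* ℂˣ) (y : V), (∀ x : P, ρ (x : G) y = ((ν x : ℂˣ) : ℂ) • y) → D y = c ν • y) ∧
      (∀ ν ∈ T, c ν = 0) ∧
      (∀ (ν : P →* ℂˣ) (ξ : V →ₗ[ℂ] ℂ), FunEquiv ρ P ν ξ → ∀ y, ξ (D y) = c ν * ξ y) ∧
      v (p : ℂ) ^ T.card ≤ v (c lam) ^ (p - 1) := by
  classical
  have : Fact p.Prime := ⟨hp⟩
  induction T using Finset.induction_on with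
  | empty =>
    refine ⟨LinearMap.id, fun _ => 1, fun M _ y hy => hy, fun ν y _ => by simp, by simp,
      fun ν ξ _ y => by simp, by simp⟩
  | insert μ T hμT ih =>
    have hlT : lam ∉ T := fun h => hT (Finset.mem_insert_of_mem h)
    have hlμ : lam ≠ μ := fun h => hT (h ▸ Finset.mem_insert_self _ _)
    obtain ⟨D, c, hM, hD, hc, hξ, hv⟩ := ih hlT
    obtain ⟨x, hx⟩ : ∃ x : P, lam x ≠ μ x := by
      by_contra h
      push Not at h
      exact hlμ (MonoidHom.ext h)
    refine ⟨(ρ (x : G) - ((μ x : ℂˣ) : ℂ) • LinearMap.id) ∘ₗ D,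
      fun ν => (((ν x : ℂˣ) : ℂ) - ((μ x : ℂˣ) : ℂ)) * c ν, ?_, ?_, ?_, ?_, ?_⟩
    · intro M hMM y hy
      have h1 : D y ∈ M := hM M hMM y hy
      have h2 : ρ (x : G) (D y) ∈ M := hMM.rho_mem _ _ h1
      have h3 : (-((μ x : ℂˣ) : ℂ)) • D y ∈ M :=
        hMM.smul_mem _ (by rw [Valuation.map_neg, val_linear_character]) _ h1
      have h4 := hMM.add_mem _ h2 _ h3
      simpa [sub_eq_add_neg] using h4
    · intro ν y hy
      rw [LinearMap.comp_apply, hD ν y hy]
      simp only [LinearMap.sub_apply, map_smul, hy x, LinearMap.smul_apply, LinearMap.id_apply]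
      module
    · intro ν hν
      rcases Finset.mem_insert.mp hν with rfl | h
      · simp
      · simp [hc ν h]
    · intro ν ξ hξν y
      simp only [LinearMap.comp_apply, LinearMap.sub_apply, LinearMap.smul_apply,
        LinearMap.id_apply, map_sub, map_smul, smul_eq_mul, hξν x, hξ ν ξ hξν y]
      ring
    · rw [Finset.card_insert_of_notMem hμT, pow_succ, map_mul, mul_pow, mul_comm]
      have hz : v (p : ℂ) ≤ v (((lam x : ℂˣ) : ℂ) - ((μ x : ℂˣ) : ℂ)) ^ (p - 1) := by
        obtain ⟨n, hn⟩ := (IsPGroup.iff_card).mp hP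
        have hz1 : ((((lam x)⁻¹ * μ x : ℂˣ)) : ℂ) ^ p ^ n = 1 := by
          rw [← Units.val_pow_eq_pow_val, mul_pow, inv_pow, ← map_pow, ← map_pow, ← hn,
            pow_card_eq_one']
          simp
        have hz2 : ((((lam x)⁻¹ * μ x : ℂˣ)) : ℂ) ≠ 1 := by
          intro h
          apply hx
          have h' : (lam x)⁻¹ * μ x = 1 := Units.ext h
          exact (inv_mul_eq_one.mp h')
        have h5 := val_prime_le v hp hz1 hz2
        have h6 : (((lam x : ℂˣ) : ℂ) - ((μ x : ℂˣ) : ℂ)) =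
            ((lam x : ℂˣ) : ℂ) * (1 - ((((lam x)⁻¹ * μ x : ℂˣ)) : ℂ)) := by
          rw [mul_sub, mul_one, ← Units.val_mul, mul_inv_cancel_left]
        rw [h6, map_mul, val_linear_character, one_mul]
        exact h5
      exact mul_le_mul' hz hv

/-- Applying a killing operator for all linear constituents other than `lam` to a vector fixed by
the commutator subgroup of `P` gives a `lam`-eigenvector. -/
theorem kill_eigen [Finite G] [FiniteDimensional ℂ V] (ρ : Representation ℂ G V) (P : Subgroup G)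
    (lam : P →* ℂˣ) (D : V →ₗ[ℂ] V) (c : (P →* ℂˣ) → ℂ)
    (hD : ∀ (ν : P →* ℂˣ) (y : V), (∀ x : P, ρ (x : G) y = ((ν x : ℂˣ) : ℂ) • y) → D y = c ν • y)
    (hc : ∀ ν ∈ Lin ρ P, ν ≠ lam → c ν = 0) (u : V) (hu : ∀ x ∈ commutator P, ρ (x : G) u = u)
    (z : P) : ρ (z : G) (D u) = ((lam z : ℂˣ) : ℂ) • D u := by
  classical
  have : Fintype P := Fintype.ofFinite _
  have : Fintype (P →* ℂˣ) := Fintype.ofFinite _
  have h1 : D u = c lam • proj ρ P lam u := by
    conv_lhs => rw [← sum_proj_eq ρ P u hu, map_sum]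
    rw [Finset.sum_eq_single lam]
    · exact hD lam _ (rho_proj ρ P lam u)
    · intro ν _ hν
      by_cases h : ν ∈ Lin ρ P
      · rw [hD ν _ (rho_proj ρ P ν u), hc ν h hν, zero_smul]
      · rw [proj_eq_zero_of_notMem ρ P ν h, map_zero]
    · intro h
      exact absurd (Finset.mem_univ _) h
  rw [h1, map_smul, rho_proj, smul_comm]

/-- Averaging over cosets: if `y ∈ M` is fixed by the subgroup `D` of `K`, there is a `K`-fixed
vector `u ∈ M` such that every `K`-invariant functional `ξ` has `ξ u = |K : D| ξ y`. -/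
theorem exists_average [Finite G] (v : Valuation ℂ Γ₀) (ρ : Representation ℂ G V) (K H : Subgroup G)
    (y : V) (hy : ∀ d ∈ K ⊓ H, ρ d y = y) :
    ∃ u : V, (∀ M : Set V, IsLattice v ρ M → y ∈ M → u ∈ M) ∧ (∀ k ∈ K, ρ k u = u) ∧
      ∀ ξ : V →ₗ[ℂ] ℂ, (∀ k ∈ K, ∀ z, ξ (ρ k z) = ξ z) → ξ u = (H.relIndex K : ℂ) * ξ y := by
  classical
  have : Fintype K := Fintype.ofFinite _
  have : Fintype (K ⧸ H.subgroupOf K) := Fintype.ofFinite _
  let D : Subgroup K := H.subgroupOf K
  let u : V := ∑ q : K ⧸ H.subgroupOf K, ρ ((q.out : K) : G) y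
  have hcard : (Nat.card D : ℂ) ≠ 0 := Nat.cast_ne_zero.mpr Nat.card_pos.ne'
  have hsum : ∑ k : K, ρ (k : G) y = Nat.card D • u := by
    refine sum_eq_card_smul_sum_quotient D (fun k : K => ρ (k : G) y) ?_
    intro g d hd
    have : ρ (d : G) y = y := hy _ ⟨d.2, hd⟩
    change ρ ((g : G) * (d : G)) y = _
    rw [map_mul, Module.End.mul_apply, this]
  refine ⟨u, fun M hM hyM => hM.sum_mem _ _ (fun q _ => hM.rho_mem _ _ hyM), ?_, ?_⟩
  · intro k hk
    have h1 : ρ k (∑ k : K, ρ (k : G) y) = ∑ k : K, ρ (k : G) y := by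
      rw [map_sum]
      refine Fintype.sum_equiv (Equiv.mulLeft (⟨k, hk⟩ : K)) _ _ (fun x => ?_)
      simp [map_mul]
    rw [hsum, map_nsmul, ← Nat.cast_smul_eq_nsmul ℂ, ← Nat.cast_smul_eq_nsmul ℂ] at h1
    exact smul_right_injective V hcard h1
  · intro ξ hξ
    have h1 : ξ u = ∑ _q : K ⧸ H.subgroupOf K, ξ y := by
      rw [map_sum]
      exact Finset.sum_congr rfl (fun q _ => hξ _ (q.out).2 y)
    rw [h1, Finset.sum_const, nsmul_eq_mul, Finset.card_univ, ← Nat.card_eq_fintype_card]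
    rfl

/-- In an irreducible representation, a nonzero functional does not vanish on all translates of
a nonzero vector. -/
theorem exists_ne_zero (ρ : Representation ℂ G V) (hρ : ρ.IsIrreducible) (ξ : V →ₗ[ℂ] ℂ)
    (hξ : ξ ≠ 0) (w : V) (hw : w ≠ 0) : ∃ g : G, ξ (ρ g w) ≠ 0 := by
  by_contra h
  push Not at h
  let S : Subrepresentation ρ :=
    { toSubmodule :=
        { carrier := {x | ∀ g : G, ξ (ρ g x) = 0}
          zero_mem' := fun g => by simp
          add_mem' := fun {a b} ha hb g => by rw [map_add, map_add, ha g, hb g, add_zero]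
          smul_mem' := fun c x hx g => by rw [map_smul, map_smul, hx g, smul_zero] }
      apply_mem_toSubmodule := fun g x hx h => by
        have := hx (h * g)
        rwa [map_mul, Module.End.mul_apply] at this }
  have hS : S = ⊥ ∨ S = ⊤ := IsSimpleOrder.eq_bot_or_eq_top S
  have hwS : w ∈ S.toSubmodule := h
  rcases hS with hS | hS
  · rw [hS] at hwS
    exact hw ((Submodule.mem_bot ℂ).mp hwS)
  · apply hξ
    ext x
    have hx : x ∈ S.toSubmodule := by rw [hS]; exact Submodule.mem_top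
    have := hx 1
    simpa using this

end Pool.Agent.H.MP_7d3ffc_al
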