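import Mathlib
import Pool.Agent.H.MP_7d3ffc_al.Lattice

/-!
Theorem A: a lower bound for the number of linear constituents.
-/

namespace Pool.Agent.H.MP_7d3ffc_al

open Finset Module
open scoped Pointwise

variable {G : Type*} [Group G] {V : Type*} [AddCommGroup V] [Module ℂ V]
variable {Γ₀ : Type*} [LinearOrderedCommGroupWithZero Γ₀]

/-- The key integrality statement (from Schur's lemma). -/
theorem key_integrality [Finite G] [FiniteDimensional ℂ V]
    (v : Valuation ℂ Γ₀)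
    (P : Subgroup G) (ρ : Representation ℂ G V) (hρ : ρ.IsIrreducible)
    (lam : P →* ℂˣ) (ξ : V →ₗ[ℂ] ℂ) (hξ : FunEquiv ρ P lam ξ)
    (w : V) (hw : ∀ g : G, v (ξ (ρ g w)) ≤ 1) (g0 : G) (hg0 : ξ (ρ g0 w) = 1)
    (w' : V) (hw' : ∀ x : P, ρ (x : G) w' = ((lam x : ℂˣ) : ℂ) • w')
    (hw'M : ∀ g : G, v (ξ (ρ g w')) ≤ 1) :
    v (P.index : ℂ) * v (ξ w') ≤ v (finrank ℂ V : ℂ) := by
  classical
  have : Fintype G := Fintype.ofFinite _
  obtain ⟨c, hc, hc2⟩ := schur_rank_one ρ hρ ξ w'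
  have h1 : ∑ g : G, ξ (ρ g⁻¹ w) * ξ (ρ (g0 * g) w') = c := by
    have h2 := congrArg (fun x => ξ (ρ g0 x)) (hc w)
    simp only [map_sum, map_smul, smul_eq_mul, hg0, mul_one] at h2
    rw [← h2]
    refine Finset.sum_congr rfl (fun g _ => ?_)
    rw [map_mul, Module.End.mul_apply]
  have hvc : v c ≤ v (Nat.card P : ℂ) * 1 := by
    rw [← h1]
    refine val_sum_invariant_le v P _ ?_ 1 (fun g => ?_)
    · intro g x hx
      have e1 : ρ (g0 * (g * x)) w' = ((lam ⟨x, hx⟩ : ℂˣ) : ℂ) • ρ (g0 * g) w' := by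
        rw [← mul_assoc, map_mul, Module.End.mul_apply, hw' ⟨x, hx⟩, map_smul]
      have e2 : ξ (ρ (g * x)⁻¹ w) = (((lam ⟨x, hx⟩)⁻¹ : ℂˣ) : ℂ) * ξ (ρ g⁻¹ w) := by
        rw [mul_inv_rev, map_mul, Module.End.mul_apply]
        have := hξ (⟨x, hx⟩⁻¹) (ρ g⁻¹ w)
        simpa using this
      rw [e1, e2, map_smul, smul_eq_mul]
      have e3 : (((lam ⟨x, hx⟩)⁻¹ : ℂˣ) : ℂ) * ((lam ⟨x, hx⟩ : ℂˣ) : ℂ) = 1 := by
        rw [← Units.val_mul, inv_mul_cancel, Units.val_one]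
      calc _ = ((((lam ⟨x, hx⟩)⁻¹ : ℂˣ) : ℂ) * ((lam ⟨x, hx⟩ : ℂˣ) : ℂ)) *
            (ξ (ρ g⁻¹ w) * ξ (ρ (g0 * g) w')) := by ring
        _ = _ := by rw [e3, one_mul]
    · rw [map_mul]
      exact mul_le_one' (hw _) (hw'M _)
  have hcard : v (Nat.card G : ℂ) = v (Nat.card P : ℂ) * v (P.index : ℂ) := by
    rw [← map_mul, ← Nat.cast_mul]
    congr 2
    exact (Subgroup.card_mul_index P).symm
  have hP0 : (0 : Γ₀) < v (Nat.card P : ℂ) := by
    rw [Valuation.pos_iff]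
    exact Nat.cast_ne_zero.mpr Nat.card_pos.ne'
  have h4 : v (Nat.card P : ℂ) * (v (P.index : ℂ) * v (ξ w')) ≤
      v (Nat.card P : ℂ) * v (finrank ℂ V : ℂ) := by
    calc v (Nat.card P : ℂ) * (v (P.index : ℂ) * v (ξ w')) = v (c * (finrank ℂ V : ℂ)) := by
          rw [hc2, map_mul, hcard, mul_assoc]
      _ = v c * v (finrank ℂ V : ℂ) := map_mul _ _ _
      _ ≤ v (Nat.card P : ℂ) * v (finrank ℂ V : ℂ) := by
          gcongr
          simpa using hvc
  exact le_of_mul_le_mul_left h4 hP0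

/-- The value of a nonzero natural number. -/
theorem val_natCast {p : ℕ} (hp : p.Prime) (v : Valuation ℂ Γ₀) (hv : v (p : ℂ) < 1) (n : ℕ)
    (hn : n ≠ 0) : v (n : ℂ) = v (p : ℂ) ^ padicValNat p n := by
  have : Fact p.Prime := ⟨hp⟩
  obtain ⟨m, hm⟩ := pow_padicValNat_dvd (p := p) (n := n)
  have hm' : ¬ p ∣ m := by
    intro hd
    obtain ⟨m2, hm2⟩ := hd
    have h6 : p ^ (padicValNat p n + 1) ∣ n := by
      refine ⟨m2, ?_⟩
      rw [pow_succ, mul_assoc, ← hm2]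
      exact hm
    exact pow_succ_padicValNat_not_dvd hn h6
  have h7 : (n : ℂ) = (p : ℂ) ^ padicValNat p n * (m : ℂ) := by
    conv_lhs => rw [hm]
    push_cast
    ring
  have hvm : v (m : ℂ) = 1 :=
    val_natCast_eq_one v hv ((Nat.Prime.coprime_iff_not_dvd hp).mpr hm').symm
  rw [h7, map_mul, map_pow, hvm, mul_one]

/-- Theorem A. -/
theorem theoremA [Finite G] [FiniteDimensional ℂ V] {p : ℕ} [Fact p.Prime]
    (P : Subgroup G) (hP : IsPGroup p P) (ρ : Representation ℂ G V) (hρ : ρ.IsIrreducible)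
    (H : Subgroup G) (hH : (Lin ρ H).Nonempty) (b : ℕ)
    (hb : ∀ g : G, (MulAut.conj g • H).relIndex ⁅P, P⁆ ∣ p ^ b)
    (hne : (Lin ρ P).Nonempty) :
    (p - 1) * padicValNat p (finrank ℂ V) + 1 ≤
      (Lin ρ P).ncard + (p - 1) * (b + padicValNat p P.index) := by
  classical
  have hp : p.Prime := Fact.out
  obtain ⟨B, hB⟩ := exists_valuation p hp
  set v := B.valuation with hvdef
  have : Fintype (P →* ℂˣ) := Fintype.ofFinite _
  obtain ⟨lam, hlam⟩ := hne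
  obtain ⟨y, hy0, hy⟩ := (mem_Lin_iff ρ _ lam).mp hlam
  obtain ⟨ξ0, hξ0, hξy⟩ := exists_funEquiv ρ _ lam y hy0 hy
  obtain ⟨θ, hθ⟩ := hH
  obtain ⟨w, hw0, hw⟩ := (mem_Lin_iff ρ _ θ).mp hθ
  have hξ0ne : ξ0 ≠ 0 := by
    rintro rfl
    simp at hξy
  obtain ⟨g1, hg1⟩ := exists_ne_zero ρ hρ ξ0 hξ0ne w hw0
  -- choose the translate of maximal value
  obtain ⟨g0, hg0⟩ := Finite.exists_max (fun g : G => v (ξ0 (ρ g w)))
  have hg0ne : ξ0 (ρ g0 w) ≠ 0 := by
    intro h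
    have := hg0 g1
    rw [h, map_zero, le_zero_iff, map_eq_zero] at this
    exact hg1 this
  -- rescale
  set ξ : V →ₗ[ℂ] ℂ := (ξ0 (ρ g0 w))⁻¹ • ξ0 with hξdef
  have hξ : FunEquiv ρ P lam ξ := by
    intro x z
    simp only [hξdef, LinearMap.smul_apply, smul_eq_mul, hξ0 x z]
    ring
  have hξg0 : ξ (ρ g0 w) = 1 := by
    simp only [hξdef, LinearMap.smul_apply, smul_eq_mul]
    exact inv_mul_cancel₀ hg0ne
  have hξw : ∀ g : G, v (ξ (ρ g w)) ≤ 1 := by
    intro g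
    simp only [hξdef, LinearMap.smul_apply, smul_eq_mul, map_mul, map_inv₀]
    have hpos : 0 < v (ξ0 (ρ g0 w)) := by rw [Valuation.pos_iff]; exact hg0ne
    rw [inv_mul_le_iff₀ hpos, mul_one]
    exact hg0 g
  have hML := isLattice_latticeOf v ρ ξ
  -- the commutator subgroup
  set K : Subgroup G := ⁅P, P⁆ with hK
  have hKP : K ≤ P := Subgroup.commutator_le_self _
  have hKmap : K = (commutator P).map P.subtype := by
    rw [hK]
    exact (Subgroup.map_subtype_commutator P).symm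
  have hlamK : ∀ (k : G) (hk : k ∈ K), lam ⟨k, hKP hk⟩ = 1 := by
    intro k hk
    have hk2 : (⟨k, hKP hk⟩ : P) ∈ commutator P := by
      have h5 : k ∈ (commutator P).map P.subtype := hKmap ▸ hk
      obtain ⟨z, hz, hz2⟩ := h5
      have : z = ⟨k, hKP hk⟩ := Subtype.ext hz2
      exact this ▸ hz
    exact Abelianization.commutator_subset_ker lam hk2
  have hξK : ∀ k ∈ K, ∀ z, ξ (ρ k z) = ξ z := by
    intro k hk z
    have := hξ ⟨k, hKP hk⟩ z
    rw [hlamK k hk] at this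
    simpa using this
  -- the vector `ρ g0 w` is fixed by `K ⊓ g0 H g0⁻¹`
  have hfix : ∀ d ∈ K ⊓ (MulAut.conj g0 • H), ρ d (ρ g0 w) = ρ g0 w := by
    rintro d ⟨hdK, hdH⟩
    obtain ⟨h, hh, hd⟩ := (Subgroup.mem_smul_pointwise_iff_exists _ _ _).mp hdH
    have e0 : d = g0 * h * g0⁻¹ := by rw [← hd, MulAut.smul_def, MulAut.conj_apply]
    subst e0
    have e1 : ρ (g0 * h * g0⁻¹) (ρ g0 w) = ((θ ⟨h, hh⟩ : ℂˣ) : ℂ) • ρ g0 w := by
      rw [← Module.End.mul_apply, ← map_mul, inv_mul_cancel_right, map_mul, Module.End.mul_apply,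
        hw ⟨h, hh⟩, map_smul]
    have e2 := hξK _ hdK (ρ g0 w)
    rw [e1, map_smul, smul_eq_mul, hξg0, mul_one] at e2
    rw [e1, e2, one_smul]
  obtain ⟨u, huM, huK, huξ⟩ := exists_average v ρ K (MulAut.conj g0 • H) (ρ g0 w) hfix
  -- killing operator
  obtain ⟨D, c, hDM, hD, hcT, hDξ, hcv⟩ := exists_kill hp v ρ P hP lam
    ((Lin ρ P).toFinset.erase lam) (Finset.notMem_erase _ _)
  set w' : V := D u with hw'def
  have hw'eig : ∀ x : P, ρ (x : G) w' = ((lam x : ℂˣ) : ℂ) • w' := by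
    refine kill_eigen ρ P lam D c hD ?_ u ?_
    · intro ν hν hne
      exact hcT ν (Finset.mem_erase.mpr ⟨hne, Set.mem_toFinset.mpr hν⟩)
    · intro x hx
      refine huK _ ?_
      rw [hKmap]
      exact ⟨x, hx, rfl⟩
  have hgw : ρ g0 w ∈ latticeOf v ρ ξ := by
    refine hML.rho_mem _ _ ?_
    exact hξw
  have hw'M : w' ∈ latticeOf v ρ ξ := hDM _ hML _ (huM _ hML hgw)
  have hkey := key_integrality v P ρ hρ lam ξ hξ w hξw g0 hξg0 w' hw'eig hw'M
  -- compute the value of `ξ w'`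
  obtain ⟨b', hb', hbeq⟩ := (Nat.dvd_prime_pow hp).mp (hb g0)
  have hξw' : ξ w' = c lam * (p : ℂ) ^ b' := by
    rw [hw'def, hDξ lam ξ hξ, huξ ξ hξK, hξg0, mul_one, hbeq]
    push_cast
    ring
  -- value of the degree
  have hdeg0 : finrank ℂ V ≠ 0 := by
    intro h
    have : Subsingleton V := (finrank_zero_iff (R := ℂ) (M := V)).mp h
    exact hy0 (Subsingleton.elim _ _)
  have hdeg : v (finrank ℂ V : ℂ) = v (p : ℂ) ^ padicValNat p (finrank ℂ V) :=
    val_natCast hp v hB _ hdeg0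
  have hidx : v (P.index : ℂ) = v (p : ℂ) ^ padicValNat p P.index :=
    val_natCast hp v hB _ Subgroup.index_ne_zero_of_finite
  have hp0 : (0 : B.ValueGroup) < v (p : ℂ) := by
    rw [Valuation.pos_iff]
    exact Nat.cast_ne_zero.mpr hp.ne_zero
  -- final comparison of exponents
  have hT : ((Lin ρ P).toFinset.erase lam).card =
      (Lin ρ P).ncard - 1 := by
    rw [Finset.card_erase_of_mem (Set.mem_toFinset.mpr hlam), Set.ncard_eq_toFinset_card']
  have hpos : 0 < (Lin ρ P).ncard :=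
    (Set.ncard_pos (Set.toFinite _)).mpr ⟨lam, hlam⟩
  set i := padicValNat p P.index with hi
  have hfinal : v (p : ℂ) ^ ((Lin ρ P).ncard - 1 + b' * (p - 1) + i * (p - 1)) ≤
      v (p : ℂ) ^ (padicValNat p (finrank ℂ V) * (p - 1)) := by
    calc v (p : ℂ) ^ ((Lin ρ P).ncard - 1 + b' * (p - 1) + i * (p - 1))
        = (v (p : ℂ) ^ i) ^ (p - 1) * (v (p : ℂ) ^ ((Lin ρ P).toFinset.erase lam).card *
          (v (p : ℂ) ^ b') ^ (p - 1)) := by rw [pow_add, pow_add, pow_mul, pow_mul, hT, mul_comm]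
      _ ≤ (v (p : ℂ) ^ i) ^ (p - 1) * (v (c lam) ^ (p - 1) * (v (p : ℂ) ^ b') ^ (p - 1)) := by
          gcongr
      _ = (v (P.index : ℂ) * v (ξ w')) ^ (p - 1) := by
          rw [hξw', map_mul, map_pow, mul_pow, mul_pow, hidx]
      _ ≤ v (finrank ℂ V : ℂ) ^ (p - 1) := by gcongr
      _ = v (p : ℂ) ^ (padicValNat p (finrank ℂ V) * (p - 1)) := by rw [hdeg, pow_mul]
  have hexp : padicValNat p (finrank ℂ V) * (p - 1) ≤
      (Lin ρ P).ncard - 1 + b' * (p - 1) + i * (p - 1) :=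
    (pow_le_pow_iff_right_of_lt_one₀ hp0 hB).mp hfinal
  have hb'' : b' * (p - 1) ≤ (p - 1) * b := by
    rw [mul_comm]
    exact Nat.mul_le_mul_left _ hb'
  have hcomm : padicValNat p (finrank ℂ V) * (p - 1) = (p - 1) * padicValNat p (finrank ℂ V) :=
    mul_comm _ _
  have hcomm2 : i * (p - 1) = (p - 1) * i := mul_comm _ _
  rw [mul_add]
  omega

end Pool.Agent.H.MP_7d3ffc_al
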