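import Mathlib
import Pool.Agent.H.MP_7d3ffc_al.ThmA

/-!
Free bases of lattices in subspaces, and double coset sums.
-/

namespace Pool.Agent.H.MP_7d3ffc_al

open Finset Module
open scoped Pointwise

section IntegralBasis

variable {V : Type*} [AddCommGroup V] [Module ℂ V]
variable {Γ₀ : Type*} [LinearOrderedCommGroupWithZero Γ₀]

/-- If finitely many functionals `η i` separate the points of the finite-dimensional space `U`,
then `{y ∈ U | v (η i y) ≤ 1 for all i}` is a free module over the valuation ring of `v`. -/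
theorem exists_integral_basis {ι : Type*} [Finite ι] (v : Valuation ℂ Γ₀)
    (η : ι → V →ₗ[ℂ] ℂ) (m : ℕ) : ∀ (U : Submodule ℂ V) [FiniteDimensional ℂ U],
    finrank ℂ U ≤ m → (∀ y ∈ U, (∀ i, η i y = 0) → y = 0) →
    ∃ (n : ℕ) (b : Fin n → V) (c : Fin n → (V →ₗ[ℂ] ℂ)), (∀ j, b j ∈ U) ∧
      (∀ y ∈ U, y = ∑ j, c j y • b j) ∧ (∀ j k, c j (b k) = if j = k then 1 else 0) ∧
      (∀ y ∈ U, (∀ i, v (η i y) ≤ 1) ↔ ∀ j, v (c j y) ≤ 1) := by
  classical
  induction m with
  | zero =>
    intro U _ hU hsep
    have hU0 : U = ⊥ := Submodule.finrank_eq_zero.mp (Nat.le_zero.mp hU)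
    refine ⟨0, Fin.elim0, Fin.elim0, fun j => j.elim0, ?_, fun j => j.elim0, ?_⟩
    · intro y hy
      rw [hU0] at hy
      simpa using (Submodule.mem_bot ℂ).mp hy
    · intro y hy
      rw [hU0] at hy
      have hy0 : y = 0 := (Submodule.mem_bot ℂ).mp hy
      subst hy0
      simp
  | succ m ih =>
    intro U hUfd hU hsep
    by_cases hU0 : U = ⊥
    · refine ⟨0, Fin.elim0, Fin.elim0, fun j => j.elim0, ?_, fun j => j.elim0, ?_⟩
      · intro y hy
        rw [hU0] at hy
        simpa using (Submodule.mem_bot ℂ).mp hy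
      · intro y hy
        rw [hU0] at hy
        have hy0 : y = 0 := (Submodule.mem_bot ℂ).mp hy
        subst hy0
        simp
    · obtain ⟨u0, hu0U, hu0⟩ := Submodule.exists_mem_ne_zero_of_ne_bot hU0
      obtain ⟨i1, hi1⟩ : ∃ i, η i u0 ≠ 0 := by
        by_contra h
        push Not at h
        exact hu0 (hsep u0 hu0U h)
      have : Nonempty ι := ⟨i1⟩
      obtain ⟨i0, hi0⟩ := Finite.exists_max (fun i : ι => v (η i u0))
      have hi0ne : η i0 u0 ≠ 0 := by
        intro h
        have := hi0 i1
        rw [h, map_zero, le_zero_iff, map_eq_zero] at this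
        exact hi1 this
      set u : V := (η i0 u0)⁻¹ • u0 with hu
      have huU : u ∈ U := U.smul_mem _ hu0U
      have hηu : η i0 u = 1 := by
        rw [hu, map_smul, smul_eq_mul, inv_mul_cancel₀ hi0ne]
      have huM : ∀ i, v (η i u) ≤ 1 := by
        intro i
        rw [hu, map_smul, smul_eq_mul, map_mul, map_inv₀]
        have hpos : 0 < v (η i0 u0) := by rw [Valuation.pos_iff]; exact hi0ne
        rw [inv_mul_le_iff₀ hpos, mul_one]
        exact hi0 i
      let U1 : Submodule ℂ V := U ⊓ LinearMap.ker (η i0)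
      have hU1le : U1 ≤ U := inf_le_left
      have hU1lt : U1 < U := by
        refine lt_of_le_of_ne hU1le (fun h => ?_)
        have : u ∈ U1 := h ▸ huU
        have h2 : η i0 u = 0 := this.2
        rw [hηu] at h2
        exact one_ne_zero h2
      have hU1fd : FiniteDimensional ℂ U1 := Submodule.finiteDimensional_of_le hU1le
      have hfin : finrank ℂ U1 < finrank ℂ U := Submodule.finrank_lt_finrank_of_lt hU1lt
      obtain ⟨n, b, c, hbU, hyb, hcb, hM⟩ := ih U1 (by omega)
        (fun y hy h => hsep y (hU1le hy) h)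
      let π : V →ₗ[ℂ] V := LinearMap.id - (η i0).smulRight u
      have hπ : ∀ y, π y = y - η i0 y • u := fun y => by simp [π]
      have hπU : ∀ y ∈ U, π y ∈ U1 := by
        intro y hy
        refine ⟨?_, ?_⟩
        · rw [hπ]
          exact U.sub_mem hy (U.smul_mem _ huU)
        · change η i0 (π y) = 0
          rw [hπ, map_sub, map_smul, smul_eq_mul, hηu, mul_one, sub_self]
      have hπu : π u = 0 := by rw [hπ, hηu, one_smul, sub_self]
      have hπ1 : ∀ y ∈ U1, π y = y := by
        intro y hy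
        have : η i0 y = 0 := hy.2
        rw [hπ, this, zero_smul, sub_zero]
      refine ⟨n + 1, Fin.cons u b, Fin.cons (η i0) (fun j => c j ∘ₗ π), ?_, ?_, ?_, ?_⟩
      · intro j
        refine Fin.cases ?_ (fun j => ?_) j
        · simpa using huU
        · simpa using hU1le (hbU j)
      · intro y hy
        rw [Fin.sum_univ_succ]
        simp only [Fin.cons_zero, Fin.cons_succ, LinearMap.comp_apply]
        rw [← hyb _ (hπU y hy), hπ]
        abel
      · intro j k
        refine Fin.cases ?_ (fun j => ?_) j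
        · refine Fin.cases ?_ (fun k => ?_) k
          · simpa using hηu
          · have : η i0 (b k) = 0 := (hbU k).2
            simpa [Fin.ext_iff] using this
        · refine Fin.cases ?_ (fun k => ?_) k
          · simp [hπu, Fin.ext_iff]
          · simp only [Fin.cons_succ, LinearMap.comp_apply, hπ1 _ (hbU k), hcb,
              Fin.succ_inj]
      · intro y hy
        constructor
        · intro h j
          refine Fin.cases ?_ (fun j => ?_) j
          · simpa using h i0
          · simp only [Fin.cons_succ, LinearMap.comp_apply]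
            refine (hM _ (hπU y hy)).mp (fun i => ?_) j
            rw [hπ, map_sub, map_smul, smul_eq_mul]
            refine (v.map_sub _ _).trans (max_le (h i) ?_)
            rw [map_mul]
            exact mul_le_one' (h i0) (huM i)
        · intro h i
          have h0 : v (η i0 y) ≤ 1 := by simpa using h 0
          have h1 : ∀ i, v (η i (π y)) ≤ 1 :=
            (hM _ (hπU y hy)).mpr (fun j => by simpa using h j.succ)
          have h2 : η i y = η i (π y) + η i0 y * η i u := by
            rw [hπ, map_sub, map_smul, smul_eq_mul]; ring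
          rw [h2]
          refine (v.map_add _ _).trans (max_le (h1 i) ?_)
          rw [map_mul]
          exact mul_le_one' h0 (huM i)

/-- A functional attains its maximal value on the lattice in `U`. -/
theorem exists_maximizer {ι : Type*} [Finite ι] (v : Valuation ℂ Γ₀)
    (η : ι → V →ₗ[ℂ] ℂ) (U : Submodule ℂ V) [FiniteDimensional ℂ U]
    (hsep : ∀ y ∈ U, (∀ i, η i y = 0) → y = 0) (ξ : V →ₗ[ℂ] ℂ) :
    ∃ w ∈ U, (∀ i, v (η i w) ≤ 1) ∧ ∀ y ∈ U, (∀ i, v (η i y) ≤ 1) → v (ξ y) ≤ v (ξ w) := by
  obtain ⟨n, b, c, hbU, hyb, hcb, hM⟩ := exists_integral_basis v η (finrank ℂ U) U le_rfl hsep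
  rcases Nat.eq_zero_or_pos n with rfl | hn
  · refine ⟨0, U.zero_mem, by simp, fun y hy _ => ?_⟩
    have : y = 0 := by simpa using hyb y hy
    simp [this]
  · have : Nonempty (Fin n) := ⟨⟨0, hn⟩⟩
    obtain ⟨j, hj⟩ := Finite.exists_max (fun j : Fin n => v (ξ (b j)))
    refine ⟨b j, hbU j, (hM _ (hbU j)).mpr (fun k => ?_), fun y hy hyM => ?_⟩
    · rw [hcb]
      split_ifs <;> simp
    · have h1 : ξ y = ∑ k, c k y * ξ (b k) := by
        conv_lhs => rw [hyb y hy]
        simp
      rw [h1]
      refine val_sum_le v _ _ _ (fun k _ => ?_)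
      rw [map_mul]
      calc v (c k y) * v (ξ (b k)) ≤ 1 * v (ξ (b j)) :=
            mul_le_mul' ((hM y hy).mp hyM k) (hj k)
        _ = _ := one_mul _

end IntegralBasis

section DoubleCoset

variable {G : Type*} [Group G]
variable {Γ₀ : Type*} [LinearOrderedCommGroupWithZero Γ₀]

theorem card_orbit_coset [Finite G] (D : Subgroup G) (g : G) :
    Nat.card (MulAction.orbit D (g : G ⧸ D)) = (MulAut.conj g • D).relIndex D := by
  rw [Nat.card_coe_set_eq, ← MulAction.index_stabilizer, Subgroup.relIndex]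
  congr 1
  ext d
  rw [MulAction.mem_stabilizer_iff, Subgroup.mem_subgroupOf,
    Subgroup.mem_pointwise_smul_iff_inv_smul_mem]
  have h1 : (d • (g : G ⧸ D)) = (((d : G) * g : G) : G ⧸ D) := rfl
  rw [h1, QuotientGroup.eq, ← map_inv, MulAut.smul_def, MulAut.conj_apply, inv_inv]
  constructor
  · intro h
    have := D.inv_mem h
    simpa [mul_assoc] using this
  · intro h
    have := D.inv_mem h
    simpa [mul_assoc] using this

/-- Ultrametric estimate for the sum of a bi-invariant function. -/
theorem val_sum_biinvariant_le [Fintype G] (v : Valuation ℂ Γ₀) (D : Subgroup G) (F : G → ℂ)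
    (hr : ∀ g : G, ∀ d ∈ D, F (g * d) = F g) (hl : ∀ g : G, ∀ d ∈ D, F (d * g) = F g) (c : Γ₀)
    (hc : ∀ g : G, v ((MulAut.conj g • D).relIndex D : ℂ) * v (F g) ≤ c) :
    v (∑ g : G, F g) ≤ v (Nat.card D : ℂ) * c := by
  classical
  have : Fintype (G ⧸ D) := Fintype.ofFinite _
  have : Fintype (MulAction.orbitRel.Quotient D (G ⧸ D)) := Fintype.ofFinite _
  rw [sum_eq_card_mul_sum_quotient D F hr, map_mul]
  gcongr
  have hF : ∀ g h : G, (g : G ⧸ D) = (h : G ⧸ D) → F g = F h := by
    intro g h hgh
    have h1 : g⁻¹ * h ∈ D := QuotientGroup.eq.mp hgh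
    have h2 := hr g _ h1
    rw [mul_inv_cancel_left] at h2
    exact h2.symm
  have h1 : ∑ q : G ⧸ D, F q.out = ∑ ω : MulAction.orbitRel.Quotient D (G ⧸ D),
      ∑ q ∈ univ.filter (fun q : G ⧸ D => (Quotient.mk'' q :
        MulAction.orbitRel.Quotient D (G ⧸ D)) = ω), F q.out := by
    rw [Finset.sum_fiberwise]
  rw [h1]
  refine val_sum_le v _ _ _ (fun ω _ => ?_)
  obtain ⟨q0, rfl⟩ := Quotient.exists_rep ω
  have h2 : ∀ q ∈ univ.filter (fun q : G ⧸ D => (Quotient.mk'' q :
      MulAction.orbitRel.Quotient D (G ⧸ D)) = Quotient.mk _ q0), F q.out = F q0.out := by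
    intro q hq
    rw [Finset.mem_filter] at hq
    have h3 : q ∈ MulAction.orbit D q0 := MulAction.orbitRel_apply.mp (Quotient.exact hq.2)
    obtain ⟨d, hd⟩ := h3
    have h4 : F (d * q0.out) = F q0.out := hl _ _ d.2
    rw [← h4]
    apply hF
    have h5 : ((q.out : G) : G ⧸ D) = q := Quotient.out_eq q
    have h6 : (((d : G) * q0.out : G) : G ⧸ D) = d • ((q0.out : G) : G ⧸ D) := rfl
    have h7 : ((q0.out : G) : G ⧸ D) = q0 := Quotient.out_eq q0
    rw [h5, h6, h7]
    exact hd.symm
  rw [Finset.sum_congr rfl h2, Finset.sum_const, nsmul_eq_mul, map_mul]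
  have h8 : ((univ.filter (fun q : G ⧸ D => (Quotient.mk'' q :
      MulAction.orbitRel.Quotient D (G ⧸ D)) = Quotient.mk _ q0)).card : ℂ) =
      ((MulAut.conj q0.out • D).relIndex D : ℂ) := by
    rw [← card_orbit_coset]
    have h7 : ((q0.out : G) : G ⧸ D) = q0 := Quotient.out_eq q0
    rw [h7, ← Set.ncard_coe_finset, Nat.card_coe_set_eq]
    congr 2
    ext q
    simp only [Finset.coe_filter, Finset.mem_univ, true_and, Set.mem_ofPred_eq]
    rw [← MulAction.orbitRel_apply]
    exact ⟨fun h => Quotient.exact h, fun h => Quotient.sound h⟩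
  rw [h8]
  exact hc _

end DoubleCoset

end Pool.Agent.H.MP_7d3ffc_al
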