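import Mathlib
import Pool.Agent.H.MP_7d3ffc_al.Basis

/-!
Theorem B: a lower bound for the number of linear constituents, in terms of double cosets.
-/

namespace Pool.Agent.H.MP_7d3ffc_al

open Finset Module
open scoped Pointwise

variable {G : Type*} [Group G] {V : Type*} [AddCommGroup V] [Module ℂ V]
variable {Γ₀ : Type*} [LinearOrderedCommGroupWithZero Γ₀]

/-- The subspace of `K`-fixed vectors. -/
def fixedSub (ρ : Representation ℂ G V) (K : Subgroup G) : Submodule ℂ V where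
  carrier := {y | ∀ k ∈ K, ρ k y = y}
  zero_mem' := fun k _ => by simp
  add_mem' := fun {a b} ha hb k hk => by rw [map_add, ha k hk, hb k hk]
  smul_mem' := fun c x hx k hk => by rw [map_smul, hx k hk]

theorem mem_fixedSub {ρ : Representation ℂ G V} {K : Subgroup G} {y : V} :
    y ∈ fixedSub ρ K ↔ ∀ k ∈ K, ρ k y = y := Iff.rfl

/-- A linear character of `P` is trivial on the commutator subgroup. -/
theorem lin_commutator (P : Subgroup G) (lam : P →* ℂˣ) (k : G) (hk : k ∈ ⁅P, P⁆) (hkP : k ∈ P) :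
    lam ⟨k, hkP⟩ = 1 := by
  have hKmap : ⁅P, P⁆ = (commutator P).map P.subtype := (Subgroup.map_subtype_commutator P).symm
  have hk2 : (⟨k, hkP⟩ : P) ∈ commutator P := by
    have h5 : k ∈ (commutator P).map P.subtype := hKmap ▸ hk
    obtain ⟨z, hz, hz2⟩ := h5
    have : z = ⟨k, hkP⟩ := Subtype.ext hz2
    exact this ▸ hz
  exact Abelianization.commutator_subset_ker lam hk2

/-- Normalization of an equivariant functional with respect to a lattice. -/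
theorem exists_normalized [Finite G] [FiniteDimensional ℂ V] (v : Valuation ℂ Γ₀)
    (ρ : Representation ℂ G V) (hρ : ρ.IsIrreducible) (η : V →ₗ[ℂ] ℂ) (hη : η ≠ 0)
    (K : Subgroup G) (ξ : V →ₗ[ℂ] ℂ) (y : V) (hyK : y ∈ fixedSub ρ K) (hy : ξ y ≠ 0) :
    ∃ w ∈ fixedSub ρ K, w ∈ latticeOf v ρ η ∧ ξ w ≠ 0 ∧
      ∀ z ∈ fixedSub ρ K, z ∈ latticeOf v ρ η → v (ξ z) ≤ v (ξ w) := by
  classical
  have hsep : ∀ z ∈ fixedSub ρ K, (∀ g : G, (η ∘ₗ ρ g) z = 0) → z = 0 := by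
    intro z _ hz
    by_contra hz0
    obtain ⟨g, hg⟩ := exists_ne_zero ρ hρ η hη z hz0
    exact hg (hz g)
  obtain ⟨w, hwK, hwM, hmax⟩ :=
    exists_maximizer v (fun g : G => η ∘ₗ ρ g) (fixedSub ρ K) hsep ξ
  refine ⟨w, hwK, hwM, ?_, hmax⟩
  -- a nonzero multiple of `y` lies in the lattice
  have hy0 : y ≠ 0 := by rintro rfl; simp at hy
  obtain ⟨g1, hg1⟩ := exists_ne_zero ρ hρ η hη y hy0
  obtain ⟨g0, hg0⟩ := Finite.exists_max (fun g : G => v (η (ρ g y)))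
  have hg0ne : η (ρ g0 y) ≠ 0 := by
    intro h
    have := hg0 g1
    rw [h, map_zero, le_zero_iff, map_eq_zero] at this
    exact hg1 this
  have h1 : (η (ρ g0 y))⁻¹ • y ∈ latticeOf v ρ η := by
    intro g
    rw [map_smul, map_smul, smul_eq_mul, map_mul, map_inv₀]
    have hpos : 0 < v (η (ρ g0 y)) := by rw [Valuation.pos_iff]; exact hg0ne
    rw [inv_mul_le_iff₀ hpos, mul_one]
    exact hg0 g
  have h2 := hmax _ ((fixedSub ρ K).smul_mem (η (ρ g0 y))⁻¹ hyK) h1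
  intro h3
  rw [h3, map_zero, le_zero_iff, map_eq_zero, map_smul, smul_eq_mul] at h2
  exact mul_ne_zero (inv_ne_zero hg0ne) hy h2

/-- Integrality of matrix coefficients via averaging. -/
theorem relIndex_bound [Finite G] (v : Valuation ℂ Γ₀) (ρ : Representation ℂ G V)
    (M : Set V) (hM : IsLattice v ρ M) (K H : Subgroup G) (ξ : V →ₗ[ℂ] ℂ)
    (hξK : ∀ k ∈ K, ∀ z, ξ (ρ k z) = ξ z) (hξM : ∀ z ∈ fixedSub ρ K, z ∈ M → v (ξ z) ≤ 1)
    (y : V) (hyM : y ∈ M) (hy : ∀ d ∈ K ⊓ H, ∃ s : ℂ, ρ d y = s • y) :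
    v (H.relIndex K : ℂ) * v (ξ y) ≤ 1 := by
  classical
  by_cases h0 : ξ y = 0
  · rw [h0, map_zero, mul_zero]
    exact zero_le
  · have hy1 : ∀ d ∈ K ⊓ H, ρ d y = y := by
      intro d hd
      obtain ⟨s, hs⟩ := hy d hd
      have h1 := hξK d hd.1 y
      rw [hs, map_smul, smul_eq_mul] at h1
      have h2 : s = 1 := by
        have h3 : (s - 1) * ξ y = 0 := by rw [sub_mul, h1, one_mul, sub_self]
        rcases mul_eq_zero.mp h3 with h | h
        · exact sub_eq_zero.mp h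
        · exact absurd h h0
      rw [hs, h2, one_smul]
    obtain ⟨u, huM, huK, huξ⟩ := exists_average v ρ K H y hy1
    rw [← map_mul, ← huξ ξ hξK]
    exact hξM u huK (huM M hM hyM)

/-- An eigenvector of `P`, translated by `g`, is an eigenvector of `gPg⁻¹`. -/
theorem eigen_conj (ρ : Representation ℂ G V) (P : Subgroup G) (lam : P →* ℂˣ) (w : V)
    (hw : ∀ x : P, ρ (x : G) w = ((lam x : ℂˣ) : ℂ) • w) (g d : G) (hd : d ∈ MulAut.conj g • P) :
    ∃ s : ℂ, ρ d (ρ g w) = s • ρ g w := by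
  obtain ⟨h, hh, hd⟩ := (Subgroup.mem_smul_pointwise_iff_exists _ _ _).mp hd
  have e0 : d = g * h * g⁻¹ := by rw [← hd, MulAut.smul_def, MulAut.conj_apply]
  refine ⟨((lam ⟨h, hh⟩ : ℂˣ) : ℂ), ?_⟩
  rw [e0, ← Module.End.mul_apply, ← map_mul, inv_mul_cancel_right, map_mul, Module.End.mul_apply,
    hw ⟨h, hh⟩, map_smul]

/-- Theorem B. -/
theorem theoremB [Finite G] [FiniteDimensional ℂ V] {p : ℕ} [Fact p.Prime]
    (P : Subgroup G) (hP : IsPGroup p P) (ρ : Representation ℂ G V) (hρ : ρ.IsIrreducible)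
    (β : ℕ)
    (hβ : ∀ g : G, (MulAut.conj g • P).relIndex ⁅P, P⁆ * (MulAut.conj g⁻¹ • P).relIndex ⁅P, P⁆ ∣
      p ^ β * (MulAut.conj g • P).relIndex P)
    (hne : (Lin ρ P).Nonempty) :
    (p - 1) * padicValNat p (finrank ℂ V) + 2 ≤
      2 * (Lin ρ P).ncard + (p - 1) * (β + padicValNat p P.index) := by
  classical
  have hp : p.Prime := Fact.out
  have : Fintype G := Fintype.ofFinite _
  obtain ⟨B, hB⟩ := exists_valuation p hp
  set v := B.valuation with hvdef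
  have : Fintype (P →* ℂˣ) := Fintype.ofFinite _
  obtain ⟨lam, hlam⟩ := hne
  obtain ⟨y, hy0, hy⟩ := (mem_Lin_iff ρ _ lam).mp hlam
  obtain ⟨ξ0, hξ0, hξy⟩ := exists_funEquiv ρ _ lam y hy0 hy
  have hξ0ne : ξ0 ≠ 0 := by
    rintro rfl
    simp at hξy
  set K : Subgroup G := ⁅P, P⁆ with hK
  have hKP : K ≤ P := Subgroup.commutator_le_self _
  have hyK : y ∈ fixedSub ρ K := by
    intro k hk
    rw [hy ⟨k, hKP hk⟩, lin_commutator P lam k hk (hKP hk), Units.val_one, one_smul]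
  obtain ⟨w1, hw1K, hw1M, hw1ne, hmax⟩ :=
    exists_normalized v ρ hρ ξ0 hξ0ne K ξ0 y hyK (by rw [hξy]; exact one_ne_zero)
  set M := latticeOf v ρ ξ0 with hMdef
  have hML : IsLattice v ρ M := isLattice_latticeOf v ρ ξ0
  -- rescale
  set ξ : V →ₗ[ℂ] ℂ := (ξ0 w1)⁻¹ • ξ0 with hξdef
  have hξ : FunEquiv ρ P lam ξ := by
    intro x z
    simp only [hξdef, LinearMap.smul_apply, smul_eq_mul, hξ0 x z]
    ring
  have hξw1 : ξ w1 = 1 := by
    simp only [hξdef, LinearMap.smul_apply, smul_eq_mul]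
    exact inv_mul_cancel₀ hw1ne
  have hξM : ∀ z ∈ fixedSub ρ K, z ∈ M → v (ξ z) ≤ 1 := by
    intro z hzK hzM
    simp only [hξdef, LinearMap.smul_apply, smul_eq_mul, map_mul, map_inv₀]
    have hpos : 0 < v (ξ0 w1) := by rw [Valuation.pos_iff]; exact hw1ne
    rw [inv_mul_le_iff₀ hpos, mul_one]
    exact hmax z hzK hzM
  have hξK : ∀ k ∈ K, ∀ z, ξ (ρ k z) = ξ z := by
    intro k hk z
    have := hξ ⟨k, hKP hk⟩ z
    rw [lin_commutator P lam k hk (hKP hk)] at this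
    simpa using this
  -- killing operator
  obtain ⟨D, c, hDM, hD, hcT, hDξ, hcv⟩ := exists_kill hp v ρ P hP lam
    ((Lin ρ P).toFinset.erase lam) (Finset.notMem_erase _ _)
  set w : V := D w1 with hwdef
  have hweig : ∀ x : P, ρ (x : G) w = ((lam x : ℂˣ) : ℂ) • w := by
    refine kill_eigen ρ P lam D c hD ?_ w1 ?_
    · intro ν hν hne
      exact hcT ν (Finset.mem_erase.mpr ⟨hne, Set.mem_toFinset.mpr hν⟩)
    · intro x hx
      refine hw1K _ ?_
      rw [hK, ← Subgroup.map_subtype_commutator P]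
      exact ⟨x, hx, rfl⟩
  have hwM : w ∈ M := hDM _ hML _ hw1M
  have hξw : ξ w = c lam := by rw [hwdef, hDξ lam ξ hξ, hξw1, mul_one]
  -- Schur relation
  obtain ⟨C, hC, hC2⟩ := schur_rank_one ρ hρ ξ w
  let F : G → ℂ := fun g => ξ (ρ g⁻¹ w) * ξ (ρ g w)
  have hsum : ∑ g : G, F g = C * ξ w := by
    have h2 := congrArg ξ (hC w)
    simp only [map_sum, map_smul, smul_eq_mul] at h2
    exact h2
  have hinv : ∀ x : P, (((lam x)⁻¹ : ℂˣ) : ℂ) * ((lam x : ℂˣ) : ℂ) = 1 := by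
    intro x
    rw [← Units.val_mul, inv_mul_cancel, Units.val_one]
  have hr : ∀ g : G, ∀ d ∈ P, F (g * d) = F g := by
    intro g d hd
    have e1 : ξ (ρ (g * d) w) = ((lam ⟨d, hd⟩ : ℂˣ) : ℂ) * ξ (ρ g w) := by
      rw [map_mul, Module.End.mul_apply, hweig ⟨d, hd⟩, map_smul, map_smul, smul_eq_mul]
    have e2 : ξ (ρ (g * d)⁻¹ w) = (((lam ⟨d, hd⟩)⁻¹ : ℂˣ) : ℂ) * ξ (ρ g⁻¹ w) := by
      rw [mul_inv_rev, map_mul, Module.End.mul_apply]
      have := hξ (⟨d, hd⟩⁻¹) (ρ g⁻¹ w)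
      simpa using this
    calc F (g * d) = ((((lam ⟨d, hd⟩)⁻¹ : ℂˣ) : ℂ) * ((lam ⟨d, hd⟩ : ℂˣ) : ℂ)) * F g := by
          simp only [F, e1, e2]; ring
      _ = F g := by rw [hinv, one_mul]
  have hl : ∀ g : G, ∀ d ∈ P, F (d * g) = F g := by
    intro g d hd
    have e1 : ξ (ρ (d * g) w) = ((lam ⟨d, hd⟩ : ℂˣ) : ℂ) * ξ (ρ g w) := by
      rw [map_mul, Module.End.mul_apply]
      exact hξ ⟨d, hd⟩ (ρ g w)
    have e2 : ξ (ρ (d * g)⁻¹ w) = (((lam ⟨d, hd⟩)⁻¹ : ℂˣ) : ℂ) * ξ (ρ g⁻¹ w) := by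
      have h3 : ρ d⁻¹ w = (((lam ⟨d, hd⟩)⁻¹ : ℂˣ) : ℂ) • w := by
        have := hweig (⟨d, hd⟩⁻¹)
        simpa using this
      rw [mul_inv_rev, map_mul, Module.End.mul_apply, h3, map_smul, map_smul, smul_eq_mul]
    calc F (d * g) = ((((lam ⟨d, hd⟩)⁻¹ : ℂˣ) : ℂ) * ((lam ⟨d, hd⟩ : ℂˣ) : ℂ)) * F g := by
          simp only [F, e1, e2]; ring
      _ = F g := by rw [hinv, one_mul]
  have hcoef : ∀ g : G, v ((MulAut.conj g • P).relIndex K : ℂ) * v (ξ (ρ g w)) ≤ 1 := by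
    intro g
    refine relIndex_bound v ρ M hML K _ ξ hξK hξM (ρ g w) (hML.rho_mem _ _ hwM) ?_
    intro d hd
    exact eigen_conj ρ P lam w hweig g d hd.2
  have hp0 : (0 : B.ValueGroup) < v (p : ℂ) := by
    rw [Valuation.pos_iff]
    exact Nat.cast_ne_zero.mpr hp.ne_zero
  have hbound : v (∑ g : G, F g) ≤ v (Nat.card P : ℂ) * (v (p : ℂ) ^ β)⁻¹ := by
    refine val_sum_biinvariant_le v P F hr hl _ (fun g => ?_)
    obtain ⟨m, hm⟩ := hβ g
    have hpos : 0 < v (p : ℂ) ^ β := pow_pos hp0 β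
    rw [← mul_one ((v (p : ℂ) ^ β)⁻¹), ← inv_mul_le_iff₀ (inv_pos.mpr hpos), inv_inv]
    have h1 : v (p : ℂ) ^ β * v ((MulAut.conj g • P).relIndex P : ℂ) ≤
        v ((MulAut.conj g • P).relIndex K : ℂ) * v ((MulAut.conj g⁻¹ • P).relIndex K : ℂ) := by
      rw [← map_pow, ← map_mul, ← map_mul]
      have h2 : ((p : ℂ) ^ β * ((MulAut.conj g • P).relIndex P : ℂ)) =
          (((MulAut.conj g • P).relIndex K : ℂ) * ((MulAut.conj g⁻¹ • P).relIndex K : ℂ)) *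
            (m : ℂ) := by
        exact_mod_cast hm
      rw [h2, map_mul]
      calc _ ≤ v (((MulAut.conj g • P).relIndex K : ℂ) *
            ((MulAut.conj g⁻¹ • P).relIndex K : ℂ)) * 1 := by
            gcongr; exact val_natCast_le v m
        _ = _ := mul_one _
    calc v (p : ℂ) ^ β * (v ((MulAut.conj g • P).relIndex P : ℂ) * v (F g))
        = (v (p : ℂ) ^ β * v ((MulAut.conj g • P).relIndex P : ℂ)) * v (F g) := by
          rw [mul_assoc]
      _ ≤ (v ((MulAut.conj g • P).relIndex K : ℂ) *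
          v ((MulAut.conj g⁻¹ • P).relIndex K : ℂ)) * v (F g) := by gcongr
      _ = (v ((MulAut.conj g⁻¹ • P).relIndex K : ℂ) * v (ξ (ρ g⁻¹ w))) *
          (v ((MulAut.conj g • P).relIndex K : ℂ) * v (ξ (ρ g w))) := by
          simp only [F, map_mul]
          rw [mul_comm (v ((MulAut.conj g • P).relIndex K : ℂ)), mul_mul_mul_comm]
      _ ≤ 1 := mul_le_one' (hcoef g⁻¹) (hcoef g)
  -- conclusion
  have hcard : v (Nat.card G : ℂ) = v (Nat.card P : ℂ) * v (P.index : ℂ) := by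
    rw [← map_mul, ← Nat.cast_mul]
    congr 2
    exact (Subgroup.card_mul_index P).symm
  have hP0 : (0 : B.ValueGroup) < v (Nat.card P : ℂ) := by
    rw [Valuation.pos_iff]
    exact Nat.cast_ne_zero.mpr Nat.card_pos.ne'
  have hmain : v (p : ℂ) ^ β * (v (P.index : ℂ) * v (c lam) ^ 2) ≤ v (finrank ℂ V : ℂ) := by
    have h1 : v (Nat.card P : ℂ) * (v (P.index : ℂ) * v (c lam) ^ 2) =
        v (∑ g : G, F g) * v (finrank ℂ V : ℂ) := by
      calc v (Nat.card P : ℂ) * (v (P.index : ℂ) * v (c lam) ^ 2)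
          = v (Nat.card G : ℂ) * (v (ξ w) * v (ξ w)) := by
            rw [hcard, hξw, pow_two]; simp only [mul_assoc]
        _ = v ((Nat.card G : ℂ) * ξ w * ξ w) := by rw [map_mul, map_mul, mul_assoc]
        _ = v ((∑ g : G, F g) * (finrank ℂ V : ℂ)) := by
            rw [hsum, ← hC2]; congr 1; ring
        _ = _ := map_mul _ _ _
    have h2 : v (Nat.card P : ℂ) * (v (P.index : ℂ) * v (c lam) ^ 2) ≤
        v (Nat.card P : ℂ) * ((v (p : ℂ) ^ β)⁻¹ * v (finrank ℂ V : ℂ)) := by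
      rw [h1, ← mul_assoc]
      gcongr
    have h3 := le_of_mul_le_mul_left h2 hP0
    rwa [le_inv_mul_iff₀ (pow_pos hp0 β)] at h3
  have hdeg0 : finrank ℂ V ≠ 0 := by
    intro h
    have : Subsingleton V := (finrank_zero_iff (R := ℂ) (M := V)).mp h
    exact hy0 (Subsingleton.elim _ _)
  have hdeg : v (finrank ℂ V : ℂ) = v (p : ℂ) ^ padicValNat p (finrank ℂ V) :=
    val_natCast hp v hB _ hdeg0
  have hidx : v (P.index : ℂ) = v (p : ℂ) ^ padicValNat p P.index :=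
    val_natCast hp v hB _ Subgroup.index_ne_zero_of_finite
  have hT : ((Lin ρ P).toFinset.erase lam).card = (Lin ρ P).ncard - 1 := by
    rw [Finset.card_erase_of_mem (Set.mem_toFinset.mpr hlam), Set.ncard_eq_toFinset_card']
  have hpos : 0 < (Lin ρ P).ncard := (Set.ncard_pos (Set.toFinite _)).mpr ⟨lam, hlam⟩
  set i := padicValNat p P.index with hi
  have hfinal : v (p : ℂ) ^ (β * (p - 1) + (i * (p - 1) + ((Lin ρ P).ncard - 1) * 2)) ≤
      v (p : ℂ) ^ (padicValNat p (finrank ℂ V) * (p - 1)) := by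
    calc v (p : ℂ) ^ (β * (p - 1) + (i * (p - 1) + ((Lin ρ P).ncard - 1) * 2))
        = (v (p : ℂ) ^ β) ^ (p - 1) * ((v (p : ℂ) ^ i) ^ (p - 1) *
          (v (p : ℂ) ^ ((Lin ρ P).toFinset.erase lam).card) ^ 2) := by
          rw [pow_add, pow_add, pow_mul, pow_mul, pow_mul, hT]
      _ ≤ (v (p : ℂ) ^ β) ^ (p - 1) * ((v (p : ℂ) ^ i) ^ (p - 1) *
          (v (c lam) ^ (p - 1)) ^ 2) := by gcongr
      _ = (v (p : ℂ) ^ β * (v (P.index : ℂ) * v (c lam) ^ 2)) ^ (p - 1) := by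
          rw [mul_pow, mul_pow, hidx, pow_right_comm (v (c lam)) 2 (p - 1)]
      _ ≤ v (finrank ℂ V : ℂ) ^ (p - 1) := by gcongr
      _ = v (p : ℂ) ^ (padicValNat p (finrank ℂ V) * (p - 1)) := by rw [hdeg, pow_mul]
  have hexp : padicValNat p (finrank ℂ V) * (p - 1) ≤
      β * (p - 1) + (i * (p - 1) + ((Lin ρ P).ncard - 1) * 2) :=
    (pow_le_pow_iff_right_of_lt_one₀ hp0 hB).mp hfinal
  rw [mul_add, mul_comm (p - 1), mul_comm (p - 1) β, mul_comm (p - 1) i]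
  omega

end Pool.Agent.H.MP_7d3ffc_al
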