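import Mathlib
import Pool.Agent.H.MP_7d3ffc_al.ThmB

/-!
Integrality of traces of averages of equivariant operators on the fixed space of `P'`.
-/

namespace Pool.Agent.H.MP_7d3ffc_al

open Finset Module
open scoped Pointwise commutatorElement

variable {G : Type*} [Group G] {V : Type*} [AddCommGroup V] [Module ℂ V]
variable {Γ₀ : Type*} [LinearOrderedCommGroupWithZero Γ₀]

/-- Schur's relation for the average of an operator. -/
theorem schur_general [Fintype G] [FiniteDimensional ℂ V] (ρ : Representation ℂ G V)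
    (hρ : ρ.IsIrreducible) (f : V →ₗ[ℂ] V) :
    ∃ c : ℂ, (∑ g : G, ρ g ∘ₗ f ∘ₗ ρ g⁻¹ = c • LinearMap.id) ∧
      c * (finrank ℂ V : ℂ) = (Nat.card G : ℂ) * LinearMap.trace ℂ V f := by
  classical
  let F : V →ₗ[ℂ] V := ∑ g : G, ρ g ∘ₗ f ∘ₗ ρ g⁻¹
  have hFx : ∀ x : V, F x = ∑ g : G, ρ g (f (ρ g⁻¹ x)) := by
    intro x
    simp [F, LinearMap.sum_apply]
  have hcomm : ∀ (h : G) (x : V), F (ρ h x) = ρ h (F x) := by
    intro h x
    rw [hFx, hFx, map_sum]
    refine Fintype.sum_equiv (Equiv.mulLeft h⁻¹) _ _ (fun g => ?_)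
    simp only [Equiv.coe_mulLeft, mul_inv_rev, inv_inv, map_mul, Module.End.mul_apply,
      Representation.self_inv_apply]
  let Φ : Representation.IntertwiningMap ρ ρ :=
    F.intertwiningMap_of_isIntertwiningMap ρ ρ hcomm
  obtain ⟨c, hc⟩ :=
    (Representation.IsIrreducible.algebraMap_intertwiningMap_bijective_of_isAlgClosed
      (ρ := ρ)).2 Φ
  have hc' : ∀ x : V, F x = c • x := by
    intro x
    have h1 : Φ x = F x := rfl
    rw [← h1, ← hc]
    rfl
  have hF2 : F = c • LinearMap.id := by ext x; simp [hc']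
  refine ⟨c, hF2, ?_⟩
  have htr : LinearMap.trace ℂ V F = (Nat.card G : ℂ) * LinearMap.trace ℂ V f := by
    have h1 : ∀ g : G, LinearMap.trace ℂ V (ρ g ∘ₗ f ∘ₗ ρ g⁻¹) = LinearMap.trace ℂ V f := by
      intro g
      rw [LinearMap.trace_comp_comm', LinearMap.comp_assoc, ← Module.End.mul_eq_comp (ρ g⁻¹) (ρ g),
        ← map_mul, inv_mul_cancel, map_one, Module.End.one_eq_id, LinearMap.comp_id]
    simp only [F, map_sum, h1, Finset.sum_const, Finset.card_univ, nsmul_eq_mul,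
      Nat.card_eq_fintype_card]
  rw [hF2, map_smul, LinearMap.trace_id] at htr
  simpa using htr

/-- Operator version of the averaging estimate. -/
theorem relIndex_operator [Finite G] (v : Valuation ℂ Γ₀) (ρ : Representation ℂ G V)
    (M : Set V) (hM : IsLattice v ρ M) (K H : Subgroup G) (f : V →ₗ[ℂ] V)
    (hfK : ∀ k ∈ K, ∀ z, f (ρ k z) = f z) (hfM : ∀ z ∈ fixedSub ρ K, z ∈ M → f z ∈ M)
    (y : V) (hyM : y ∈ M) (hy : ∀ d ∈ K ⊓ H, ∃ s : ℂ, ρ d y = s • y) :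
    (H.relIndex K : ℂ) • f y ∈ M := by
  classical
  by_cases h0 : f y = 0
  · rw [h0, smul_zero]
    exact hM.zero_mem
  · have hy1 : ∀ d ∈ K ⊓ H, ρ d y = y := by
      intro d hd
      obtain ⟨s, hs⟩ := hy d hd
      have h1 := hfK d hd.1 y
      rw [hs, map_smul] at h1
      have h2 : s = 1 := by
        have h3 : (s - 1) • f y = 0 := by rw [sub_smul, h1, one_smul, sub_self]
        rcases smul_eq_zero.mp h3 with h | h
        · exact sub_eq_zero.mp h
        · exact absurd h h0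
      rw [hs, h2, one_smul]
    obtain ⟨u, huM, huK, huξ⟩ := exists_average v ρ K H y hy1
    have h4 : f u = (H.relIndex K : ℂ) • f y := by
      rw [← sub_eq_zero, ← Module.forall_dual_apply_eq_zero_iff ℂ]
      intro φ
      have h5 := huξ (φ ∘ₗ f) (fun k hk z => by
        rw [LinearMap.comp_apply, LinearMap.comp_apply, hfK k hk z])
      rw [LinearMap.comp_apply, LinearMap.comp_apply] at h5
      rw [map_sub, map_smul, smul_eq_mul, h5, sub_self]
    rw [← h4]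
    exact hfM u huK (huM M hM hyM)

/-- The subspace of `K`-fixed vectors on which `R` acts by the linear character `δ`. -/
def eigSub (ρ : Representation ℂ G V) (K R : Subgroup G) (δ : R →* ℂˣ) : Submodule ℂ V where
  carrier := {y | (∀ k ∈ K, ρ k y = y) ∧ ∀ r : R, ρ (r : G) y = ((δ r : ℂˣ) : ℂ) • y}
  zero_mem' := ⟨fun k _ => by simp, fun r => by simp⟩
  add_mem' := fun {a b} ha hb => ⟨fun k hk => by rw [map_add, ha.1 k hk, hb.1 k hk],
    fun r => by rw [map_add, ha.2 r, hb.2 r, smul_add]⟩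
  smul_mem' := fun c x hx => ⟨fun k hk => by rw [map_smul, hx.1 k hk],
    fun r => by rw [map_smul, hx.2 r, smul_comm]⟩

/-- Integrality of the trace of `ρ(g) f ρ(g)⁻¹ f`. -/
theorem val_trace_le [Finite G] [FiniteDimensional ℂ V] (v : Valuation ℂ Γ₀)
    (ρ : Representation ℂ G V) (hρ : ρ.IsIrreducible) (η : V →ₗ[ℂ] ℂ) (hη : η ≠ 0)
    (P : Subgroup G) (f : V →ₗ[ℂ] V)
    (hfP : ∀ x ∈ P, ∀ z, f (ρ x z) = ρ x (f z))
    (hfK : ∀ z, f z ∈ fixedSub ρ ⁅P, P⁆)
    (hfM : ∀ z ∈ fixedSub ρ ⁅P, P⁆, z ∈ latticeOf v ρ η → f z ∈ latticeOf v ρ η) (g : G) :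
    v ((MulAut.conj g • P).relIndex ⁅P, P⁆ : ℂ) * v ((MulAut.conj g⁻¹ • P).relIndex ⁅P, P⁆ : ℂ) *
      v (LinearMap.trace ℂ V (ρ g ∘ₗ f ∘ₗ ρ g⁻¹ ∘ₗ f)) ≤ 1 := by
  classical
  set K : Subgroup G := ⁅P, P⁆ with hK
  set M := latticeOf v ρ η with hMdef
  have hML : IsLattice v ρ M := isLattice_latticeOf v ρ η
  have hKP : K ≤ P := Subgroup.commutator_le_self _
  have hfK' : ∀ k ∈ K, ∀ z, f (ρ k z) = f z := by
    intro k hk z
    rw [hfP k (hKP hk) z]
    exact hfK z k hk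
  set r1 : ℂ := ((MulAut.conj g • P).relIndex K : ℂ) with hr1
  set r2 : ℂ := ((MulAut.conj g⁻¹ • P).relIndex K : ℂ) with hr2
  set R : Subgroup G := P ⊓ (MulAut.conj g • P) with hR
  have : Fintype R := Fintype.ofFinite _
  have : Fintype (R →* ℂˣ) := Fintype.ofFinite _
  have hmem : ∀ (h d : G), d ∈ MulAut.conj h • P ↔ h⁻¹ * d * h ∈ P := by
    intro h d
    rw [Subgroup.mem_pointwise_smul_iff_inv_smul_mem, ← map_inv, MulAut.smul_def,
      MulAut.conj_apply, inv_inv]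
  let T : V →ₗ[ℂ] V := f ∘ₗ ρ g ∘ₗ f ∘ₗ ρ g⁻¹
  have htr : LinearMap.trace ℂ V (ρ g ∘ₗ f ∘ₗ ρ g⁻¹ ∘ₗ f) = LinearMap.trace ℂ V T := by
    have h1 : (ρ g ∘ₗ f ∘ₗ ρ g⁻¹ ∘ₗ f) = (ρ g ∘ₗ f ∘ₗ ρ g⁻¹) ∘ₗ f := rfl
    rw [h1, LinearMap.trace_comp_comm']
  rw [htr]
  -- decomposition of `T`
  have hT : T = ∑ δ : R →* ℂˣ, proj ρ R δ ∘ₗ T := by
    ext y
    rw [LinearMap.sum_apply]
    simp only [LinearMap.comp_apply]
    refine (sum_proj_eq ρ R (T y) ?_).symm
    intro x hx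
    refine hfK _ _ ?_
    have h1 : (x : G) ∈ (commutator R).map R.subtype := ⟨x, hx, rfl⟩
    rw [Subgroup.map_subtype_commutator] at h1
    exact Subgroup.commutator_mono inf_le_left inf_le_left h1
  rw [hT, map_sum]
  have hgoal : v (∑ δ : R →* ℂˣ, LinearMap.trace ℂ V (proj ρ R δ ∘ₗ T) * (r1 * r2)) ≤ 1 := by
    refine val_sum_le v _ _ _ (fun δ _ => ?_)
    -- integral basis
    have hsep : ∀ z ∈ eigSub ρ K R δ, (∀ h : G, (η ∘ₗ ρ h) z = 0) → z = 0 := by
      intro z _ hz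
      by_contra hz0
      obtain ⟨h, hh⟩ := exists_ne_zero ρ hρ η hη z hz0
      exact hh (hz h)
    obtain ⟨n, b, c, hbU, hyb, hcb, hbM⟩ := exists_integral_basis v (fun h : G => η ∘ₗ ρ h)
      (finrank ℂ (eigSub ρ K R δ)) (eigSub ρ K R δ) le_rfl hsep
    -- the projection maps `K`-fixed vectors to `eigSub`
    have hproj : ∀ y ∈ fixedSub ρ K, proj ρ R δ y ∈ eigSub ρ K R δ := by
      intro y hy
      refine ⟨fun k hk => ?_, fun r => rho_proj ρ R δ y r⟩
      rw [proj_apply, map_smul, map_sum]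
      congr 1
      refine Finset.sum_congr rfl (fun r _ => ?_)
      rw [map_smul]
      congr 1
      have hrP : (r : G) ∈ P := r.2.1
      have h1 : (r : G)⁻¹ * k * (r : G) ∈ K := by
        have h3 : (r : G)⁻¹ * k * (r : G) = ⁅(r : G)⁻¹, k⁆ * k := by
          rw [commutatorElement_def]; group
        rw [h3]
        exact K.mul_mem (Subgroup.commutator_mem_commutator (P.inv_mem hrP) (hKP hk)) hk
      have h4 : ρ k (ρ (r : G) y) = ρ (r : G) (ρ ((r : G)⁻¹ * k * (r : G)) y) := by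
        rw [← Module.End.mul_apply, ← Module.End.mul_apply, ← map_mul, ← map_mul]
        congr 2
        group
      rw [h4, hy _ h1]
    -- the trace
    have hS : ∀ y, (proj ρ R δ ∘ₗ T) y ∈ eigSub ρ K R δ := fun y => hproj _ (hfK _)
    have hSeq : proj ρ R δ ∘ₗ T = ∑ j, ((c j) ∘ₗ (proj ρ R δ ∘ₗ T)).smulRight (b j) := by
      ext y
      rw [LinearMap.sum_apply]
      simp only [LinearMap.smulRight_apply, LinearMap.comp_apply (c _)]
      exact hyb _ (hS y)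
    rw [hSeq, map_sum, Finset.sum_mul]
    refine val_sum_le v _ _ _ (fun j _ => ?_)
    rw [LinearMap.trace_smulRight]
    -- `T (b j)` is again in `eigSub`
    obtain ⟨hb1, hb2⟩ := hbU j
    have hconjR : ∀ r : R, g⁻¹ * (r : G) * g ∈ P := fun r => (hmem g r).mp r.2.2
    have hf1 : ∀ r : R, ρ (r : G) (ρ g (f (ρ g⁻¹ (b j)))) =
        ((δ r : ℂˣ) : ℂ) • ρ g (f (ρ g⁻¹ (b j))) := by
      intro r
      have h1 : ρ (r : G) (ρ g (f (ρ g⁻¹ (b j)))) =
          ρ g (ρ (g⁻¹ * (r : G) * g) (f (ρ g⁻¹ (b j)))) := by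
        generalize f (ρ g⁻¹ (b j)) = z
        rw [← Module.End.mul_apply, ← Module.End.mul_apply, ← map_mul, ← map_mul]
        congr 2
        group
      have h2 : ρ (g⁻¹ * (r : G) * g) (ρ g⁻¹ (b j)) = ρ g⁻¹ (ρ (r : G) (b j)) := by
        rw [← Module.End.mul_apply, ← Module.End.mul_apply, ← map_mul, ← map_mul]
        congr 2
        group
      rw [h1, ← hfP _ (hconjR r), h2, hb2 r, map_smul, map_smul, map_smul]
    have hTb : T (b j) ∈ eigSub ρ K R δ := by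
      refine ⟨hfK _, fun r => ?_⟩
      change ρ (r : G) (f (ρ g (f (ρ g⁻¹ (b j))))) = _
      rw [← hfP _ r.2.1, hf1 r, map_smul]
      rfl
    have hpTb : proj ρ R δ (T (b j)) = T (b j) := proj_eq_self ρ R δ _ hTb.2
    have hval : ((c j) ∘ₗ (proj ρ R δ ∘ₗ T)) (b j) = c j (T (b j)) := by
      rw [LinearMap.comp_apply, LinearMap.comp_apply, hpTb]
    rw [hval]
    -- integrality
    have hbjM : b j ∈ M := by
      intro h
      refine (hbM _ (hbU j)).mpr (fun k => ?_) h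
      rw [hcb]
      split_ifs <;> simp
    have hstep1 : r2 • f (ρ g⁻¹ (b j)) ∈ M := by
      refine relIndex_operator v ρ M hML K (MulAut.conj g⁻¹ • P) f hfK' hfM _
        (hML.rho_mem _ _ hbjM) ?_
      rintro d ⟨hdK, hdP⟩
      have hd1 : g * d * g⁻¹ ∈ P := by
        have := (hmem g⁻¹ d).mp hdP
        rwa [inv_inv] at this
      have hd2 : g * d * g⁻¹ ∈ R := by
        refine ⟨hd1, (hmem g _).mpr ?_⟩
        have : g⁻¹ * (g * d * g⁻¹) * g = d := by group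
        rw [this]
        exact hKP hdK
      refine ⟨((δ ⟨g * d * g⁻¹, hd2⟩ : ℂˣ) : ℂ), ?_⟩
      have h2 : ρ d (ρ g⁻¹ (b j)) = ρ g⁻¹ (ρ (g * d * g⁻¹) (b j)) := by
        rw [← Module.End.mul_apply, ← Module.End.mul_apply, ← map_mul, ← map_mul]
        congr 2
        group
      rw [h2, hb2 ⟨g * d * g⁻¹, hd2⟩, map_smul]
    have hstep2 : r1 • f (ρ g (r2 • f (ρ g⁻¹ (b j)))) ∈ M := by
      refine relIndex_operator v ρ M hML K (MulAut.conj g • P) f hfK' hfM _
        (hML.rho_mem _ _ hstep1) ?_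
      rintro d ⟨hdK, hdP⟩
      have hd2 : d ∈ R := ⟨hKP hdK, hdP⟩
      refine ⟨((δ ⟨d, hd2⟩ : ℂˣ) : ℂ), ?_⟩
      rw [map_smul, map_smul, hf1 ⟨d, hd2⟩, smul_comm]
    have hstep3 : (r1 * r2) • T (b j) ∈ M := by
      have : (r1 * r2) • T (b j) = r1 • f (ρ g (r2 • f (ρ g⁻¹ (b j)))) := by
        rw [map_smul, map_smul, smul_smul]; rfl
      rw [this]
      exact hstep2
    have h5 := (hbM _ ((eigSub ρ K R δ).smul_mem (r1 * r2) hTb)).mp hstep3 j
    rw [map_smul, smul_eq_mul, mul_comm] at h5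
    exact h5
  rw [← Finset.sum_mul, map_mul, map_mul, mul_comm] at hgoal
  exact hgoal

end Pool.Agent.H.MP_7d3ffc_al
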