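import Mathlib
import Pool.Agent.H.MP_7d3ffc_al.TraceE

/-!
Theorem E: bound on traces of equivariant operators on the fixed space of `P'`, and the case of
two linear constituents.
-/

namespace Pool.Agent.H.MP_7d3ffc_al

open Finset Module
open scoped Pointwise commutatorElement

variable {G : Type*} [Group G] {V : Type*} [AddCommGroup V] [Module ℂ V]
variable {Γ₀ : Type*} [LinearOrderedCommGroupWithZero Γ₀]

/-- Theorem E. -/
theorem theoremE [Finite G] [FiniteDimensional ℂ V] {p : ℕ} (hp : p.Prime)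
    (v : Valuation ℂ Γ₀)
    (P : Subgroup G) (ρ : Representation ℂ G V) (hρ : ρ.IsIrreducible)
    (β : ℕ)
    (hβ : ∀ g : G, (MulAut.conj g • P).relIndex ⁅P, P⁆ * (MulAut.conj g⁻¹ • P).relIndex ⁅P, P⁆ ∣
      p ^ β * (MulAut.conj g • P).relIndex P)
    (η : V →ₗ[ℂ] ℂ) (hη : η ≠ 0) (f : V →ₗ[ℂ] V)
    (hfP : ∀ x ∈ P, ∀ z, f (ρ x z) = ρ x (f z))
    (hfK : ∀ z, f z ∈ fixedSub ρ ⁅P, P⁆)
    (hfM : ∀ z ∈ fixedSub ρ ⁅P, P⁆, z ∈ latticeOf v ρ η → f z ∈ latticeOf v ρ η) :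
    v (p : ℂ) ^ β * (v (P.index : ℂ) * v (LinearMap.trace ℂ V f) ^ 2) ≤ v (finrank ℂ V : ℂ) := by
  classical
  have : Fintype G := Fintype.ofFinite _
  have hp0 : (0 : Γ₀) < v (p : ℂ) := by
    rw [Valuation.pos_iff]
    exact Nat.cast_ne_zero.mpr hp.ne_zero
  set K : Subgroup G := ⁅P, P⁆ with hK
  obtain ⟨C, hC, hC2⟩ := schur_general ρ hρ f
  let F : G → ℂ := fun g => LinearMap.trace ℂ V (ρ g ∘ₗ f ∘ₗ ρ g⁻¹ ∘ₗ f)
  have hsum : ∑ g : G, F g = C * LinearMap.trace ℂ V f := by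
    have h1 : ∑ g : G, F g = LinearMap.trace ℂ V ((∑ g : G, ρ g ∘ₗ f ∘ₗ ρ g⁻¹) ∘ₗ f) := by
      rw [← Module.End.mul_eq_comp, Finset.sum_mul, map_sum]
      rfl
    rw [h1, hC, LinearMap.smul_comp, map_smul, smul_eq_mul, LinearMap.id_comp]
  have hfc : ∀ x ∈ P, f ∘ₗ ρ x = ρ x ∘ₗ f := by
    intro x hx
    ext z
    exact hfP x hx z
  have hid : ∀ x : G, ρ x ∘ₗ ρ x⁻¹ = LinearMap.id := by
    intro x
    rw [← Module.End.mul_eq_comp, ← map_mul, mul_inv_cancel, map_one, Module.End.one_eq_id]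
  have hr : ∀ g : G, ∀ d ∈ P, F (g * d) = F g := by
    intro g d hd
    have h1 : ρ (g * d) ∘ₗ f ∘ₗ ρ (g * d)⁻¹ ∘ₗ f = ρ g ∘ₗ f ∘ₗ ρ g⁻¹ ∘ₗ f := by
      ext z
      simp only [LinearMap.comp_apply, mul_inv_rev, map_mul, Module.End.mul_apply]
      rw [hfP d⁻¹ (P.inv_mem hd), Representation.self_inv_apply]
    simp only [F, h1]
  have hl : ∀ g : G, ∀ d ∈ P, F (d * g) = F g := by
    intro g d hd
    have h1 : ρ (d * g) ∘ₗ f ∘ₗ ρ (d * g)⁻¹ ∘ₗ f = ρ d ∘ₗ ((ρ g ∘ₗ f ∘ₗ ρ g⁻¹ ∘ₗ f) ∘ₗ ρ d⁻¹) := by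
      ext z
      simp only [LinearMap.comp_apply, mul_inv_rev, map_mul, Module.End.mul_apply]
      rw [hfP d⁻¹ (P.inv_mem hd)]
    simp only [F, h1]
    rw [LinearMap.trace_comp_comm', LinearMap.comp_assoc]
    congr 1
    have h2 : ρ d⁻¹ ∘ₗ ρ d = LinearMap.id := by
      have := hid d⁻¹
      rwa [inv_inv] at this
    rw [h2, LinearMap.comp_id]
  have hbound : v (∑ g : G, F g) ≤ v (Nat.card P : ℂ) * (v (p : ℂ) ^ β)⁻¹ := by
    refine val_sum_biinvariant_le v P F hr hl _ (fun g => ?_)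
    obtain ⟨m, hm⟩ := hβ g
    have hpos : 0 < v (p : ℂ) ^ β := pow_pos hp0 β
    rw [← mul_one ((v (p : ℂ) ^ β)⁻¹), ← inv_mul_le_iff₀ (inv_pos.mpr hpos), inv_inv]
    have h1 : v (p : ℂ) ^ β * v ((MulAut.conj g • P).relIndex P : ℂ) ≤
        v ((MulAut.conj g • P).relIndex K : ℂ) * v ((MulAut.conj g⁻¹ • P).relIndex K : ℂ) := by
      rw [← map_pow, ← map_mul, ← map_mul]
      have h2 : ((p : ℂ) ^ β * ((MulAut.conj g • P).relIndex P : ℂ)) =
          (((MulAut.conj g • P).relIndex K : ℂ) * ((MulAut.conj g⁻¹ • P).relIndex K : ℂ)) *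
            (m : ℂ) := by
        exact_mod_cast hm
      rw [h2, map_mul]
      calc _ ≤ v (((MulAut.conj g • P).relIndex K : ℂ) *
            ((MulAut.conj g⁻¹ • P).relIndex K : ℂ)) * 1 := by
            gcongr; exact val_natCast_le v m
        _ = _ := mul_one _
    calc v (p : ℂ) ^ β * (v ((MulAut.conj g • P).relIndex P : ℂ) * v (F g))
        = (v (p : ℂ) ^ β * v ((MulAut.conj g • P).relIndex P : ℂ)) * v (F g) := by
          rw [mul_assoc]
      _ ≤ (v ((MulAut.conj g • P).relIndex K : ℂ) *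
          v ((MulAut.conj g⁻¹ • P).relIndex K : ℂ)) * v (F g) := by gcongr
      _ ≤ 1 := val_trace_le v ρ hρ η hη P f hfP hfK hfM g
  have hcard : v (Nat.card G : ℂ) = v (Nat.card P : ℂ) * v (P.index : ℂ) := by
    rw [← map_mul, ← Nat.cast_mul]
    congr 2
    exact (Subgroup.card_mul_index P).symm
  have hP0 : (0 : Γ₀) < v (Nat.card P : ℂ) := by
    rw [Valuation.pos_iff]
    exact Nat.cast_ne_zero.mpr Nat.card_pos.ne'
  set τ := LinearMap.trace ℂ V f with hτ
  have h1 : v (Nat.card P : ℂ) * (v (P.index : ℂ) * v τ ^ 2) =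
      v (∑ g : G, F g) * v (finrank ℂ V : ℂ) := by
    calc v (Nat.card P : ℂ) * (v (P.index : ℂ) * v τ ^ 2)
        = v (Nat.card G : ℂ) * (v τ * v τ) := by
          rw [hcard, pow_two]; simp only [mul_assoc]
      _ = v ((Nat.card G : ℂ) * τ * τ) := by rw [map_mul, map_mul, mul_assoc]
      _ = v ((∑ g : G, F g) * (finrank ℂ V : ℂ)) := by
          rw [hsum, ← hC2]; congr 1; ring
      _ = _ := map_mul _ _ _
  have h2 : v (Nat.card P : ℂ) * (v (P.index : ℂ) * v τ ^ 2) ≤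
      v (Nat.card P : ℂ) * ((v (p : ℂ) ^ β)⁻¹ * v (finrank ℂ V : ℂ)) := by
    rw [h1, ← mul_assoc]
    gcongr
  have h3 := le_of_mul_le_mul_left h2 hP0
  rwa [le_inv_mul_iff₀ (pow_pos hp0 β)] at h3

/-- `P'` is normal in `P`, elementwise. -/
theorem conj_mem_commutator (P : Subgroup G) {x k : G} (hx : x ∈ P) (hk : k ∈ ⁅P, P⁆) :
    x⁻¹ * k * x ∈ ⁅P, P⁆ := by
  have hkP : k ∈ P := Subgroup.commutator_le_self P hk
  have h3 : x⁻¹ * k * x = ⁅x⁻¹, k⁆ * k := by
    rw [commutatorElement_def]; group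
  rw [h3]
  exact Subgroup.mul_mem _ (Subgroup.commutator_mem_commutator (P.inv_mem hx) hkP) hk

/-- The space of `P'`-fixed vectors is `P`-stable. -/
theorem rho_mem_fixedSub (ρ : Representation ℂ G V) (P : Subgroup G) {x : G} (hx : x ∈ P) {y : V}
    (hy : y ∈ fixedSub ρ ⁅P, P⁆) : ρ x y ∈ fixedSub ρ ⁅P, P⁆ := by
  intro k hk
  have h4 : ρ k (ρ x y) = ρ x (ρ (x⁻¹ * k * x) y) := by
    rw [← Module.End.mul_apply, ← Module.End.mul_apply, ← map_mul, ← map_mul]
    congr 2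
    group
  rw [h4, hy _ (conj_mem_commutator P hx hk)]

/-- A linear-character eigenvector of `P` is fixed by `P'`. -/
theorem eig_mem_fixedSub (ρ : Representation ℂ G V) (P : Subgroup G) (lam : P →* ℂˣ) (y : V)
    (hy : ∀ x : P, ρ (x : G) y = ((lam x : ℂˣ) : ℂ) • y) : y ∈ fixedSub ρ ⁅P, P⁆ := by
  intro k hk
  have hkP : k ∈ P := Subgroup.commutator_le_self P hk
  rw [hy ⟨k, hkP⟩, lin_commutator P lam k hk hkP, Units.val_one, one_smul]

/-- If there are exactly two linear constituents and `p` is odd, the `p`-part of the degree is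
bounded. -/
theorem two_case [Finite G] [FiniteDimensional ℂ V] {p : ℕ} (hp : p.Prime) (hp2 : p ≠ 2)
    (v : Valuation ℂ Γ₀) (hv : v (p : ℂ) < 1)
    (P : Subgroup G) (ρ : Representation ℂ G V) (hρ : ρ.IsIrreducible)
    (β : ℕ)
    (hβ : ∀ g : G, (MulAut.conj g • P).relIndex ⁅P, P⁆ * (MulAut.conj g⁻¹ • P).relIndex ⁅P, P⁆ ∣
      p ^ β * (MulAut.conj g • P).relIndex P)
    (lam mu : P →* ℂˣ) (hlm : lam ≠ mu) (hLin : Lin ρ P = {lam, mu}) :
    v (p : ℂ) ^ β * v (P.index : ℂ) ≤ v (finrank ℂ V : ℂ) := by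
  classical
  have : Fintype P := Fintype.ofFinite _
  have : Fintype (P →* ℂˣ) := Fintype.ofFinite _
  set K : Subgroup G := ⁅P, P⁆ with hK
  have hKP : K ≤ P := Subgroup.commutator_le_self _
  -- a functional and a lattice
  obtain ⟨y, hy0, hy⟩ := (mem_Lin_iff ρ _ lam).mp (by rw [hLin]; exact Set.mem_insert _ _)
  obtain ⟨η, -, hηy⟩ := exists_funEquiv ρ _ lam y hy0 hy
  have hη : η ≠ 0 := by
    rintro rfl
    simp at hηy
  set M := latticeOf v ρ η with hMdef
  have hML : IsLattice v ρ M := isLattice_latticeOf v ρ η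
  -- the projections
  set el : V →ₗ[ℂ] V := proj ρ P lam with hel
  set em : V →ₗ[ℂ] V := proj ρ P mu with hem
  have hell : ∀ x : P, ∀ z, ρ (x : G) (el z) = ((lam x : ℂˣ) : ℂ) • el z :=
    fun x z => rho_proj ρ P lam z x
  have hemm : ∀ x : P, ∀ z, ρ (x : G) (em z) = ((mu x : ℂˣ) : ℂ) • em z :=
    fun x z => rho_proj ρ P mu z x
  have hel2 : ∀ x : P, ∀ z, el (ρ (x : G) z) = ((lam x : ℂˣ) : ℂ) • el z :=
    fun x z => proj_rho ρ P lam z x
  have hem2 : ∀ x : P, ∀ z, em (ρ (x : G) z) = ((mu x : ℂˣ) : ℂ) • em z :=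
    fun x z => proj_rho ρ P mu z x
  have hdec : ∀ z ∈ fixedSub ρ K, z = el z + em z := by
    intro z hz
    have h1 := sum_proj_eq ρ P z (fun x hx => hz _ (by
      rw [hK, ← Subgroup.map_subtype_commutator P]; exact ⟨x, hx, rfl⟩))
    have h2 : ∑ ν : P →* ℂˣ, proj ρ P ν z = ∑ ν ∈ ({lam, mu} : Finset (P →* ℂˣ)),
        proj ρ P ν z := by
      symm
      refine Finset.sum_subset (Finset.subset_univ _) (fun ν _ hν => ?_)
      refine proj_eq_zero_of_notMem ρ P ν ?_ z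
      rw [hLin]
      simpa using hν
    rw [h2, Finset.sum_pair hlm] at h1
    exact h1.symm
  have helK : ∀ z, el z ∈ fixedSub ρ K := fun z => eig_mem_fixedSub ρ P lam _ (fun x => hell x z)
  have hemK : ∀ z, em z ∈ fixedSub ρ K := fun z => eig_mem_fixedSub ρ P mu _ (fun x => hemm x z)
  -- an element separating the characters
  obtain ⟨t, ht⟩ : ∃ t : P, lam t ≠ mu t := by
    by_contra h
    push Not at h
    exact hlm (MonoidHom.ext h)
  set d : ℂ := ((lam t : ℂˣ) : ℂ) - ((mu t : ℂˣ) : ℂ) with hd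
  have hd0 : d ≠ 0 := by
    intro h
    apply ht
    exact Units.ext (sub_eq_zero.mp h)
  let N : V →ₗ[ℂ] V := ρ (t : G) - ((mu t : ℂˣ) : ℂ) • LinearMap.id
  have hNel : ∀ z ∈ fixedSub ρ K, N z = d • el z := by
    intro z hz
    have h1 : N z = ρ (t : G) z - ((mu t : ℂˣ) : ℂ) • z := by simp [N]
    rw [h1]
    conv_lhs => rw [hdec z hz]
    rw [map_add, hell t, hemm t, hd]
    module
  have hNM : ∀ z ∈ M, N z ∈ M := by
    intro z hz
    have h1 : N z = ρ (t : G) z + (-((mu t : ℂˣ) : ℂ)) • z := by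
      simp [N, sub_eq_add_neg]
    rw [h1]
    exact hML.add_mem _ (hML.rho_mem _ _ hz) _
      (hML.smul_mem _ (by rw [Valuation.map_neg, val_linear_character]) _ hz)
  -- integral basis of the lattice in `V^K`
  have hsep : ∀ z ∈ fixedSub ρ K, (∀ g : G, (η ∘ₗ ρ g) z = 0) → z = 0 := by
    intro z _ hz
    by_contra hz0
    obtain ⟨g, hg⟩ := exists_ne_zero ρ hρ η hη z hz0
    exact hg (hz g)
  obtain ⟨n, b, c, hbU, hyb, hcb, hbM⟩ := exists_integral_basis v (fun g : G => η ∘ₗ ρ g)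
    (finrank ℂ (fixedSub ρ K)) (fixedSub ρ K) le_rfl hsep
  have hbM' : ∀ j, b j ∈ M := by
    intro j g
    refine (hbM _ (hbU j)).mpr (fun k => ?_) g
    rw [hcb]
    split_ifs <;> simp
  have hcM : ∀ z ∈ fixedSub ρ K, z ∈ M → ∀ j, v (c j z) ≤ 1 := fun z hz hzM j =>
    (hbM z hz).mp hzM j
  have hMc : ∀ z ∈ fixedSub ρ K, (∀ j, v (c j z) ≤ 1) → z ∈ M := fun z hz h =>
    (hbM z hz).mpr h
  -- the entry of maximal value
  obtain ⟨⟨i1, j1⟩, h11⟩ : ∃ ij : Fin n × Fin n, c ij.1 (N (b ij.2)) ≠ 0 := by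
    by_contra h
    push Not at h
    have hN0 : ∀ z ∈ fixedSub ρ K, N z = 0 := by
      intro z hz
      have h1 : N z = ∑ j, c j z • N (b j) := by
        conv_lhs => rw [hyb z hz]
        simp
      rw [h1]
      refine Finset.sum_eq_zero (fun j _ => ?_)
      have h2 : N (b j) ∈ fixedSub ρ K := by
        rw [hNel _ (hbU j)]
        exact (fixedSub ρ K).smul_mem _ (helK _)
      have h3 : N (b j) = 0 := by
        rw [hyb _ h2]
        exact Finset.sum_eq_zero (fun i _ => by rw [h (i, j), zero_smul])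
      rw [h3, smul_zero]
    have h4 := hN0 y (eig_mem_fixedSub ρ P lam y hy)
    rw [hNel y (eig_mem_fixedSub ρ P lam y hy), hel, proj_eq_self ρ P lam y hy] at h4
    rcases smul_eq_zero.mp h4 with h5 | h5
    · exact hd0 h5
    · exact hy0 h5
  have : Nonempty (Fin n × Fin n) := ⟨(i1, j1)⟩
  obtain ⟨⟨i0, j0⟩, h00⟩ := Finite.exists_max
    (fun ij : Fin n × Fin n => v (c ij.1 (N (b ij.2))))
  set α : ℂ := c i0 (N (b j0)) with hα
  have hα0 : α ≠ 0 := by
    intro h
    have := h00 (i1, j1)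
    change v (c i1 (N (b j1))) ≤ v (c i0 (N (b j0))) at this
    rw [← hα, h, map_zero, le_zero_iff, map_eq_zero] at this
    exact h11 this
  have hαpos : 0 < v α := by rw [Valuation.pos_iff]; exact hα0
  -- rescaled operator
  set d' : ℂ := α⁻¹ * d with hd'
  have hd'0 : d' ≠ 0 := mul_ne_zero (inv_ne_zero hα0) hd0
  have hcj : ∀ i j, v (c i (el (b j))) * v d' ≤ 1 := by
    intro i j
    have h1 := h00 (i, j)
    change v (c i (N (b j))) ≤ v α at h1
    rw [hNel _ (hbU j), map_smul, smul_eq_mul, map_mul] at h1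
    rw [hd', map_mul, map_inv₀, mul_comm (v (c i (el (b j)))), mul_assoc,
      inv_mul_le_iff₀ hαpos, mul_one]
    exact h1
  have hcz : ∀ z ∈ fixedSub ρ K, z ∈ M → ∀ i, v (d' * c i (el z)) ≤ 1 := by
    intro z hz hzM i
    have h1 : d' * c i (el z) = ∑ j, c j z * (d' * c i (el (b j))) := by
      conv_lhs => rw [hyb z hz]
      simp only [map_sum, map_smul, smul_eq_mul, Finset.mul_sum]
      exact Finset.sum_congr rfl (fun j _ => by ring)
    rw [h1]
    refine val_sum_le v _ _ _ (fun j _ => ?_)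
    rw [map_mul]
    refine mul_le_one' (hcM z hz hzM j) ?_
    rw [map_mul, mul_comm]
    exact hcj i j
  have hunit : v (d' * c i0 (el (b j0))) = 1 := by
    have h1 : d' * c i0 (el (b j0)) = α⁻¹ * c i0 (N (b j0)) := by
      rw [hNel _ (hbU j0), map_smul, smul_eq_mul, hd']; ring
    rw [h1, ← hα, inv_mul_cancel₀ hα0, map_one]
  have hd'M : v d' ≤ 1 := by
    -- `N'² = d' N'`
    have h1 : d' • (d' • el (b j0)) ∈ fixedSub ρ K :=
      (fixedSub ρ K).smul_mem _ ((fixedSub ρ K).smul_mem _ (helK _))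
    have h2 : d' • el (b j0) ∈ M := by
      refine hMc _ ((fixedSub ρ K).smul_mem _ (helK _)) (fun i => ?_)
      rw [map_smul, smul_eq_mul]
      exact hcz _ (hbU j0) (hbM' j0) i
    have h3 := hcz _ ((fixedSub ρ K).smul_mem _ (helK _)) h2 i0
    have h4 : el (el (b j0)) = el (b j0) := proj_eq_self ρ P lam _ (fun x => hell x _)
    rw [map_smul, h4, map_smul, smul_eq_mul, map_mul, hunit, mul_one] at h3
    exact h3
  have hv2 : v (2 : ℂ) = 1 := by
    have := val_natCast_eq_one v hv (n := 2) ((Nat.coprime_primes Nat.prime_two hp).mpr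
      (fun h => hp2 h.symm))
    exact_mod_cast this
  set x : V := b j0 with hx
  have hxK : x ∈ fixedSub ρ K := hbU j0
  have hxM : x ∈ M := hbM' j0
  -- the operator
  suffices hsuff : ∃ f : V →ₗ[ℂ] V, (∀ x ∈ P, ∀ z, f (ρ x z) = ρ x (f z)) ∧
      (∀ z, f z ∈ fixedSub ρ K) ∧ (∀ z ∈ fixedSub ρ K, z ∈ M → f z ∈ M) ∧
      v (LinearMap.trace ℂ V f) = 1 by
    obtain ⟨f, hf1, hf2, hf3, hf4⟩ := hsuff
    have h := theoremE hp v P ρ hρ β hβ η hη f hf1 hf2 hf3
    rw [hf4, one_pow, mul_one] at h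
    exact h
  rcases lt_or_eq_of_le hd'M with hlt | heq
  · -- `f y = d' (c(e_λ y) x_λ - c(e_μ y) x_μ)`
    let f : V →ₗ[ℂ] V := (d' • ((c i0) ∘ₗ el)).smulRight (el x) -
      (d' • ((c i0) ∘ₗ em)).smulRight (em x)
    have hf : ∀ z, f z = (d' * c i0 (el z)) • el x - (d' * c i0 (em z)) • em x := by
      intro z; simp [f]
    refine ⟨f, ?_, ?_, ?_, ?_⟩
    · intro s hs z
      rw [hf, hf, map_sub, map_smul, map_smul, hel2 ⟨s, hs⟩, hem2 ⟨s, hs⟩, hell ⟨s, hs⟩,
        hemm ⟨s, hs⟩, map_smul, map_smul, smul_eq_mul, smul_eq_mul, smul_smul, smul_smul]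
      congr 2 <;> ring
    · intro z
      rw [hf]
      exact (fixedSub ρ K).sub_mem ((fixedSub ρ K).smul_mem _ (helK _))
        ((fixedSub ρ K).smul_mem _ (hemK _))
    · intro z hz hzM
      -- `f z = (d' c(e_λ z)) x + c(z) (d' e_λ x - d' x)`
      have h1 : f z = (d' * c i0 (el z)) • x + c i0 z • (d' • el x + (-d') • x) := by
        have h2 : c i0 z = c i0 (el z) + c i0 (em z) := by
          conv_lhs => rw [hdec z hz]
          rw [map_add]
        have h3 : em x = x - el x := by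
          conv_rhs => lhs; rw [hdec x hxK]
          abel
        rw [hf, h2, h3]
        module
      rw [h1]
      have h4 : d' • el x ∈ M := by
        refine hMc _ ((fixedSub ρ K).smul_mem _ (helK _)) (fun i => ?_)
        rw [map_smul, smul_eq_mul]
        exact hcz _ hxK hxM i
      refine hML.add_mem _ (hML.smul_mem _ (hcz z hz hzM i0) _ hxM) _
        (hML.smul_mem _ (hcM z hz hzM i0) _ (hML.add_mem _ h4 _
          (hML.smul_mem _ (by rw [Valuation.map_neg]; exact hd'M) _ hxM)))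
    · have htr : LinearMap.trace ℂ V f = d' * c i0 (el x) - d' * c i0 (em x) := by
        simp only [f, map_sub, LinearMap.trace_smulRight, LinearMap.smul_apply,
          LinearMap.comp_apply, smul_eq_mul]
        rw [hel, hem, proj_eq_self ρ P lam _ (fun s => hell s x),
          proj_eq_self ρ P mu _ (fun s => hemm s x)]
      have h2 : c i0 x = c i0 (el x) + c i0 (em x) := by
        conv_lhs => rw [hdec x hxK]
        rw [map_add]
      have h3 : LinearMap.trace ℂ V f = 2 * (d' * c i0 (el x)) - d' * c i0 x := by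
        rw [htr, h2]; ring
      rw [h3]
      have h4 : v (2 * (d' * c i0 (el x))) = 1 := by rw [map_mul, hv2, hunit, one_mul]
      have h5 : v (d' * c i0 x) < 1 := by
        rw [map_mul]
        calc v d' * v (c i0 x) ≤ v d' * 1 := by gcongr; exact hcM x hxK hxM i0
          _ < 1 := by simpa using hlt
      rw [← h4]
      exact Valuation.map_sub_eq_of_lt_left v (by rw [h4]; exact h5)
  · let f : V →ₗ[ℂ] V := ((c i0) ∘ₗ el).smulRight (el x)
    have hf : ∀ z, f z = (c i0 (el z)) • el x := by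
      intro z; simp [f]
    have hcel : ∀ z ∈ fixedSub ρ K, z ∈ M → ∀ i, v (c i (el z)) ≤ 1 := by
      intro z hz hzM i
      have := hcz z hz hzM i
      rwa [map_mul, heq, one_mul] at this
    refine ⟨f, ?_, ?_, ?_, ?_⟩
    · intro s hs z
      rw [hf, hf, map_smul, hel2 ⟨s, hs⟩, hell ⟨s, hs⟩, map_smul, smul_eq_mul, smul_smul]
      congr 1; ring
    · intro z
      rw [hf]
      exact (fixedSub ρ K).smul_mem _ (helK _)
    · intro z hz hzM
      rw [hf]
      exact hML.smul_mem _ (hcel z hz hzM i0) _ (hMc _ (helK _) (hcel x hxK hxM))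
    · have htr : LinearMap.trace ℂ V f = c i0 (el x) := by
        simp only [f, LinearMap.trace_smulRight, LinearMap.comp_apply]
        rw [hel, proj_eq_self ρ P lam _ (fun s => hell s x)]
      rw [htr]
      rwa [map_mul, heq, one_mul] at hunit

end Pool.Agent.H.MP_7d3ffc_al
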