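import Mathlib
import Pool.Agent.H.MP_7d3ffc_al.ThmE

/-!
Some facts on finite `p`-groups and extensions of linear characters.
-/

namespace Pool.Agent.H.MP_7d3ffc_al

open Finset Module
open scoped Pointwise commutatorElement

section PGroup

variable {Q : Type*} [Group Q] [Finite Q] {p : ℕ} [Fact p.Prime]

/-- A proper subgroup of a finite `p`-group does not supplement the commutator subgroup. -/
theorem sup_commutator_ne_top (hQ : IsPGroup p Q) (R : Subgroup Q) (hR : R ≠ ⊤) :
    R ⊔ commutator Q ≠ ⊤ := by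
  obtain h | ⟨N, hN, hRN⟩ := IsCoatomic.eq_top_or_exists_le_coatom R
  · exact absurd h hR
  have hnil : Group.IsNilpotent Q := hQ.isNilpotent
  have hNn : N.Normal := Subgroup.NormalizerCondition.normal_of_coatom N
    Group.normalizerCondition_of_isNilpotent hN
  have hsimple : IsSimpleGroup (Q ⧸ N) := by
    have hnt : Nontrivial (Q ⧸ N) := by
      rw [← not_subsingleton_iff_nontrivial]
      intro h
      exact hN.1 (QuotientGroup.subgroup_eq_top_of_subsingleton N h)
    refine ⟨fun H hH => ?_⟩
    have h1 : N ≤ H.comap (QuotientGroup.mk' N) := by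
      intro x hx
      rw [Subgroup.mem_comap, (QuotientGroup.eq_one_iff x).mpr hx |> fun h => (show
        QuotientGroup.mk' N x = 1 from h)]
      exact H.one_mem
    have h2 : H = (H.comap (QuotientGroup.mk' N)).map (QuotientGroup.mk' N) :=
      (Subgroup.map_comap_eq_self_of_surjective (QuotientGroup.mk'_surjective N) H).symm
    rcases eq_or_lt_of_le h1 with h | h
    · left
      rw [h2, ← h]
      rw [QuotientGroup.map_mk'_self]
    · right
      rw [h2, hN.2 _ h]
      exact Subgroup.map_top_of_surjective _ (QuotientGroup.mk'_surjective N)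
  have hcomm : ∀ a b : Q ⧸ N, a * b = b * a := IsSimpleGroup.comm_iff_isSolvable.mpr inferInstance
  have hC : commutator Q ≤ N := by
    rw [← Subgroup.Normal.quotient_commutative_iff_commutator_le]
    exact ⟨⟨hcomm⟩⟩
  intro h
  exact hN.1 (top_le_iff.mp (h ▸ sup_le hRN hC))

/-- The index of `R P'` is divisible by `p` for a proper subgroup `R` of the `p`-group `P`. -/
theorem dvd_index_sup_commutator (hQ : IsPGroup p Q) (R : Subgroup Q) (hR : R ≠ ⊤) :
    p ∣ (R ⊔ commutator Q).index := by
  obtain ⟨n, hn⟩ := IsPGroup.iff_card.mp hQ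
  obtain ⟨m, _, hm⟩ := (Nat.dvd_prime_pow (Fact.out : p.Prime)).mp
    (hn ▸ (R ⊔ commutator Q).index_dvd_card)
  cases m with
  | zero =>
    exact absurd (Subgroup.index_eq_one.mp (by simpa using hm)) (sup_commutator_ne_top hQ R hR)
  | succ m => rw [hm]; exact dvd_pow_self p (Nat.succ_ne_zero m)

/-- The product formula for the index. -/
theorem index_eq_mul (R C : Subgroup Q) [C.Normal] :
    R.index = (R ⊔ C).index * R.relIndex C := by
  have h1 : R.relIndex (R ⊔ C) = R.relIndex C := by
    have h2 : (R ⊓ C).relIndex R * R.relIndex (R ⊔ C) = (R ⊓ C).relIndex (R ⊔ C) :=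
      Subgroup.relIndex_mul_relIndex _ _ _ inf_le_left le_sup_left
    have h3 : (R ⊓ C).relIndex C * C.relIndex (R ⊔ C) = (R ⊓ C).relIndex (R ⊔ C) :=
      Subgroup.relIndex_mul_relIndex _ _ _ inf_le_right le_sup_right
    rw [Subgroup.relIndex_sup_right] at h3
    rw [Subgroup.inf_relIndex_left] at h2
    rw [Subgroup.inf_relIndex_right] at h3
    have h4 : 0 < C.relIndex R := Nat.pos_of_ne_zero Subgroup.FiniteIndex.index_ne_zero
    have h5 : C.relIndex R * R.relIndex (R ⊔ C) = C.relIndex R * R.relIndex C := by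
      rw [h2, ← h3, mul_comm]
    exact Nat.eq_of_mul_eq_mul_left h4 h5
  rw [← h1, mul_comm, Subgroup.relIndex_mul_index le_sup_left]

end PGroup

section Relative

variable {G : Type*} [Group G] [Finite G] {p : ℕ} [Fact p.Prime]

/-- The relative index in `P'` computed inside `P`. -/
theorem relIndex_commutator (P H : Subgroup G) :
    H.relIndex ⁅P, P⁆ = (H.subgroupOf P).relIndex (commutator P) := by
  rw [← Subgroup.map_subtype_commutator P]
  have h1 := Subgroup.relIndex_map_map_of_injective (H.subgroupOf P) (commutator P)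
    P.subtype_injective
  rw [← h1, Subgroup.subgroupOf_map_subtype]
  have h2 : (commutator P).map P.subtype ≤ P := Subgroup.map_subtype_le _
  rw [Subgroup.relIndex, Subgroup.relIndex]
  congr 1
  ext x
  rw [Subgroup.mem_subgroupOf, Subgroup.mem_subgroupOf, Subgroup.mem_inf]
  exact ⟨fun h => ⟨h, h2 x.2⟩, fun h => h.1⟩

/-- If `|P'|` divides `n`, then the divisibility hypothesis of the theorems holds. -/
theorem dvd_of_card_commutator_dvd (P : Subgroup G) (hP : IsPGroup p P) (n : ℕ) (hpn : p ∣ n)
    (hn : Nat.card (⁅P, P⁆ : Subgroup G) ∣ n) (g : G) :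
    p * ((MulAut.conj g • P).relIndex ⁅P, P⁆ * (MulAut.conj g⁻¹ • P).relIndex ⁅P, P⁆) ∣
      n * (MulAut.conj g • P).relIndex P := by
  have hr : (MulAut.conj g • P).relIndex P = ((MulAut.conj g • P).subgroupOf P).index := rfl
  by_cases htop : (MulAut.conj g • P).subgroupOf P = ⊤
  · -- then `gPg⁻¹ = P`
    have hle : P ≤ MulAut.conj g • P := Subgroup.subgroupOf_eq_top.mp htop
    have heq : MulAut.conj g • P = P := by
      refine (Subgroup.eq_of_le_of_card_ge hle ?_).symm
      exact (Nat.card_congr (Subgroup.equivSMul (MulAut.conj g) P).toEquiv).ge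
    have heq' : MulAut.conj g⁻¹ • P = P := by
      rw [map_inv, inv_smul_eq_iff]
      exact heq.symm
    have hK : P.relIndex ⁅P, P⁆ = 1 :=
      Subgroup.relIndex_eq_one.mpr (Subgroup.commutator_le_self P)
    rw [heq, heq', hK, Subgroup.relIndex_self, mul_one, mul_one, mul_one]
    exact hpn
  · have h1 := index_eq_mul ((MulAut.conj g • P).subgroupOf P) (commutator P)
    have h2 := dvd_index_sup_commutator hP _ htop
    have h3 : (MulAut.conj g⁻¹ • P).relIndex ⁅P, P⁆ ∣ n :=
      (Subgroup.relIndex_dvd_card _ _).trans hn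
    rw [hr, h1, ← relIndex_commutator]
    calc p * ((MulAut.conj g • P).relIndex ⁅P, P⁆ * (MulAut.conj g⁻¹ • P).relIndex ⁅P, P⁆)
        = ((MulAut.conj g⁻¹ • P).relIndex ⁅P, P⁆) * (p * (MulAut.conj g • P).relIndex ⁅P, P⁆) := by
          ring
      _ ∣ n * (((MulAut.conj g • P).subgroupOf P ⊔ commutator P).index *
          (MulAut.conj g • P).relIndex ⁅P, P⁆) :=
          mul_dvd_mul h3 (mul_dvd_mul_right h2 _)

end Relative

end Pool.Agent.H.MP_7d3ffc_al
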