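import Mathlib
import Pool.Agent.H.MP_7d3ffc_al.PGroup

/-!
Theorem C: irreducible representations with a semi-invariant vector for the normalizer of a Sylow
subgroup.
-/

namespace Pool.Agent.H.MP_7d3ffc_al

open Finset Module
open scoped Pointwise commutatorElement

section Extension

variable {Q : Type*} [Group Q] [Finite Q]

/-- Let `R ≤ Q` and let `θ` be a linear character of `R` trivial on `R ∩ Q'`. If `S` is a set of
linear characters of `Q` with fewer than `|Q : R Q'|` elements, then `θ` extends to a linear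
character of `Q` outside `S`. -/
theorem exists_extension (R : Subgroup Q) (θ : R →* ℂˣ)
    (hθ : ∀ r : R, (r : Q) ∈ commutator Q → θ r = 1) (S : Set (Q →* ℂˣ))
    (hS : S.ncard < (R ⊔ commutator Q).index) :
    ∃ μ : Q →* ℂˣ, μ ∉ S ∧ ∀ r : R, μ (r : Q) = θ r := by
  classical
  let A := Abelianization Q
  let H : Subgroup A := R.map Abelianization.of
  let f : R →* H := Abelianization.of.subgroupMap R
  have hf : Function.Surjective f := MonoidHom.subgroupMap_surjective _ _
  have hker : f.ker ≤ θ.ker := by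
    intro r hr
    rw [MonoidHom.mem_ker] at hr ⊢
    apply hθ
    have h1 : Abelianization.of (r : Q) = 1 := congrArg Subtype.val hr
    exact (QuotientGroup.eq_one_iff (r : Q)).mp h1
  let θ' : H →* ℂˣ := f.liftOfSurjective hf ⟨θ, hker⟩
  have hθ' : ∀ r : R, θ' (f r) = θ r := fun r =>
    MonoidHom.liftOfRightInverse_comp_apply _ _ _ ⟨θ, hker⟩ r
  obtain ⟨Ψ, hΨ⟩ := MonoidHom.domRestrict_surjective ℂ H θ'
  have hΨ' : ∀ h : H, Ψ (h : A) = θ' h := fun h => by
    rw [← hΨ]; rfl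
  by_contra hcon
  push Not at hcon
  have hker2 : ∀ κ ∈ (MonoidHom.domRestrictHom H ℂˣ).ker, ∀ r : R,
      ((Ψ * κ).comp Abelianization.of) (r : Q) = θ r := by
    intro κ hκ r
    have h1 : κ (f r : A) = 1 := by
      have h2 : (MonoidHom.domRestrictHom H ℂˣ κ) (f r) = 1 := by
        rw [MonoidHom.mem_ker] at hκ
        rw [hκ]; rfl
      exact h2
    change Ψ (f r : A) * κ (f r : A) = θ r
    rw [h1, mul_one, hΨ', hθ']
  have hmem : ∀ κ : (MonoidHom.domRestrictHom H ℂˣ).ker,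
      ((Ψ * (κ : A →* ℂˣ)).comp Abelianization.of) ∈ S := by
    intro κ
    by_contra h
    obtain ⟨r, hr⟩ := hcon _ h
    exact hr (hker2 κ κ.2 r)
  have hSfin : S.Finite := Set.toFinite S
  let j : (MonoidHom.domRestrictHom H ℂˣ).ker → S := fun κ => ⟨_, hmem κ⟩
  have hj : Function.Injective j := by
    intro κ1 κ2 h
    have h1 : (Ψ * (κ1 : A →* ℂˣ)).comp Abelianization.of =
        (Ψ * (κ2 : A →* ℂˣ)).comp Abelianization.of := congrArg Subtype.val h
    have h2 : (κ1 : A →* ℂˣ) = κ2 := by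
      refine MonoidHom.ext (fun a => ?_)
      obtain ⟨x, rfl⟩ := QuotientGroup.mk_surjective a
      have h3 := DFunLike.congr_fun h1 x
      change Ψ _ * (κ1 : A →* ℂˣ) _ = Ψ _ * (κ2 : A →* ℂˣ) _ at h3
      exact mul_left_cancel h3
    exact Subtype.ext h2
  have hcard : Nat.card (MonoidHom.domRestrictHom H ℂˣ).ker ≤ S.ncard := by
    rw [← Nat.card_coe_set_eq]
    exact Nat.card_le_card_of_injective j hj
  rw [CommGroup.card_domRestrictHom_ker] at hcard
  have hidx : Nat.card (A ⧸ H) = (R ⊔ commutator Q).index := by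
    rw [← Subgroup.index_eq_card, ← Subgroup.index_comap_of_surjective H
      (f := (Abelianization.of : Q →* A)) (QuotientGroup.mk_surjective)]
    congr 1
    rw [Subgroup.comap_map_eq, Abelianization.ker_of]
  omega

end Extension

section Residue

/-- A `p`-power root of unity is congruent to one. -/
theorem residue_root {p : ℕ} (hp : p.Prime) {κ : Type*} [Field κ] (hκ : (p : κ) = 0) (z : κ)
    (n : ℕ) (hz : z ^ p ^ n = 1) : z = 1 := by
  have : Fact p.Prime := ⟨hp⟩
  have : CharP κ p := (CharP.charP_iff_prime_eq_zero hp).mpr hκ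
  have h1 : (z - 1) ^ p ^ n = 0 := by
    rw [sub_pow_char_pow, hz, one_pow, sub_self]
  exact sub_eq_zero.mp (pow_eq_zero_iff (pow_ne_zero n hp.ne_zero) |>.mp h1)

end Residue

section Main

variable {G : Type*} [Group G] {V : Type*} [AddCommGroup V] [Module ℂ V]

/-- The orbit of `gP` under `P`, summed: if the sum over `P` of a function that is right-invariant
under the stabilizer vanishes, so does the sum over the orbit. -/
theorem sum_orbit_eq_zero [Finite G] (P : Subgroup G) [Fintype P] (g : G) {W : Type*}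
    [AddCommGroup W] [Module ℂ W] (F : P → W)
    (hF : ∀ x : P, ∀ r : P, g⁻¹ * (r : G) * g ∈ P → F (x * r) = F x)
    (h0 : ∑ x : P, F x = 0)
    [Fintype (P ⧸ (MulAut.conj g • P).subgroupOf P)] :
    ∑ q : P ⧸ (MulAut.conj g • P).subgroupOf P, F q.out = 0 := by
  have h1 := sum_eq_card_smul_sum_quotient ((MulAut.conj g • P).subgroupOf P) F (by
    intro x d hd
    refine hF x d ?_
    rw [Subgroup.mem_subgroupOf, Subgroup.mem_pointwise_smul_iff_inv_smul_mem, ← map_inv,
      MulAut.smul_def, MulAut.conj_apply, inv_inv] at hd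
    exact hd)
  rw [h0, ← Nat.cast_smul_eq_nsmul ℂ] at h1
  have h2 : (Nat.card ((MulAut.conj g • P).subgroupOf P) : ℂ) ≠ 0 :=
    Nat.cast_ne_zero.mpr Nat.card_pos.ne'
  exact (smul_eq_zero.mp h1.symm).resolve_left h2

/-- Theorem C, auxiliary form. -/
theorem theoremC_aux [Finite G] [FiniteDimensional ℂ V] {p : ℕ} [Fact p.Prime]
    (Q : Subgroup G) (hQp : IsPGroup p Q) (hQi : ¬ p ∣ Q.index)
    (ρ : Representation ℂ G V) (hρ : ρ.IsIrreducible)
    (hdim : 1 < finrank ℂ V)
    (N : Subgroup G) (hN : N = Subgroup.normalizer (Q : Set G)) (hQN' : Q ≤ N)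
    (ν : N →* ℂˣ) (hν : ν ∈ Lin ρ N)
    (hνp : ∃ n : ℕ, ∀ x, ν x ^ p ^ n = 1)
    (hνf : ∀ (y : G) (hy : y ∈ Q) (g : G),
      g * y * g⁻¹ ∈ ⁅Q, Q⁆ → ν ⟨y, hQN' hy⟩ = 1) :
    ∃ g : G, g ∉ N ∧
      p ≤ (Q ⊓ (MulAut.conj g • Q) ⊔ ⁅Q, Q⁆).relIndex Q ∧
      (Q ⊓ (MulAut.conj g • Q) ⊔ ⁅Q, Q⁆).relIndex Q ≤ (Lin ρ Q).ncard := by
  classical
  have hp : p.Prime := Fact.out
  have : Fintype G := Fintype.ofFinite _
  have : Fintype Q := Fintype.ofFinite _
  have : Fintype (G ⧸ Q) := Fintype.ofFinite _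
  -- conversion of indices
  have hidx : ∀ g : G, (Q ⊓ (MulAut.conj g • Q) ⊔ ⁅Q, Q⁆).relIndex Q =
      ((MulAut.conj g • Q).subgroupOf Q ⊔ commutator Q).index := by
    intro g
    rw [Subgroup.relIndex, Subgroup.subgroupOf_sup inf_le_left (Subgroup.commutator_le_self Q),
      Subgroup.inf_subgroupOf_left]
    congr 2
    rw [← Subgroup.map_subtype_commutator Q]
    exact Subgroup.comap_map_eq_self_of_injective Q.subtype_injective _
  have hmemconj : ∀ (g x : G), x ∈ MulAut.conj g • Q ↔ g⁻¹ * x * g ∈ Q := by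
    intro g x
    rw [Subgroup.mem_pointwise_smul_iff_inv_smul_mem, ← map_inv, MulAut.smul_def,
      MulAut.conj_apply, inv_inv]
  -- for `g ∉ N` the intersection is proper
  have hproper : ∀ g : G, g ∉ N → (MulAut.conj g • Q).subgroupOf Q ≠ ⊤ := by
    intro g hg htop
    have hle : Q ≤ MulAut.conj g • Q := Subgroup.subgroupOf_eq_top.mp htop
    have heq : Q = MulAut.conj g • Q := by
      refine Subgroup.eq_of_le_of_card_ge hle ?_
      exact (Nat.card_congr (Subgroup.equivSMul (MulAut.conj g) Q).toEquiv).ge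
    apply hg
    have hinv : g⁻¹ ∈ N := by
      rw [hN, Subgroup.mem_normalizer_iff]
      intro h
      rw [inv_inv]
      rw [← hmemconj g h, ← heq]
    simpa using N.inv_mem hinv
  have hfix : ∀ g : G, ((MulAut.conj g • Q).subgroupOf Q ≠ ⊤) → g ∉ N := by
    intro g hg hgN
    apply hg
    rw [Subgroup.subgroupOf_eq_top]
    intro x hx
    rw [hmemconj]
    have := (Subgroup.mem_normalizer_iff.mp (hN ▸ N.inv_mem hgN) x).mp hx
    rwa [inv_inv] at this
  by_contra hcon
  push Not at hcon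
  have hlt : ∀ g : G, g ∉ N → (Lin ρ Q).ncard <
      ((MulAut.conj g • Q).subgroupOf Q ⊔ commutator Q).index := by
    intro g hg
    rw [← hidx]
    refine hcon g hg ?_
    rw [hidx]
    exact Nat.le_of_dvd (Nat.pos_of_ne_zero Subgroup.FiniteIndex.index_ne_zero)
      (dvd_index_sup_commutator hQp _ (hproper g hg))
  -- the vector and the functional
  obtain ⟨w, hw0, hw⟩ := (mem_Lin_iff ρ N ν).mp hν
  have hQN : ∀ {x : G}, x ∈ Q → x ∈ N := fun hx => hQN' hx
  obtain ⟨ξ0, hξ0, hξ0w⟩ : ∃ ξ : V →ₗ[ℂ] ℂ, ξ ≠ 0 ∧ ξ w = 0 := by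
    by_contra h
    push Not at h
    -- then `V` is spanned by `w`
    have h1 : (ℂ ∙ w) = ⊤ := by
      by_contra hne
      obtain ⟨φ, hφ, hφ2⟩ := Submodule.exists_dual_map_eq_bot_of_lt_top
        (lt_top_iff_ne_top.mpr hne) inferInstance
      refine h φ hφ ?_
      have h2 : φ w ∈ (ℂ ∙ w).map φ := ⟨w, Submodule.mem_span_singleton_self w, rfl⟩
      rw [hφ2] at h2
      exact (Submodule.mem_bot ℂ).mp h2
    have h3 : finrank ℂ V ≤ 1 := by
      rw [← finrank_top ℂ V, ← h1]
      exact (finrank_span_le_card ({w} : Set V)).trans (by simp)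
    omega
  obtain ⟨g1, hg1⟩ := exists_ne_zero ρ hρ ξ0 hξ0 w hw0
  obtain ⟨B, hB⟩ := exists_valuation p hp
  set v := B.valuation with hvdef
  obtain ⟨g0, hg0⟩ := Finite.exists_max (fun g : G => v (ξ0 (ρ g w)))
  have hg0ne : ξ0 (ρ g0 w) ≠ 0 := by
    intro h
    have := hg0 g1
    rw [h, map_zero, le_zero_iff, map_eq_zero] at this
    exact hg1 this
  set ξ : V →ₗ[ℂ] ℂ := (ξ0 (ρ g0 w))⁻¹ • ξ0 with hξdef
  have hξg0 : ξ (ρ g0 w) = 1 := by
    simp only [hξdef, LinearMap.smul_apply, smul_eq_mul]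
    exact inv_mul_cancel₀ hg0ne
  have hξw0 : ξ w = 0 := by simp [hξdef, hξ0w]
  have hξM : ∀ g : G, ξ (ρ g w) ∈ B := by
    intro g
    rw [← ValuationSubring.valuation_le_one_iff]
    simp only [hξdef, LinearMap.smul_apply, smul_eq_mul, map_mul, map_inv₀]
    have hpos : 0 < v (ξ0 (ρ g0 w)) := by rw [Valuation.pos_iff]; exact hg0ne
    rw [inv_mul_le_iff₀ hpos, mul_one]
    exact hg0 g
  -- residues
  let κ := IsLocalRing.ResidueField B
  let res : B →+* κ := IsLocalRing.residue B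
  have hpκ : (p : κ) = 0 := by
    have h1 : (p : κ) = res (p : B) := by simp
    rw [h1]
    change IsLocalRing.residue B (p : B) = 0
    rw [IsLocalRing.residue_eq_zero_iff, ValuationSubring.valuation_lt_one_iff]
    simpa using hB
  let Φ : G → B := fun g => ⟨ξ (ρ g w), hξM g⟩
  let φ : G → κ := fun g => res (Φ g)
  have hmemB : ∀ (z : ℂ) (n : ℕ), n ≠ 0 → z ^ n = 1 → z ∈ B := by
    intro z n hn hz
    rw [← ValuationSubring.valuation_le_one_iff]
    exact (val_rootOfUnity v hn hz).le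
  have hroot : ∀ (z : ℂ) (hz : z ∈ B) (n : ℕ), z ^ p ^ n = 1 → res ⟨z, hz⟩ = 1 := by
    intro z hz n hzn
    refine residue_root hp hpκ _ n ?_
    rw [← map_pow]
    have : (⟨z, hz⟩ : B) ^ p ^ n = 1 := Subtype.ext (by simpa using hzn)
    rw [this, map_one]
  -- `φ` is right invariant under `N`
  obtain ⟨n0, hn0⟩ := hνp
  have hνC : ∀ x : N, ((ν x : ℂˣ) : ℂ) ^ p ^ n0 = 1 := by
    intro x
    rw [← Units.val_pow_eq_pow_val, hn0, Units.val_one]
  have hφN : ∀ (g : G) (x : G), x ∈ N → φ (g * x) = φ g := by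
    intro g x hx
    have h1 : ξ (ρ (g * x) w) = ((ν ⟨x, hx⟩ : ℂˣ) : ℂ) * ξ (ρ g w) := by
      rw [map_mul, Module.End.mul_apply, hw ⟨x, hx⟩, map_smul, map_smul, smul_eq_mul]
    have hνB : ((ν ⟨x, hx⟩ : ℂˣ) : ℂ) ∈ B :=
      hmemB _ _ (pow_ne_zero n0 hp.ne_zero) (hνC _)
    have h2 : Φ (g * x) = ⟨_, hνB⟩ * Φ g := Subtype.ext h1
    change res (Φ (g * x)) = res (Φ g)
    rw [h2, map_mul, hroot _ hνB n0 (hνC _), one_mul]
  -- the key vanishing
  have hkey : ∀ (h g : G), g ∉ N →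
      ∀ [Fintype (Q ⧸ (MulAut.conj g • Q).subgroupOf Q)],
      ∑ q : Q ⧸ (MulAut.conj g • Q).subgroupOf Q, φ (h * (q.out : G) * g) = 0 := by
    intro h g hg _
    -- the character of `R`
    let R : Subgroup Q := (MulAut.conj g • Q).subgroupOf Q
    have hR : ∀ r : R, g⁻¹ * ((r : Q) : G) * g ∈ Q := by
      intro r
      have := r.2
      rw [Subgroup.mem_subgroupOf, hmemconj] at this
      exact this
    let θ : R →* ℂˣ :=
      { toFun := fun r => ν ⟨g⁻¹ * ((r : Q) : G) * g, hQN (hR r)⟩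
        map_one' := by
          rw [← map_one ν]
          congr 1
          apply Subtype.ext
          simp
        map_mul' := fun r s => by
          rw [← map_mul]
          congr 1
          apply Subtype.ext
          simp only [Subgroup.coe_mul]
          group }
    obtain ⟨μ, hμ, hμR⟩ := exists_extension R θ (by
      intro r hr
      refine hνf _ (hR r) g ?_
      have h1 : g * (g⁻¹ * ((r : Q) : G) * g) * g⁻¹ = ((r : Q) : G) := by group
      rw [h1, ← Subgroup.map_subtype_commutator Q]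
      exact ⟨(r : Q), hr, rfl⟩) (Lin ρ Q) (hlt g hg)
    -- sum over `P`
    obtain ⟨n, hn⟩ := IsPGroup.iff_card.mp hQp
    have hμC : ∀ x : Q, (((μ x)⁻¹ : ℂˣ) : ℂ) ^ p ^ n = 1 := by
      intro x
      rw [← Units.val_pow_eq_pow_val, inv_pow, ← map_pow, ← hn, pow_card_eq_one', map_one, inv_one,
        Units.val_one]
    have hμB : ∀ x : Q, (((μ x)⁻¹ : ℂˣ) : ℂ) ∈ B := fun x =>
      hmemB _ _ (pow_ne_zero n hp.ne_zero) (hμC x)
    have hproj := proj_eq_zero_of_notMem ρ Q μ hμ (ρ g w)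
    rw [proj_apply] at hproj
    have hcard : (Nat.card Q : ℂ) ≠ 0 := Nat.cast_ne_zero.mpr Nat.card_pos.ne'
    have hsum := (smul_eq_zero.mp hproj).resolve_left (inv_ne_zero hcard)
    let F : Q → ℂ := fun x => (((μ x)⁻¹ : ℂˣ) : ℂ) * ξ (ρ (h * (x : G) * g) w)
    have hF0 : ∑ x : Q, F x = 0 := by
      have h1 := congrArg (fun z => ξ (ρ h z)) hsum
      simp only [map_sum, map_smul, smul_eq_mul, map_zero] at h1
      rw [← h1]
      refine Finset.sum_congr rfl (fun x _ => ?_)
      simp only [F, map_mul, Module.End.mul_apply]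
    have hFinv : ∀ x : Q, ∀ r : Q, g⁻¹ * (r : G) * g ∈ Q → F (x * r) = F x := by
      intro x r hr
      have hrR : r ∈ R := by
        rw [Subgroup.mem_subgroupOf, hmemconj]
        exact hr
      have h1 : h * ((x * r : Q) : G) * g = h * (x : G) * g * (g⁻¹ * (r : G) * g) := by
        rw [Subgroup.coe_mul]; group
      have h2 : ((μ r : ℂˣ) : ℂ) = ((ν ⟨g⁻¹ * (r : G) * g, hQN hr⟩ : ℂˣ) : ℂ) :=
        congrArg Units.val (hμR ⟨r, hrR⟩)
      simp only [F]
      rw [h1, map_mul ρ (h * (x : G) * g), Module.End.mul_apply, hw ⟨_, hQN hr⟩, map_smul,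
        map_smul, smul_eq_mul, ← h2, map_mul, mul_inv, Units.val_mul]
      have h3 : (((μ r)⁻¹ : ℂˣ) : ℂ) * ((μ r : ℂˣ) : ℂ) = 1 := by
        rw [← Units.val_mul, inv_mul_cancel, Units.val_one]
      calc _ = ((((μ r)⁻¹ : ℂˣ) : ℂ) * ((μ r : ℂˣ) : ℂ)) *
            ((((μ x)⁻¹ : ℂˣ) : ℂ) * ξ (ρ (h * (x : G) * g) w)) := by ring
        _ = _ := by rw [h3, one_mul]
    have h4 := sum_orbit_eq_zero Q g F hFinv hF0
    -- reduce
    have h5 : ∑ q : Q ⧸ (MulAut.conj g • Q).subgroupOf Q,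
        (⟨_, hμB q.out⟩ : B) * Φ (h * (q.out : G) * g) = 0 := by
      apply Subtype.ext
      have h6 : ((∑ q : Q ⧸ (MulAut.conj g • Q).subgroupOf Q,
          (⟨_, hμB q.out⟩ : B) * Φ (h * (q.out : G) * g) : B) : ℂ) =
          ∑ q : Q ⧸ (MulAut.conj g • Q).subgroupOf Q, F q.out := by
        rw [AddSubmonoidClass.coe_finsetSum]
        rfl
      rw [h6, h4]
      rfl
    have h7 := congrArg res h5
    rw [map_sum, map_zero] at h7
    rw [← h7]
    refine Finset.sum_congr rfl (fun q _ => ?_)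
    rw [map_mul, hroot _ (hμB q.out) n (hμC q.out), one_mul]
  -- functions on `G / P`
  let f : G → (G ⧸ Q) → κ := fun h q => φ (h * q.out)
  have hf : ∀ (h g : G), f h (g : G ⧸ Q) = φ (h * g) := by
    intro h g
    have h1 : ((((g : G ⧸ Q).out : G)) : G ⧸ Q) = (g : G ⧸ Q) := Quotient.out_eq _
    have h2 : ((g : G ⧸ Q).out)⁻¹ * g ∈ Q := QuotientGroup.eq.mp h1
    have h3 := hφN (h * (g : G ⧸ Q).out) _ (hQN h2)
    rw [mul_assoc, mul_inv_cancel_left] at h3
    exact h3.symm
  have htrans : ∀ h : G, ∑ q : G ⧸ Q, f h q = ∑ q : G ⧸ Q, f 1 q := by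
    intro h
    refine Fintype.sum_equiv (MulAction.toPerm h) _ _ (fun q => ?_)
    obtain ⟨g, rfl⟩ := QuotientGroup.mk_surjective q
    have h1 : (MulAction.toPerm h : Equiv.Perm (G ⧸ Q)) (g : G ⧸ Q) = ((h * g : G) : G ⧸ Q) := rfl
    rw [h1, hf, hf, one_mul]
  -- split the sum into fixed points and the rest
  let X : Finset (G ⧸ Q) := univ.filter (fun q => q ∈ MulAction.fixedPoints Q (G ⧸ Q))
  have hXN : ∀ g : G, (g : G ⧸ Q) ∈ X ↔ g ∈ N := by
    intro g
    simp only [X, Finset.mem_filter, Finset.mem_univ, true_and, MulAction.mem_fixedPoints]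
    constructor
    · intro h
      by_contra hg
      apply hproper g hg
      rw [Subgroup.subgroupOf_eq_top]
      intro x hx
      rw [hmemconj]
      have h1 : (((x * g : G)) : G ⧸ Q) = (g : G ⧸ Q) := h ⟨x, hx⟩
      have h2 : (x * g)⁻¹ * g ∈ Q := QuotientGroup.eq.mp h1
      have h3 := Q.inv_mem h2
      simpa [mul_assoc] using h3
    · intro hg x
      change (((x : G) * g : G) : G ⧸ Q) = (g : G ⧸ Q)
      rw [QuotientGroup.eq]
      have h1 := (Subgroup.mem_normalizer_iff.mp (hN ▸ N.inv_mem hg) (x : G)).mp x.2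
      have h2 := Q.inv_mem h1
      simpa [mul_assoc] using h2
  have hrest : ∀ h : G, ∑ q ∈ univ.filter (fun q => q ∉ X), f h q = 0 := by
    intro h
    have : Fintype (MulAction.orbitRel.Quotient Q (G ⧸ Q)) := Fintype.ofFinite _
    rw [← Finset.sum_fiberwise (univ.filter (fun q => q ∉ X))
      (fun q : G ⧸ Q => (Quotient.mk'' q : MulAction.orbitRel.Quotient Q (G ⧸ Q))) (f h)]
    refine Finset.sum_eq_zero (fun ω _ => ?_)
    by_cases hω : ∃ q0 : G ⧸ Q, q0 ∉ X ∧
        (Quotient.mk'' q0 : MulAction.orbitRel.Quotient Q (G ⧸ Q)) = ω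
    · obtain ⟨q0, hq0, rfl⟩ := hω
      obtain ⟨g, rfl⟩ := QuotientGroup.mk_surjective q0
      have hg : g ∉ N := fun hg => hq0 ((hXN g).mpr hg)
      have : Fintype (Q ⧸ (MulAut.conj g • Q).subgroupOf Q) := Fintype.ofFinite _
      rw [← hkey h g hg]
      symm
      -- bijection between cosets and the orbit
      refine Finset.sum_bij (fun q _ => (((q.out : Q) : G) * g : G ⧸ Q)) ?_ ?_ ?_ ?_
      · intro q _
        rw [Finset.mem_filter, Finset.mem_filter]
        refine ⟨⟨Finset.mem_univ _, ?_⟩, ?_⟩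
        · change ¬ ((((q.out : Q) : G) * g : G) : G ⧸ Q) ∈ X
          rw [hXN]
          intro h2
          apply hg
          have := N.mul_mem (N.inv_mem (hQN (q.out : Q).2)) h2
          rwa [inv_mul_cancel_left] at this
        · apply Quotient.sound
          exact ⟨(q.out : Q), rfl⟩
      · intro q1 _ q2 _ h12
        have h2 : (((q1.out : Q) : G) * g)⁻¹ * (((q2.out : Q) : G) * g) ∈ Q :=
          QuotientGroup.eq.mp h12
        have h3 : (q1.out)⁻¹ * q2.out ∈ (MulAut.conj g • Q).subgroupOf Q := by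
          rw [Subgroup.mem_subgroupOf, hmemconj]
          have h4 : g⁻¹ * (((q1.out)⁻¹ * q2.out : Q) : G) * g =
              (((q1.out : Q) : G) * g)⁻¹ * (((q2.out : Q) : G) * g) := by
            push_cast
            group
          rw [h4]
          exact h2
        have h5 : ((q1.out : Q) : Q ⧸ (MulAut.conj g • Q).subgroupOf Q) =
            ((q2.out : Q) : Q ⧸ (MulAut.conj g • Q).subgroupOf Q) := QuotientGroup.eq.mpr h3
        rwa [QuotientGroup.out_eq', QuotientGroup.out_eq'] at h5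
      · intro q hq
        rw [Finset.mem_filter] at hq
        have h2 : q ∈ MulAction.orbit Q (g : G ⧸ Q) := MulAction.orbitRel_apply.mp
          (Quotient.exact hq.2)
        obtain ⟨x, hx⟩ := h2
        refine ⟨(x : Q ⧸ (MulAut.conj g • Q).subgroupOf Q), Finset.mem_univ _, ?_⟩
        rw [← hx]
        change (((((x : Q ⧸ (MulAut.conj g • Q).subgroupOf Q).out : Q) : G) * g : G) : G ⧸ Q) =
          (((x : G) * g : G) : G ⧸ Q)
        rw [QuotientGroup.eq]
        have h3 : ((((x : Q ⧸ (MulAut.conj g • Q).subgroupOf Q)).out : Q) :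
            Q ⧸ (MulAut.conj g • Q).subgroupOf Q) = (x : Q ⧸ (MulAut.conj g • Q).subgroupOf Q) :=
          QuotientGroup.out_eq' _
        have h4 := QuotientGroup.eq.mp h3
        rw [Subgroup.mem_subgroupOf, hmemconj] at h4
        have h5 : ((((x : Q ⧸ (MulAut.conj g • Q).subgroupOf Q).out : Q) : G) * g)⁻¹ *
            ((x : G) * g) = g⁻¹ * ((((x : Q ⧸ (MulAut.conj g • Q).subgroupOf Q).out)⁻¹ * x : Q) :
              G) * g := by
          push_cast
          group
        rw [h5]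
        exact h4
      · intro q _
        change φ (h * ((q.out : Q) : G) * g) = f h ((((q.out : Q) : G) * g : G) : G ⧸ Q)
        rw [hf, mul_assoc]
    · refine Finset.sum_eq_zero (fun q hq => ?_)
      rw [Finset.mem_filter, Finset.mem_filter] at hq
      exact absurd ⟨q, hq.1.2, hq.2⟩ hω
  have hsplit : ∀ h : G, ∑ q : G ⧸ Q, f h q = (X.card : κ) * φ h := by
    intro h
    have h1 := Finset.sum_filter_add_sum_filter_not univ (fun q => q ∈ X) (f h)
    rw [← h1, hrest h, add_zero]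
    have h2 : ∀ q ∈ univ.filter (fun q => q ∈ X), f h q = φ h := by
      intro q hq
      rw [Finset.mem_filter] at hq
      obtain ⟨g, rfl⟩ := QuotientGroup.mk_surjective q
      rw [hf]
      exact hφN h g ((hXN g).mp hq.2)
    rw [Finset.sum_congr rfl h2, Finset.sum_const, nsmul_eq_mul]
    congr 2
    congr 1
    ext q
    simp
  have hXcard : (X.card : κ) ≠ 0 := by
    have h1 := hQp.card_modEq_card_fixedPoints (G ⧸ Q)
    have h2 : Nat.card (G ⧸ Q) = Q.index := rfl
    have h3 : ¬ p ∣ Q.index := hQi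
    have h4 : X.card = Nat.card (MulAction.fixedPoints Q (G ⧸ Q)) := by
      rw [Nat.card_coe_set_eq, ← Set.ncard_coe_finset]
      congr 1
      ext q
      simp [X]
    rw [← h4, h2] at h1
    intro h5
    have : CharP κ p := (CharP.charP_iff_prime_eq_zero hp).mpr hpκ
    rw [CharP.cast_eq_zero_iff κ p] at h5
    exact h3 ((Nat.ModEq.dvd_iff h1 dvd_rfl).mpr h5)
  have h1 : (X.card : κ) * φ g0 = (X.card : κ) * φ 1 := by
    rw [← hsplit, ← hsplit, htrans g0]
  have h2 : φ g0 = φ 1 := mul_left_cancel₀ hXcard h1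
  have h3 : φ 1 = 0 := by
    have : Φ 1 = 0 := Subtype.ext (by simpa [Φ] using hξw0)
    change res (Φ 1) = 0
    rw [this, map_zero]
  have h4 : φ g0 = 1 := by
    have : Φ g0 = 1 := Subtype.ext (by simpa [Φ] using hξg0)
    change res (Φ g0) = 1
    rw [this, map_one]
  rw [h4, h3] at h2
  exact one_ne_zero h2

/-- Theorem C. -/
theorem theoremC [Finite G] [FiniteDimensional ℂ V] {p : ℕ} [Fact p.Prime]
    (P : Sylow p G) (ρ : Representation ℂ G V) (hρ : ρ.IsIrreducible)
    (hdim : 1 < finrank ℂ V)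
    (ν : Subgroup.normalizer ((P : Subgroup G) : Set G) →* ℂˣ)
    (hν : ν ∈ Lin ρ (Subgroup.normalizer ((P : Subgroup G) : Set G)))
    (hνp : ∃ n : ℕ, ∀ x, ν x ^ p ^ n = 1)
    (hνf : ∀ (y : G) (hy : y ∈ (P : Subgroup G)) (g : G),
      g * y * g⁻¹ ∈ ⁅(P : Subgroup G), (P : Subgroup G)⁆ →
      ν ⟨y, Subgroup.le_normalizer hy⟩ = 1) :
    ∃ g : G, g ∉ Subgroup.normalizer ((P : Subgroup G) : Set G) ∧
      p ≤ ((P : Subgroup G) ⊓ (MulAut.conj g • (P : Subgroup G)) ⊔
        ⁅(P : Subgroup G), (P : Subgroup G)⁆).relIndex P ∧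
      ((P : Subgroup G) ⊓ (MulAut.conj g • (P : Subgroup G)) ⊔
        ⁅(P : Subgroup G), (P : Subgroup G)⁆).relIndex P ≤ (Lin ρ (P : Subgroup G)).ncard :=
  theoremC_aux (P : Subgroup G) P.isPGroup' P.not_dvd_index ρ hρ hdim _ rfl
    Subgroup.le_normalizer ν hν hνp hνf

end Main

end Pool.Agent.H.MP_7d3ffc_al
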