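import Mathlib
import Pool.Agent.H.MP_7d3ffc_al.ThmC
import Pool.Agent.H.MP_7d3ffc_al.TraceE

/-!
Linear constituents and central characters: if the central character of `χ` at the class of `g` is
a unit at a place above `p`, there are at least `|P : P' C_P(h)|` linear constituents for some
conjugate `h` of `g`.
-/

namespace Pool.Agent.H.MP_7d3ffc_al

open Finset Module
open scoped Pointwise commutatorElement

section Orbits

variable {Γ₀ : Type*} [LinearOrderedCommGroupWithZero Γ₀]

/-- Ultrametric estimate for a sum by orbits. -/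
theorem val_sum_orbits_lt {P Ω : Type*} [Group P] [Finite P] [MulAction P Ω] [Fintype Ω]
    (v : Valuation ℂ Γ₀) (F : Ω → ℂ) (c : Γ₀) (hc : c ≠ 0)
    (h : ∀ b : Ω, ∀ [Fintype (P ⧸ MulAction.stabilizer P b)],
      v (∑ q : P ⧸ MulAction.stabilizer P b, F ((q.out : P) • b)) < c) :
    v (∑ b, F b) < c := by
  classical
  have : Fintype (MulAction.orbitRel.Quotient P Ω) := Fintype.ofFinite _
  rw [← Finset.sum_fiberwise univ
    (fun b : Ω => (Quotient.mk'' b : MulAction.orbitRel.Quotient P Ω)) F]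
  refine v.map_sum_lt hc (fun ω _ => ?_)
  obtain ⟨b0, rfl⟩ := Quotient.exists_rep ω
  have : Fintype (P ⧸ MulAction.stabilizer P b0) := Fintype.ofFinite _
  have h1 : ∑ q : P ⧸ MulAction.stabilizer P b0, F ((q.out : P) • b0) =
      ∑ b ∈ univ.filter (fun b : Ω => (Quotient.mk'' b : MulAction.orbitRel.Quotient P Ω) =
        Quotient.mk _ b0), F b := by
    refine Finset.sum_bij (fun q _ => (q.out : P) • b0) ?_ ?_ ?_ ?_
    · intro q _
      rw [Finset.mem_filter]
      exact ⟨Finset.mem_univ _, Quotient.sound ⟨(q.out : P), rfl⟩⟩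
    · intro q1 _ q2 _ h12
      have h2 : (q1.out)⁻¹ * q2.out ∈ MulAction.stabilizer P b0 := by
        rw [MulAction.mem_stabilizer_iff, mul_smul, ← h12, inv_smul_smul]
      have h3 : ((q1.out : P) : P ⧸ MulAction.stabilizer P b0) = q2.out := QuotientGroup.eq.mpr h2
      rwa [QuotientGroup.out_eq', QuotientGroup.out_eq'] at h3
    · intro b hb
      rw [Finset.mem_filter] at hb
      obtain ⟨y, hy⟩ : b ∈ MulAction.orbit P b0 := MulAction.orbitRel_apply.mp
        (Quotient.exact hb.2)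
      refine ⟨(y : P ⧸ MulAction.stabilizer P b0), Finset.mem_univ _, ?_⟩
      have h3 : (((y : P ⧸ MulAction.stabilizer P b0)).out : P ⧸ MulAction.stabilizer P b0) =
        (y : P ⧸ MulAction.stabilizer P b0) := QuotientGroup.out_eq' _
      have h4 := QuotientGroup.eq.mp h3
      rw [MulAction.mem_stabilizer_iff, mul_smul, inv_smul_eq_iff] at h4
      rw [← h4]
      exact hy
    · intro q _
      rfl
  rw [← h1]
  exact h b0

end Orbits

/-- `p`-power roots of unity are congruent to one. -/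
theorem val_one_sub_lt_one {p : ℕ} (hp : p.Prime) (B : ValuationSubring ℂ)
    (hB : B.valuation (p : ℂ) < 1) {z : ℂ} {n : ℕ} (hz : z ^ p ^ n = 1) :
    B.valuation (1 - z) < 1 := by
  have hzB : z ∈ B := by
    rw [← ValuationSubring.valuation_le_one_iff]
    exact (val_rootOfUnity B.valuation (pow_ne_zero n hp.ne_zero) hz).le
  have hpκ : (p : IsLocalRing.ResidueField B) = 0 := by
    have h1 : (p : IsLocalRing.ResidueField B) = IsLocalRing.residue B (p : B) := by simp
    rw [h1, IsLocalRing.residue_eq_zero_iff, ValuationSubring.valuation_lt_one_iff]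
    simpa using hB
  have h1 : IsLocalRing.residue B ⟨z, hzB⟩ = 1 := by
    refine residue_root hp hpκ _ n ?_
    rw [← map_pow]
    have : (⟨z, hzB⟩ : B) ^ p ^ n = 1 := Subtype.ext (by simpa using hz)
    rw [this, map_one]
  have h2 : IsLocalRing.residue B (1 - ⟨z, hzB⟩) = 0 := by
    rw [map_sub, map_one, h1, sub_self]
  rw [IsLocalRing.residue_eq_zero_iff, ValuationSubring.valuation_lt_one_iff] at h2
  simpa using h2

variable {G : Type*} [Group G] {V : Type*} [AddCommGroup V] [Module ℂ V]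

/-- The class sum acts as a scalar. -/
theorem class_sum_smul [Fintype G] [FiniteDimensional ℂ V] (ρ : Representation ℂ G V)
    (hρ : ρ.IsIrreducible) (g : G) (hd : (finrank ℂ V : ℂ) ≠ 0)
    [Fintype (G ⧸ Subgroup.centralizer {g})] (y : V) :
    ∑ q : G ⧸ Subgroup.centralizer {g}, ρ (q.out * g * q.out⁻¹) y =
      (((Subgroup.centralizer {g}).index : ℂ) * ρ.character g / finrank ℂ V) • y := by
  classical
  obtain ⟨c, hc, hc2⟩ := schur_general ρ hρ (ρ g)
  have h1 : ∀ x : G, (ρ x ∘ₗ ρ g ∘ₗ ρ x⁻¹) = ρ (x * g * x⁻¹) := by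
    intro x
    rw [map_mul, map_mul, mul_assoc]
    rfl
  have h2 : ∑ x : G, ρ (x * g * x⁻¹) y = c • y := by
    have h3 := congrArg (fun f : V →ₗ[ℂ] V => f y) hc
    simp only [h1] at h3
    rw [LinearMap.sum_apply] at h3
    simpa using h3
  have h3 := sum_eq_card_smul_sum_quotient (Subgroup.centralizer {g})
    (fun x : G => ρ (x * g * x⁻¹) y) (by
      intro x d hd
      have h4 : d * g = g * d := (Subgroup.mem_centralizer_singleton_iff.mp hd)
      have h5 : x * d * g * (x * d)⁻¹ = x * g * x⁻¹ := by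
        rw [mul_inv_rev, mul_assoc x d g, h4]
        group
      rw [h5])
  rw [h2, ← Nat.cast_smul_eq_nsmul ℂ] at h3
  have hC : (Nat.card (Subgroup.centralizer {g} : Subgroup G) : ℂ) ≠ 0 :=
    Nat.cast_ne_zero.mpr Nat.card_pos.ne'
  have hG : (Nat.card G : ℂ) = Nat.card (Subgroup.centralizer {g} : Subgroup G) *
      (Subgroup.centralizer {g}).index := by
    rw [← Nat.cast_mul, Subgroup.card_mul_index]
  have h6 : c = (Nat.card (Subgroup.centralizer {g} : Subgroup G) : ℂ) *
      (((Subgroup.centralizer {g}).index : ℂ) * ρ.character g / finrank ℂ V) := by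
    have h7 : c * (finrank ℂ V : ℂ) = (Nat.card G : ℂ) * ρ.character g := hc2
    rw [eq_div_of_mul_eq hd h7, hG]
    ring
  rw [h6, mul_smul] at h3
  exact (smul_right_injective V hC h3).symm

/-- The main theorem on central characters. -/
theorem card_lin_ge_of_unit [Finite G] [FiniteDimensional ℂ V] {p : ℕ} [Fact p.Prime]
    (Q : Subgroup G) (hQ : IsPGroup p Q) (ρ : Representation ℂ G V) (hρ : ρ.IsIrreducible)
    (B : ValuationSubring ℂ) (hB : B.valuation (p : ℂ) < 1) (g : G)
    (hg : B.valuation (((Subgroup.centralizer {g}).index : ℂ) * ρ.character g / finrank ℂ V) = 1)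
    (hne : (Lin ρ Q).Nonempty) :
    ∃ h : G, IsConj g h ∧
      ((Subgroup.centralizer {h}).subgroupOf Q ⊔ commutator Q).index ≤ (Lin ρ Q).ncard := by
  classical
  have hp : p.Prime := Fact.out
  have : Fintype G := Fintype.ofFinite _
  have : Fintype Q := Fintype.ofFinite _
  set v := B.valuation with hvdef
  obtain ⟨lam, hlam⟩ := hne
  obtain ⟨w, hw0, hw⟩ := (mem_Lin_iff ρ Q lam).mp hlam
  have hdeg0 : (finrank ℂ V : ℂ) ≠ 0 := by
    rw [Nat.cast_ne_zero]
    intro h
    have : Subsingleton V := (finrank_zero_iff (R := ℂ) (M := V)).mp h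
    exact hw0 (Subsingleton.elim _ _)
  obtain ⟨n, hn⟩ := IsPGroup.iff_card.mp hQ
  by_contra hcon
  push Not at hcon
  -- a functional
  obtain ⟨ξ0, hξ0⟩ : ∃ ξ : Module.Dual ℂ V, ξ w ≠ 0 := by
    by_contra h
    push Not at h
    exact hw0 ((Module.forall_dual_apply_eq_zero_iff ℂ w).mp h)
  have hξ0ne : ξ0 ≠ 0 := by
    rintro rfl
    exact hξ0 rfl
  obtain ⟨g0, hg0⟩ := Finite.exists_max (fun g : G => v (ξ0 (ρ g w)))
  have hg0ne : ξ0 (ρ g0 w) ≠ 0 := by
    intro h
    have := hg0 1
    rw [h, map_zero, le_zero_iff, map_eq_zero] at this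
    exact hξ0 (by simpa using this)
  set ξ : V →ₗ[ℂ] ℂ := (ξ0 (ρ g0 w))⁻¹ • ξ0 with hξdef
  have hξg0 : ξ (ρ g0 w) = 1 := by
    simp only [hξdef, LinearMap.smul_apply, smul_eq_mul]
    exact inv_mul_cancel₀ hg0ne
  have hξM : ∀ g : G, v (ξ (ρ g w)) ≤ 1 := by
    intro g
    simp only [hξdef, LinearMap.smul_apply, smul_eq_mul, map_mul, map_inv₀]
    have hpos : 0 < v (ξ0 (ρ g0 w)) := by rw [Valuation.pos_iff]; exact hg0ne
    rw [inv_mul_le_iff₀ hpos, mul_one]
    exact hg0 g
  -- the class sum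
  have : Fintype (G ⧸ Subgroup.centralizer {g}) := Fintype.ofFinite _
  let F : G ⧸ Subgroup.centralizer {g} → ℂ := fun q => ξ (ρ g0 (ρ (q.out * g * q.out⁻¹) w))
  have hF : ∀ x : G, F (x : G ⧸ Subgroup.centralizer {g}) = ξ (ρ g0 (ρ (x * g * x⁻¹) w)) := by
    intro x
    have h1 : (((x : G ⧸ Subgroup.centralizer {g}).out : G) : G ⧸ Subgroup.centralizer {g}) =
        (x : G ⧸ Subgroup.centralizer {g}) := QuotientGroup.out_eq' _
    have h2 := QuotientGroup.eq.mp h1
    set o := (x : G ⧸ Subgroup.centralizer {g}).out with ho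
    have h3 : o⁻¹ * x * g = g * (o⁻¹ * x) := (Subgroup.mem_centralizer_singleton_iff.mp h2)
    have h4 : x * g * x⁻¹ = o * g * o⁻¹ := by
      calc x * g * x⁻¹ = o * (o⁻¹ * x * g) * x⁻¹ := by group
        _ = o * (g * (o⁻¹ * x)) * x⁻¹ := by rw [h3]
        _ = o * g * o⁻¹ := by group
    change ξ (ρ g0 (ρ (o * g * o⁻¹) w)) = _
    rw [h4]
  have hsum : ∑ q, F q = ((Subgroup.centralizer {g}).index : ℂ) * ρ.character g / finrank ℂ V := by
    have h1 := congrArg (fun y => ξ (ρ g0 y)) (class_sum_smul ρ hρ g hdeg0 w)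
    simp only [map_sum, map_smul, hξg0, smul_eq_mul, mul_one] at h1
    exact h1
  have hlt : v (∑ q, F q) < 1 := by
    refine val_sum_orbits_lt (P := Q) v F 1 one_ne_zero (fun b _ => ?_)
    obtain ⟨x, rfl⟩ := QuotientGroup.mk_surjective b
    set h : G := x * g * x⁻¹ with hh
    have hconj : IsConj g h := isConj_iff.mpr ⟨x, rfl⟩
    -- the stabilizer
    have hstab : ∀ r : Q, r ∈ MulAction.stabilizer Q (x : G ⧸ Subgroup.centralizer {g}) ↔
        (r : G) * h = h * r := by
      intro r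
      rw [MulAction.mem_stabilizer_iff]
      have h1 : r • (x : G ⧸ Subgroup.centralizer {g}) =
        (((r : G) * x : G) : G ⧸ Subgroup.centralizer {g}) := rfl
      rw [h1, QuotientGroup.eq, Subgroup.mem_centralizer_singleton_iff, hh]
      constructor
      · intro h2
        have h3 : ((r : G) * x)⁻¹ * x * g = g * (((r : G) * x)⁻¹ * x) := h2
        have h4 : (r : G) * (x * g * x⁻¹) = (x * g * x⁻¹) * r := by
          have h5 := congrArg (fun z => (r : G) * x * z * (x⁻¹ * r)) h3
          have e1 : (r : G) * x * (((r : G) * x)⁻¹ * x * g) * (x⁻¹ * r) = x * g * x⁻¹ * r := by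
            group
          have e2 : (r : G) * x * (g * (((r : G) * x)⁻¹ * x)) * (x⁻¹ * r) =
              (r : G) * (x * g * x⁻¹) := by
            group
          rw [e1, e2] at h5
          exact h5.symm
        exact h4
      · intro h2
        have h3 : ((r : G) * x)⁻¹ * x * g = g * (((r : G) * x)⁻¹ * x) := by
          have h5 := congrArg (fun z => x⁻¹ * (r : G)⁻¹ * z * (r : G)⁻¹ * x) h2
          have e1 : x⁻¹ * (r : G)⁻¹ * ((r : G) * (x * g * x⁻¹)) * (r : G)⁻¹ * x =
              g * (((r : G) * x)⁻¹ * x) := by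
            group
          have e2 : x⁻¹ * (r : G)⁻¹ * ((x * g * x⁻¹) * r) * (r : G)⁻¹ * x =
              ((r : G) * x)⁻¹ * x * g := by
            group
          rw [e1, e2] at h5
          exact h5.symm
        exact h3
    suffices key : ∀ (R : Subgroup Q) [Fintype (Q ⧸ R)],
        R = MulAction.stabilizer Q (x : G ⧸ Subgroup.centralizer {g}) →
        v (∑ q : Q ⧸ R, F ((q.out : Q) • (x : G ⧸ Subgroup.centralizer {g}))) < 1 from
      key _ rfl
    intro R _ hR
    rw [← hR] at hstab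
    have hRC : R = (Subgroup.centralizer {h}).subgroupOf Q := by
      ext r
      rw [hstab, Subgroup.mem_subgroupOf, Subgroup.mem_centralizer_singleton_iff]
    -- an extension of `lam` on `R` outside `Lin`
    obtain ⟨μ, hμ, hμR⟩ := exists_extension R (lam.comp R.subtype) (by
      intro r hr
      have h1 : commutator Q ≤ lam.ker := Abelianization.commutator_subset_ker lam
      exact h1 hr) (Lin ρ Q) (by rw [hRC]; exact hcon h hconj)
    set z : V := ρ h w with hz
    have hzR : ∀ r ∈ R, ρ ((r : Q) : G) z = ((lam r : ℂˣ) : ℂ) • z := by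
      intro r hr
      have h1 := (hstab r).mp hr
      rw [hz, ← Module.End.mul_apply, ← map_mul, h1, map_mul, Module.End.mul_apply, hw r, map_smul]
    have hzM : ∀ y : G, v (ξ (ρ y z)) ≤ 1 := by
      intro y
      rw [hz, ← Module.End.mul_apply, ← map_mul]
      exact hξM _
    have hproj := proj_eq_zero_of_notMem ρ Q μ hμ z
    rw [proj_apply] at hproj
    have hcard : (Nat.card Q : ℂ) ≠ 0 := Nat.cast_ne_zero.mpr Nat.card_pos.ne'
    have hsum2 := (smul_eq_zero.mp hproj).resolve_left (inv_ne_zero hcard)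
    have h1 := sum_eq_card_smul_sum_quotient R
      (fun y : Q => (((μ y)⁻¹ : ℂˣ) : ℂ) • ρ (y : G) z) (by
        intro y d hd
        have h2 : μ d = lam d := hμR ⟨d, hd⟩
        have h3 : ρ ((y * d : Q) : G) z = ((lam d : ℂˣ) : ℂ) • ρ (y : G) z := by
          rw [Subgroup.coe_mul, map_mul, Module.End.mul_apply, hzR d hd, map_smul]
        rw [h3, smul_smul, map_mul, mul_inv, Units.val_mul, h2, mul_assoc, ← Units.val_mul,
          inv_mul_cancel, Units.val_one, mul_one])
    rw [hsum2, ← Nat.cast_smul_eq_nsmul ℂ] at h1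
    have hRcard : (Nat.card R : ℂ) ≠ 0 := Nat.cast_ne_zero.mpr Nat.card_pos.ne'
    have h2 := (smul_eq_zero.mp h1.symm).resolve_left hRcard
    -- the difference
    have h3 : ∑ q : Q ⧸ R, F ((q.out : Q) • (x : G ⧸ Subgroup.centralizer {g})) =
        ∑ q : Q ⧸ R, ((((lam q.out)⁻¹ : ℂˣ) : ℂ) - (((μ q.out)⁻¹ : ℂˣ) : ℂ)) *
          ξ (ρ (g0 * ((q.out : Q) : G)) z) := by
      have h4 : ∑ q : Q ⧸ R, (((μ q.out)⁻¹ : ℂˣ) : ℂ) * ξ (ρ (g0 * ((q.out : Q) : G)) z) = 0 := by
        have h5 := congrArg (fun y => ξ (ρ g0 y)) h2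
        simp only [map_sum, map_smul, smul_eq_mul, map_zero] at h5
        rw [← h5]
        refine Finset.sum_congr rfl (fun q _ => ?_)
        rw [map_mul, Module.End.mul_apply]
      have h5 : ∀ q : Q ⧸ R, F ((q.out : Q) • (x : G ⧸ Subgroup.centralizer {g})) =
          (((lam q.out)⁻¹ : ℂˣ) : ℂ) * ξ (ρ (g0 * ((q.out : Q) : G)) z) := by
        intro q
        have h6 : (q.out : Q) • (x : G ⧸ Subgroup.centralizer {g}) =
          ((((q.out : Q) : G) * x : G) : G ⧸ Subgroup.centralizer {g}) := rfl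
        rw [h6, hF]
        have h7 : ((q.out : Q) : G) * x * g * (((q.out : Q) : G) * x)⁻¹ =
            ((q.out : Q) : G) * h * ((q.out : Q) : G)⁻¹ := by
          rw [hh]; group
        have h8 : ρ (((q.out : Q) : G)⁻¹) w = (((lam q.out)⁻¹ : ℂˣ) : ℂ) • w := by
          have := hw (q.out)⁻¹
          simpa using this
        have h9 : ρ (((q.out : Q) : G) * h * ((q.out : Q) : G)⁻¹) w =
            (((lam q.out)⁻¹ : ℂˣ) : ℂ) • ρ ((q.out : Q) : G) z := by
          rw [map_mul ρ (((q.out : Q) : G) * h), Module.End.mul_apply, h8, map_smul,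
            map_mul ρ ((q.out : Q) : G) h, Module.End.mul_apply]
        rw [h7, h9, map_smul, map_smul, smul_eq_mul, map_mul ρ g0, Module.End.mul_apply]
      rw [Finset.sum_congr rfl (fun q _ => h5 q)]
      rw [← sub_zero (∑ q : Q ⧸ R, _), ← h4, ← Finset.sum_sub_distrib]
      exact Finset.sum_congr rfl (fun q _ => by ring)
    rw [h3]
    refine v.map_sum_lt one_ne_zero (fun q _ => ?_)
    rw [map_mul]
    refine mul_lt_one_of_nonneg_of_lt_one_left zero_le ?_ (hzM _)
    set y : Q := q.out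
    have h4 : ((((lam y)⁻¹ : ℂˣ) : ℂ) - (((μ y)⁻¹ : ℂˣ) : ℂ)) =
        (((lam y)⁻¹ : ℂˣ) : ℂ) * (1 - ((lam y * (μ y)⁻¹ : ℂˣ) : ℂ)) := by
      rw [mul_sub, mul_one, ← Units.val_mul, inv_mul_cancel_left]
    rw [h4, map_mul]
    have h5 : v (((lam y)⁻¹ : ℂˣ) : ℂ) = 1 := by
      have := val_linear_character v Q lam y⁻¹
      rwa [map_inv] at this
    rw [h5, one_mul]
    refine val_one_sub_lt_one hp B hB (n := n) ?_
    rw [← Units.val_pow_eq_pow_val, mul_pow, inv_pow, ← map_pow, ← map_pow, ← hn,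
      pow_card_eq_one', map_one, map_one, inv_one, mul_one, Units.val_one]
  rw [hsum, hg] at hlt
  exact lt_irrefl _ hlt

end Pool.Agent.H.MP_7d3ffc_al
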