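import Mathlib
import Pool.Agent.H.MP_7d3ffc_al.PGroup

/-!
At least `min p 3` linear constituents under a condition on double cosets.
-/

namespace Pool.Agent.H.MP_7d3ffc_al

open Finset Module
open scoped Pointwise commutatorElement

variable {G : Type*} [Group G] {V : Type*} [AddCommGroup V] [Module ℂ V]

/-- At least `min p 3` linear constituents (general form). -/
theorem theoremB3 [Finite G] [FiniteDimensional ℂ V] {p : ℕ} [Fact p.Prime]
    (P : Subgroup G) (hP : IsPGroup p P) (ρ : Representation ℂ G V) (hρ : ρ.IsIrreducible)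
    (β : ℕ)
    (hβ : ∀ g : G, (MulAut.conj g • P).relIndex ⁅P, P⁆ * (MulAut.conj g⁻¹ • P).relIndex ⁅P, P⁆ ∣
      p ^ β * (MulAut.conj g • P).relIndex P)
    (hdeg : β + padicValNat p P.index < padicValNat p (finrank ℂ V))
    (hne : (Lin ρ P).Nonempty) : min p 3 ≤ (Lin ρ P).ncard := by
  classical
  have hp : p.Prime := Fact.out
  have h1 := theoremB P hP ρ hρ β hβ hne
  set a := padicValNat p (finrank ℂ V) with ha
  set i := padicValNat p P.index with hi
  set k := (Lin ρ P).ncard with hk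
  have h2 : (p - 1) * (β + i + 1) ≤ (p - 1) * a := Nat.mul_le_mul_left _ hdeg
  have h3 : p + 1 ≤ 2 * k := by
    have := hp.two_le
    rw [mul_add] at h2
    omega
  by_contra hlt
  push Not at hlt
  have hk2 : k = 2 := by
    have := hp.two_le
    have h4 : min p 3 ≤ 3 := min_le_right _ _
    have h5 : min p 3 ≤ p := min_le_left _ _
    omega
  have hp2 : p ≠ 2 := by
    rintro rfl
    rw [hk2] at hlt
    omega
  obtain ⟨lam, mu, hlm, hLin⟩ := Set.ncard_eq_two.mp hk2
  obtain ⟨B, hB⟩ := exists_valuation p hp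
  have h4 := two_case hp hp2 B.valuation hB P ρ hρ β hβ lam mu hlm hLin
  have hdeg0 : finrank ℂ V ≠ 0 := by
    intro h
    rw [h] at ha
    simp only [padicValNat_zero_right] at ha
    omega
  rw [val_natCast hp B.valuation hB _ hdeg0,
    val_natCast hp B.valuation hB _ Subgroup.index_ne_zero_of_finite, ← pow_add] at h4
  have hp0 : (0 : B.ValueGroup) < B.valuation (p : ℂ) := by
    rw [Valuation.pos_iff]
    exact Nat.cast_ne_zero.mpr hp.ne_zero
  have h5 := (pow_le_pow_iff_right_of_lt_one₀ hp0 hB).mp h4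
  omega

/-- The divisibility hypothesis relative to the degree implies the general hypothesis. -/
theorem beta_of_dvd [Finite G] {p : ℕ} [Fact p.Prime] (P : Subgroup G) (hP : IsPGroup p P)
    (n : ℕ) (hn : n ≠ 0)
    (h : ∀ g : G, p * ((MulAut.conj g • P).relIndex ⁅P, P⁆ *
      (MulAut.conj g⁻¹ • P).relIndex ⁅P, P⁆) ∣ n * (MulAut.conj g • P).relIndex P) :
    0 < padicValNat p n ∧
    ∀ g : G, (MulAut.conj g • P).relIndex ⁅P, P⁆ * (MulAut.conj g⁻¹ • P).relIndex ⁅P, P⁆ ∣
      p ^ (padicValNat p n - 1) * (MulAut.conj g • P).relIndex P := by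
  have hp : p.Prime := Fact.out
  obtain ⟨m, hm⟩ := pow_padicValNat_dvd (p := p) (n := n)
  have hm' : ¬ p ∣ m := by
    intro hd
    obtain ⟨m2, hm2⟩ := hd
    have h6 : p ^ (padicValNat p n + 1) ∣ n := by
      refine ⟨m2, ?_⟩
      rw [pow_succ, mul_assoc, ← hm2]
      exact hm
    exact pow_succ_padicValNat_not_dvd hn h6
  have hpos : 0 < padicValNat p n := by
    have h1 := h 1
    have hone : MulAut.conj (1 : G) • P = P := by simp
    have hK : P.relIndex ⁅P, P⁆ = 1 :=
      Subgroup.relIndex_eq_one.mpr (Subgroup.commutator_le_self P)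
    rw [inv_one, hone, hK, Subgroup.relIndex_self, mul_one, mul_one, mul_one] at h1
    by_contra h0
    have h0' : padicValNat p n = 0 := by omega
    rw [h0', pow_zero, one_mul] at hm
    exact hm' (hm ▸ h1)
  refine ⟨hpos, fun g => ?_⟩
  obtain ⟨N, hN⟩ := IsPGroup.iff_card.mp hP
  have hKP : Nat.card (⁅P, P⁆ : Subgroup G) ∣ p ^ N := by
    rw [← hN]
    exact Subgroup.card_dvd_of_le (Subgroup.commutator_le_self P)
  obtain ⟨x, _, hx⟩ := (Nat.dvd_prime_pow hp).mp
    (((MulAut.conj g • P).relIndex_dvd_card ⁅P, P⁆).trans hKP)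
  obtain ⟨y, _, hy⟩ := (Nat.dvd_prime_pow hp).mp
    (((MulAut.conj g⁻¹ • P).relIndex_dvd_card ⁅P, P⁆).trans hKP)
  have h1 := h g
  rw [hx, hy] at h1 ⊢
  have hcop : Nat.Coprime (p * (p ^ x * p ^ y)) m := by
    rw [← pow_add, ← pow_succ']
    exact Nat.Coprime.pow_left _ ((Nat.Prime.coprime_iff_not_dvd hp).mpr hm')
  have h2 : p * (p ^ x * p ^ y) ∣ (p ^ padicValNat p n * (MulAut.conj g • P).relIndex P) * m := by
    have h3 : n * (MulAut.conj g • P).relIndex P =
        (p ^ padicValNat p n * (MulAut.conj g • P).relIndex P) * m := by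
      conv_lhs => rw [hm]
      ring
    rw [← h3]
    exact h1
  have h4 := hcop.dvd_of_dvd_mul_right h2
  obtain ⟨a, ha⟩ : ∃ a, padicValNat p n = a + 1 := ⟨padicValNat p n - 1, by omega⟩
  rw [ha, pow_succ', mul_assoc] at h4
  rw [ha, Nat.add_sub_cancel]
  exact Nat.dvd_of_mul_dvd_mul_left hp.pos h4

/-- At least `min p 3` linear constituents, Sylow version. -/
theorem theoremB3_sylow [Finite G] [FiniteDimensional ℂ V] {p : ℕ} [Fact p.Prime]
    (P : Sylow p G) (ρ : Representation ℂ G V) (hρ : ρ.IsIrreducible)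
    (h : ∀ g : G, p * ((MulAut.conj g • (P : Subgroup G)).relIndex ⁅(P : Subgroup G), P⁆ *
      (MulAut.conj g⁻¹ • (P : Subgroup G)).relIndex ⁅(P : Subgroup G), P⁆) ∣
      finrank ℂ V * (MulAut.conj g • (P : Subgroup G)).relIndex P)
    (hne : (Lin ρ (P : Subgroup G)).Nonempty) :
    min p 3 ≤ (Lin ρ (P : Subgroup G)).ncard := by
  have hp : p.Prime := Fact.out
  obtain ⟨lam, hlam⟩ := hne
  obtain ⟨y, hy0, hy⟩ := (mem_Lin_iff ρ _ lam).mp hlam
  have hdeg0 : finrank ℂ V ≠ 0 := by
    intro h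
    have : Subsingleton V := (finrank_zero_iff (R := ℂ) (M := V)).mp h
    exact hy0 (Subsingleton.elim _ _)
  obtain ⟨h1, h2⟩ := beta_of_dvd (P : Subgroup G) P.isPGroup' (finrank ℂ V) hdeg0 h
  refine theoremB3 (P : Subgroup G) P.isPGroup' ρ hρ (padicValNat p (finrank ℂ V) - 1) h2 ?_
    ⟨lam, hlam⟩
  have h3 : padicValNat p (P : Subgroup G).index = 0 :=
    padicValNat.eq_zero_of_not_dvd P.not_dvd_index
  rw [h3]
  omega

end Pool.Agent.H.MP_7d3ffc_al
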