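import Mathlib
import Pool.Agent.H.MP_7d3ffc_al.ThmB3

/-!
Theorem F: a local form of the lower bound for the number of linear constituents.
-/

namespace Pool.Agent.H.MP_7d3ffc_al

open Finset Module
open scoped Pointwise

variable {G : Type*} [Group G] {V : Type*} [AddCommGroup V] [Module ℂ V]
variable {Γ₀ : Type*} [LinearOrderedCommGroupWithZero Γ₀]

/-- The linear constituents of `χ_P` which agree with `lam` on `P ∩ H`. -/
def LinAt (ρ : Representation ℂ G V) (P : Subgroup G) (lam : P →* ℂˣ)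
    (H : Subgroup G) : Set (P →* ℂˣ) :=
  {μ | μ ∈ Lin ρ P ∧ ∀ x : P, (x : G) ∈ H → μ x = lam x}

/-- The `lam`-eigenspace of `P`. -/
def charSub (ρ : Representation ℂ G V) (P : Subgroup G) (lam : P →* ℂˣ) : Submodule ℂ V where
  carrier := {y | ∀ x : P, ρ (x : G) y = ((lam x : ℂˣ) : ℂ) • y}
  zero_mem' := fun x => by simp
  add_mem' := fun {a b} ha hb x => by rw [map_add, ha x, hb x, smul_add]
  smul_mem' := fun c y hy x => by rw [map_smul, hy x, smul_comm]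

theorem mem_charSub {ρ : Representation ℂ G V} {P : Subgroup G} {lam : P →* ℂˣ} {y : V} :
    y ∈ charSub ρ P lam ↔ ∀ x : P, ρ (x : G) y = ((lam x : ℂˣ) : ℂ) • y := Iff.rfl

/-- Averaging over cosets, compatible with a subgroup normalizing everything. -/
theorem exists_average_equivariant [Finite G] (v : Valuation ℂ Γ₀) (ρ : Representation ℂ G V)
    (K H : Subgroup G) (y : V) (hy : ∀ d ∈ K ⊓ H, ρ d y = y) :
    ∃ u : V, (∀ M : Set V, IsLattice v ρ M → y ∈ M → u ∈ M) ∧ (∀ k ∈ K, ρ k u = u) ∧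
      (∀ ξ : V →ₗ[ℂ] ℂ, (∀ k ∈ K, ∀ z, ξ (ρ k z) = ξ z) → ξ u = (H.relIndex K : ℂ) * ξ y) ∧
      ∀ g : G, (∀ k ∈ K, g * k * g⁻¹ ∈ K) → ∀ s : ℂ, ρ g y = s • y → ρ g u = s • u := by
  classical
  have : Fintype K := Fintype.ofFinite _
  have : Fintype (K ⧸ H.subgroupOf K) := Fintype.ofFinite _
  let D : Subgroup K := H.subgroupOf K
  let u : V := ∑ q : K ⧸ H.subgroupOf K, ρ ((q.out : K) : G) y
  have hcard : (Nat.card D : ℂ) ≠ 0 := Nat.cast_ne_zero.mpr Nat.card_pos.ne'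
  have hsum : ∑ k : K, ρ (k : G) y = Nat.card D • u := by
    refine sum_eq_card_smul_sum_quotient D (fun k : K => ρ (k : G) y) ?_
    intro g d hd
    have : ρ (d : G) y = y := hy _ ⟨d.2, hd⟩
    change ρ ((g : G) * (d : G)) y = _
    rw [map_mul, Module.End.mul_apply, this]
  refine ⟨u, fun M hM hyM => hM.sum_mem _ _ (fun q _ => hM.rho_mem _ _ hyM), ?_, ?_, ?_⟩
  · intro k hk
    have h1 : ρ k (∑ k : K, ρ (k : G) y) = ∑ k : K, ρ (k : G) y := by
      rw [map_sum]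
      refine Fintype.sum_equiv (Equiv.mulLeft (⟨k, hk⟩ : K)) _ _ (fun x => ?_)
      simp [map_mul]
    rw [hsum, map_nsmul, ← Nat.cast_smul_eq_nsmul ℂ, ← Nat.cast_smul_eq_nsmul ℂ] at h1
    exact smul_right_injective V hcard h1
  · intro ξ hξ
    have h1 : ξ u = ∑ _q : K ⧸ H.subgroupOf K, ξ y := by
      rw [map_sum]
      exact Finset.sum_congr rfl (fun q _ => hξ _ (q.out).2 y)
    rw [h1, Finset.sum_const, nsmul_eq_mul, Finset.card_univ, ← Nat.card_eq_fintype_card]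
    rfl
  · intro g hg s hs
    let f : K → K := fun k => ⟨g * k * g⁻¹, hg k k.2⟩
    have hf : Function.Bijective f := by
      refine (Finite.injective_iff_bijective).mp (fun a b hab => ?_)
      have h1 : g * (a : G) * g⁻¹ = g * (b : G) * g⁻¹ := congrArg Subtype.val hab
      exact Subtype.ext (mul_left_cancel (mul_right_cancel h1))
    have h1 : ρ g (∑ k : K, ρ (k : G) y) = s • ∑ k : K, ρ (k : G) y := by
      rw [map_sum, Finset.smul_sum]
      refine Fintype.sum_bijective f hf _ _ (fun k => ?_)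
      have h3 : s • ρ ((f k : K) : G) y = ρ ((f k : K) : G) (ρ g y) := by
        rw [hs, map_smul]
      rw [h3, ← Module.End.mul_apply, ← Module.End.mul_apply, ← map_mul, ← map_mul]
      congr 2
      simp [f]
    rw [hsum, map_nsmul, ← Nat.cast_smul_eq_nsmul ℂ, ← Nat.cast_smul_eq_nsmul ℂ,
      smul_comm s] at h1
    exact smul_right_injective V hcard h1

/-- Applying a killing operator for the linear constituents agreeing with `lam` on `P ∩ H`. -/
theorem kill_eigen_local [Finite G] [FiniteDimensional ℂ V] (ρ : Representation ℂ G V)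
    (P H : Subgroup G) (lam : P →* ℂˣ) (D : V →ₗ[ℂ] V) (c : (P →* ℂˣ) → ℂ)
    (hD : ∀ (ν : P →* ℂˣ) (y : V), (∀ x : P, ρ (x : G) y = ((ν x : ℂˣ) : ℂ) • y) → D y = c ν • y)
    (hc : ∀ ν ∈ LinAt ρ P lam H, ν ≠ lam → c ν = 0) (u : V)
    (hu : ∀ x ∈ commutator P, ρ (x : G) u = u)
    (huH : ∀ x : P, (x : G) ∈ H → ρ (x : G) u = ((lam x : ℂˣ) : ℂ) • u)
    (z : P) : ρ (z : G) (D u) = ((lam z : ℂˣ) : ℂ) • D u := by
  classical
  have : Fintype P := Fintype.ofFinite _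
  have : Fintype (P →* ℂˣ) := Fintype.ofFinite _
  have h1 : D u = c lam • proj ρ P lam u := by
    conv_lhs => rw [← sum_proj_eq ρ P u hu, map_sum]
    rw [Finset.sum_eq_single lam]
    · exact hD lam _ (rho_proj ρ P lam u)
    · intro ν _ hν
      by_cases h : ν ∈ Lin ρ P
      · by_cases h' : ∀ x : P, (x : G) ∈ H → ν x = lam x
        · rw [hD ν _ (rho_proj ρ P ν u), hc ν ⟨h, h'⟩ hν, zero_smul]
        · push Not at h'
          obtain ⟨x, hxH, hx⟩ := h'
          have e1 := proj_rho ρ P ν u x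
          rw [huH x hxH, map_smul] at e1
          have e2 : (((lam x : ℂˣ) : ℂ) - ((ν x : ℂˣ) : ℂ)) • proj ρ P ν u = 0 := by
            rw [sub_smul, e1, sub_self]
          rcases smul_eq_zero.mp e2 with e3 | e3
          · exact absurd (Units.ext (sub_eq_zero.mp e3)).symm hx
          · rw [e3, map_zero]
      · rw [proj_eq_zero_of_notMem ρ P ν h, map_zero]
    · intro h
      exact absurd (Finset.mem_univ _) h
  rw [h1, map_smul, rho_proj, smul_comm]

theorem mul_conj_mem_commutator (P : Subgroup G) {x k : G} (hx : x ∈ P) (hk : k ∈ ⁅P, P⁆) :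
    x * k * x⁻¹ ∈ ⁅P, P⁆ := by
  have h := conj_mem_commutator P (P.inv_mem hx) hk
  rwa [inv_inv] at h

theorem aux_pow_one {M : Type*} [CommMonoid M] (q T : M) (i a b s n : ℕ) :
    q ^ (i * n + a + b + s * n) * T ^ (2 * n) =
      (q ^ i * T ^ 2) ^ n * (q ^ a * q ^ b * (q ^ s) ^ n) := by
  rw [mul_pow, ← pow_mul, ← pow_mul, ← pow_mul, pow_add, pow_add, pow_add]
  generalize q ^ (i * n) = x1
  generalize q ^ a = x2
  generalize q ^ b = x3
  generalize q ^ (s * n) = x4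
  generalize T ^ (2 * n) = x5
  ac_rfl

theorem aux_pow_two {M : Type*} [CommMonoid M] (q f g : M) (a r k1 k2 s1 s2 n : ℕ) :
    (q ^ a * (q ^ r * (f * g))) ^ n * (q ^ k1 * q ^ k2 * (q ^ (s1 + s2)) ^ n) =
      q ^ ((a + r) * n) * ((q ^ k1 * (q ^ s1 * g) ^ n) * (q ^ k2 * (q ^ s2 * f) ^ n)) := by
  rw [pow_mul, pow_add q a r, pow_add q s1 s2]
  simp only [mul_pow]
  generalize (q ^ a) ^ n = x1
  generalize (q ^ r) ^ n = x2
  generalize (q ^ s1) ^ n = x3
  generalize (q ^ s2) ^ n = x4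
  generalize f ^ n = x5
  generalize g ^ n = x6
  generalize q ^ k1 = x7
  generalize q ^ k2 = x8
  ac_rfl

/-- The local bound for the matrix coefficients. -/
theorem local_bound [Finite G] [FiniteDimensional ℂ V] {p : ℕ} (hp : p.Prime)
    (v : Valuation ℂ Γ₀) (P : Subgroup G) (hP : IsPGroup p P) (ρ : Representation ℂ G V)
    (M : Set V) (hM : IsLattice v ρ M) (lam : P →* ℂˣ) (hlam : lam ∈ Lin ρ P)
    (ξ : V →ₗ[ℂ] ℂ) (hξ : FunEquiv ρ P lam ξ)
    (w : V) (hw : w ∈ charSub ρ P lam) (hwM : w ∈ M)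
    (hmax : ∀ z ∈ charSub ρ P lam, z ∈ M → v (ξ z) ≤ v (ξ w)) (g : G) :
    v (p : ℂ) ^ ((LinAt ρ P lam (MulAut.conj g • P)).ncard - 1) *
      (v ((MulAut.conj g • P).relIndex ⁅P, P⁆ : ℂ) * v (ξ (ρ g w))) ^ (p - 1) ≤
      v (ξ w) ^ (p - 1) := by
  classical
  have hp1 : p - 1 ≠ 0 := by have := hp.two_le; omega
  by_cases h0 : ξ (ρ g w) = 0
  · rw [h0, map_zero, mul_zero, zero_pow hp1, mul_zero]
    exact zero_le
  have : Fintype (P →* ℂˣ) := Fintype.ofFinite _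
  set K : Subgroup G := ⁅P, P⁆ with hK
  set H : Subgroup G := MulAut.conj g • P with hH
  have hKP : K ≤ P := Subgroup.commutator_le_self _
  have hξK : ∀ k ∈ K, ∀ z, ξ (ρ k z) = ξ z := by
    intro k hk z
    have := hξ ⟨k, hKP hk⟩ z
    rw [lin_commutator P lam k hk (hKP hk)] at this
    simpa using this
  -- elements of `P ∩ H` act on `ρ g w` by `lam`
  have hact : ∀ x : P, (x : G) ∈ H → ρ (x : G) (ρ g w) = ((lam x : ℂˣ) : ℂ) • ρ g w := by
    intro x hx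
    obtain ⟨s, hs⟩ := eigen_conj ρ P lam w hw g x hx
    have h1 := hξ x (ρ g w)
    rw [hs, map_smul, smul_eq_mul] at h1
    have h2 : s = ((lam x : ℂˣ) : ℂ) := mul_right_cancel₀ h0 h1
    rw [hs, h2]
  have hfix : ∀ d ∈ K ⊓ H, ρ d (ρ g w) = ρ g w := by
    rintro d ⟨hdK, hdH⟩
    have := hact ⟨d, hKP hdK⟩ hdH
    rw [lin_commutator P lam d hdK (hKP hdK), Units.val_one, one_smul] at this
    exact this
  obtain ⟨u, huM, huK, huξ, hun⟩ := exists_average_equivariant v ρ K H (ρ g w) hfix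
  have huMM : u ∈ M := huM M hM (hM.rho_mem _ _ hwM)
  have huH : ∀ x : P, (x : G) ∈ H → ρ (x : G) u = ((lam x : ℂˣ) : ℂ) • u := by
    intro x hx
    exact hun x (fun k hk => mul_conj_mem_commutator P x.2 hk) _ (hact x hx)
  obtain ⟨D, c, hDM, hD, hcT, hDξ, hcv⟩ := exists_kill hp v ρ P hP lam
    ((LinAt ρ P lam H).toFinset.erase lam) (Finset.notMem_erase _ _)
  have hlamAt : lam ∈ LinAt ρ P lam H := ⟨hlam, fun x _ => rfl⟩
  have hT : ((LinAt ρ P lam H).toFinset.erase lam).card = (LinAt ρ P lam H).ncard - 1 := by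
    rw [Finset.card_erase_of_mem (Set.mem_toFinset.mpr hlamAt), Set.ncard_eq_toFinset_card']
  rw [hT] at hcv
  have hDu : D u ∈ charSub ρ P lam := by
    refine kill_eigen_local ρ P H lam D c hD ?_ u ?_ huH
    · intro ν hν hne
      exact hcT ν (Finset.mem_erase.mpr ⟨hne, Set.mem_toFinset.mpr hν⟩)
    · intro x hx
      refine huK _ ?_
      rw [hK, ← Subgroup.map_subtype_commutator P]
      exact ⟨x, hx, rfl⟩
  have h1 := hmax _ hDu (hDM M hM u huMM)
  rw [hDξ lam ξ hξ, huξ ξ hξK, map_mul, map_mul] at h1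
  calc v (p : ℂ) ^ ((LinAt ρ P lam H).ncard - 1) *
      (v (H.relIndex K : ℂ) * v (ξ (ρ g w))) ^ (p - 1)
      ≤ v (c lam) ^ (p - 1) * (v (H.relIndex K : ℂ) * v (ξ (ρ g w))) ^ (p - 1) := by gcongr
    _ = (v (c lam) * (v (H.relIndex K : ℂ) * v (ξ (ρ g w)))) ^ (p - 1) := (mul_pow _ _ _).symm
    _ ≤ v (ξ w) ^ (p - 1) := by gcongr

/-- Relative indices of subgroups of a `p`-group. -/
theorem relIndex_eq_pow [Finite G] {p : ℕ} [Fact p.Prime] (P H K : Subgroup G)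
    (hP : IsPGroup p P) (hK : K ≤ P) :
    H.relIndex K = p ^ padicValNat p (H.relIndex K) := by
  have hp : p.Prime := Fact.out
  obtain ⟨N, hN⟩ := IsPGroup.iff_card.mp hP
  have hKP : Nat.card K ∣ p ^ N := by
    rw [← hN]
    exact Subgroup.card_dvd_of_le hK
  obtain ⟨x, _, hx⟩ := (Nat.dvd_prime_pow hp).mp ((H.relIndex_dvd_card K).trans hKP)
  rw [hx, padicValNat.prime_pow]

/-- Theorem F. -/
theorem theoremF [Finite G] [FiniteDimensional ℂ V] {p : ℕ} [Fact p.Prime]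
    (P : Subgroup G) (hP : IsPGroup p P) (ρ : Representation ℂ G V) (hρ : ρ.IsIrreducible)
    (lam : P →* ℂˣ) (hlam : lam ∈ Lin ρ P) :
    ∃ g : G,
      (p - 1) * (padicValNat p (finrank ℂ V) + padicValNat p ((MulAut.conj g • P).relIndex P)) +
        2 ≤
      (LinAt ρ P lam (MulAut.conj g • P)).ncard + (LinAt ρ P lam (MulAut.conj g⁻¹ • P)).ncard +
      (p - 1) * (padicValNat p P.index +
        (padicValNat p ((MulAut.conj g • P).relIndex ⁅P, P⁆) +
          padicValNat p ((MulAut.conj g⁻¹ • P).relIndex ⁅P, P⁆))) := by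
  classical
  have hp : p.Prime := Fact.out
  have : Fintype G := Fintype.ofFinite _
  obtain ⟨B, hB⟩ := exists_valuation p hp
  set v := B.valuation with hvdef
  have : Fintype (P →* ℂˣ) := Fintype.ofFinite _
  obtain ⟨y, hy0, hy⟩ := (mem_Lin_iff ρ _ lam).mp hlam
  obtain ⟨ξ, hξ, hξy⟩ := exists_funEquiv ρ _ lam y hy0 hy
  have hξne : ξ ≠ 0 := by
    rintro rfl
    simp at hξy
  set K : Subgroup G := ⁅P, P⁆ with hK
  have hKP : K ≤ P := Subgroup.commutator_le_self _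
  set M := latticeOf v ρ ξ with hMdef
  have hML : IsLattice v ρ M := isLattice_latticeOf v ρ ξ
  -- a maximizer
  have hsep : ∀ z ∈ charSub ρ P lam, (∀ g : G, (ξ ∘ₗ ρ g) z = 0) → z = 0 := by
    intro z _ hz
    by_contra hz0
    obtain ⟨g, hg⟩ := exists_ne_zero ρ hρ ξ hξne z hz0
    exact hg (hz g)
  obtain ⟨w, hwP, hwM', hmax'⟩ :=
    exists_maximizer v (fun g : G => ξ ∘ₗ ρ g) (charSub ρ P lam) hsep ξ
  have hwM : w ∈ M := hwM'
  have hmax : ∀ z ∈ charSub ρ P lam, z ∈ M → v (ξ z) ≤ v (ξ w) := hmax'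
  have hwne : ξ w ≠ 0 := by
    obtain ⟨g1, hg1⟩ := exists_ne_zero ρ hρ ξ hξne y hy0
    obtain ⟨g0, hg0⟩ := Finite.exists_max (fun g : G => v (ξ (ρ g y)))
    have hg0ne : ξ (ρ g0 y) ≠ 0 := by
      intro h
      have := hg0 g1
      rw [h, map_zero, le_zero_iff, map_eq_zero] at this
      exact hg1 this
    have h1 : (ξ (ρ g0 y))⁻¹ • y ∈ latticeOf v ρ ξ := by
      intro g
      rw [map_smul, map_smul, smul_eq_mul, map_mul, map_inv₀]
      have hpos : 0 < v (ξ (ρ g0 y)) := by rw [Valuation.pos_iff]; exact hg0ne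
      rw [inv_mul_le_iff₀ hpos, mul_one]
      exact hg0 g
    have h2 := hmax _ ((charSub ρ P lam).smul_mem (ξ (ρ g0 y))⁻¹ hy) h1
    intro h3
    rw [h3, map_zero, le_zero_iff, map_eq_zero, map_smul, smul_eq_mul, hξy, mul_one] at h2
    exact (inv_ne_zero hg0ne) h2
  have hT0 : 0 < v (ξ w) := by rw [Valuation.pos_iff]; exact hwne
  -- Schur relation
  obtain ⟨C, hC, hC2⟩ := schur_rank_one ρ hρ ξ w
  let F : G → ℂ := fun g => ξ (ρ g⁻¹ w) * ξ (ρ g w)
  have hsum : ∑ g : G, F g = C * ξ w := by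
    have h2 := congrArg ξ (hC w)
    simp only [map_sum, map_smul, smul_eq_mul] at h2
    exact h2
  have hinv : ∀ x : P, (((lam x)⁻¹ : ℂˣ) : ℂ) * ((lam x : ℂˣ) : ℂ) = 1 := by
    intro x
    rw [← Units.val_mul, inv_mul_cancel, Units.val_one]
  have hweig : ∀ x : P, ρ (x : G) w = ((lam x : ℂˣ) : ℂ) • w := hwP
  have hr : ∀ g : G, ∀ d ∈ P, F (g * d) = F g := by
    intro g d hd
    have e1 : ξ (ρ (g * d) w) = ((lam ⟨d, hd⟩ : ℂˣ) : ℂ) * ξ (ρ g w) := by
      rw [map_mul, Module.End.mul_apply, hweig ⟨d, hd⟩, map_smul, map_smul, smul_eq_mul]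
    have e2 : ξ (ρ (g * d)⁻¹ w) = (((lam ⟨d, hd⟩)⁻¹ : ℂˣ) : ℂ) * ξ (ρ g⁻¹ w) := by
      rw [mul_inv_rev, map_mul, Module.End.mul_apply]
      have := hξ (⟨d, hd⟩⁻¹) (ρ g⁻¹ w)
      simpa using this
    calc F (g * d) = ((((lam ⟨d, hd⟩)⁻¹ : ℂˣ) : ℂ) * ((lam ⟨d, hd⟩ : ℂˣ) : ℂ)) * F g := by
          simp only [F, e1, e2]; ring
      _ = F g := by rw [hinv, one_mul]
  have hl : ∀ g : G, ∀ d ∈ P, F (d * g) = F g := by
    intro g d hd
    have e1 : ξ (ρ (d * g) w) = ((lam ⟨d, hd⟩ : ℂˣ) : ℂ) * ξ (ρ g w) := by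
      rw [map_mul, Module.End.mul_apply]
      exact hξ ⟨d, hd⟩ (ρ g w)
    have e2 : ξ (ρ (d * g)⁻¹ w) = (((lam ⟨d, hd⟩)⁻¹ : ℂˣ) : ℂ) * ξ (ρ g⁻¹ w) := by
      have h3 : ρ d⁻¹ w = (((lam ⟨d, hd⟩)⁻¹ : ℂˣ) : ℂ) • w := by
        have := hweig (⟨d, hd⟩⁻¹)
        simpa using this
      rw [mul_inv_rev, map_mul, Module.End.mul_apply, h3, map_smul, map_smul, smul_eq_mul]
    calc F (d * g) = ((((lam ⟨d, hd⟩)⁻¹ : ℂˣ) : ℂ) * ((lam ⟨d, hd⟩ : ℂˣ) : ℂ)) * F g := by
          simp only [F, e1, e2]; ring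
      _ = F g := by rw [hinv, one_mul]
  -- the largest term
  obtain ⟨g, hg⟩ := Finite.exists_max
    (fun g : G => v ((MulAut.conj g • P).relIndex P : ℂ) * v (F g))
  refine ⟨g, ?_⟩
  have hbound : v (∑ g : G, F g) ≤
      v (Nat.card P : ℂ) * (v ((MulAut.conj g • P).relIndex P : ℂ) * v (F g)) :=
    val_sum_biinvariant_le v P F hr hl _ hg
  have hcard : v (Nat.card G : ℂ) = v (Nat.card P : ℂ) * v (P.index : ℂ) := by
    rw [← map_mul, ← Nat.cast_mul]
    congr 2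
    exact (Subgroup.card_mul_index P).symm
  have hP0 : (0 : B.ValueGroup) < v (Nat.card P : ℂ) := by
    rw [Valuation.pos_iff]
    exact Nat.cast_ne_zero.mpr Nat.card_pos.ne'
  have hp0 : (0 : B.ValueGroup) < v (p : ℂ) := by
    rw [Valuation.pos_iff]
    exact Nat.cast_ne_zero.mpr hp.ne_zero
  have hmain : v (P.index : ℂ) * v (ξ w) ^ 2 ≤
      v (finrank ℂ V : ℂ) * (v ((MulAut.conj g • P).relIndex P : ℂ) * v (F g)) := by
    have h1 : v (Nat.card P : ℂ) * (v (P.index : ℂ) * v (ξ w) ^ 2) =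
        v (∑ g : G, F g) * v (finrank ℂ V : ℂ) := by
      calc v (Nat.card P : ℂ) * (v (P.index : ℂ) * v (ξ w) ^ 2)
          = v (Nat.card G : ℂ) * (v (ξ w) * v (ξ w)) := by
            rw [hcard, pow_two]; simp only [mul_assoc]
        _ = v ((Nat.card G : ℂ) * ξ w * ξ w) := by rw [map_mul, map_mul, mul_assoc]
        _ = v ((∑ g : G, F g) * (finrank ℂ V : ℂ)) := by
            rw [hsum, ← hC2]; congr 1; ring
        _ = _ := map_mul _ _ _
    have h2 : v (Nat.card P : ℂ) * (v (P.index : ℂ) * v (ξ w) ^ 2) ≤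
        v (Nat.card P : ℂ) *
          (v (finrank ℂ V : ℂ) * (v ((MulAut.conj g • P).relIndex P : ℂ) * v (F g))) := by
      rw [h1]
      calc v (∑ g : G, F g) * v (finrank ℂ V : ℂ)
          ≤ (v (Nat.card P : ℂ) * (v ((MulAut.conj g • P).relIndex P : ℂ) * v (F g))) *
            v (finrank ℂ V : ℂ) := by gcongr
        _ = _ := by rw [mul_assoc, mul_comm (v (finrank ℂ V : ℂ))]
    exact le_of_mul_le_mul_left h2 hP0
  have hdeg0 : finrank ℂ V ≠ 0 := by
    intro h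
    have : Subsingleton V := (finrank_zero_iff (R := ℂ) (M := V)).mp h
    exact hy0 (Subsingleton.elim _ _)
  have hdeg : v (finrank ℂ V : ℂ) = v (p : ℂ) ^ padicValNat p (finrank ℂ V) :=
    val_natCast hp v hB _ hdeg0
  have hidx : v (P.index : ℂ) = v (p : ℂ) ^ padicValNat p P.index :=
    val_natCast hp v hB _ Subgroup.index_ne_zero_of_finite
  have hrel : ∀ (H L : Subgroup G), v (H.relIndex L : ℂ) =
      v (p : ℂ) ^ padicValNat p (H.relIndex L) := fun H L =>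
    val_natCast hp v hB _ Subgroup.index_ne_zero_of_finite
  have hb1 := local_bound hp v P hP ρ M hML lam hlam ξ hξ w hwP hwM hmax g
  have hb2 := local_bound hp v P hP ρ M hML lam hlam ξ hξ w hwP hwM hmax g⁻¹
  have hk1 : 0 < (LinAt ρ P lam (MulAut.conj g • P)).ncard :=
    (Set.ncard_pos (Set.toFinite _)).mpr ⟨lam, hlam, fun x _ => rfl⟩
  have hk2 : 0 < (LinAt ρ P lam (MulAut.conj g⁻¹ • P)).ncard :=
    (Set.ncard_pos (Set.toFinite _)).mpr ⟨lam, hlam, fun x _ => rfl⟩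
  rw [hdeg, hidx, hrel] at hmain
  rw [hrel, ← hK] at hb1 hb2
  set k1 := (LinAt ρ P lam (MulAut.conj g • P)).ncard
  set k2 := (LinAt ρ P lam (MulAut.conj g⁻¹ • P)).ncard
  set a := padicValNat p (finrank ℂ V)
  set i := padicValNat p P.index
  set r := padicValNat p ((MulAut.conj g • P).relIndex P)
  set s1 := padicValNat p ((MulAut.conj g • P).relIndex K)
  set s2 := padicValNat p ((MulAut.conj g⁻¹ • P).relIndex K)
  set T := v (ξ w)
  set q := v (p : ℂ)
  have hfinal : q ^ (i * (p - 1) + (k1 - 1) + (k2 - 1) + (s1 + s2) * (p - 1)) * T ^ (2 * (p - 1)) ≤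
      q ^ ((a + r) * (p - 1)) * T ^ (2 * (p - 1)) := by
    calc q ^ (i * (p - 1) + (k1 - 1) + (k2 - 1) + (s1 + s2) * (p - 1)) * T ^ (2 * (p - 1))
        = (q ^ i * T ^ 2) ^ (p - 1) * (q ^ (k1 - 1) * q ^ (k2 - 1) *
            (q ^ (s1 + s2)) ^ (p - 1)) := aux_pow_one _ _ _ _ _ _ _
      _ ≤ (q ^ a * (q ^ r * v (F g))) ^ (p - 1) * (q ^ (k1 - 1) * q ^ (k2 - 1) *
            (q ^ (s1 + s2)) ^ (p - 1)) := by gcongr
      _ = q ^ ((a + r) * (p - 1)) *
          ((q ^ (k1 - 1) * (q ^ s1 * v (ξ (ρ g w))) ^ (p - 1)) *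
            (q ^ (k2 - 1) * (q ^ s2 * v (ξ (ρ g⁻¹ w))) ^ (p - 1))) := by
          have hF : v (F g) = v (ξ (ρ g⁻¹ w)) * v (ξ (ρ g w)) := map_mul _ _ _
          rw [hF]
          exact aux_pow_two _ _ _ _ _ _ _ _ _ _
      _ ≤ q ^ ((a + r) * (p - 1)) * (T ^ (p - 1) * T ^ (p - 1)) := by gcongr
      _ = q ^ ((a + r) * (p - 1)) * T ^ (2 * (p - 1)) := by
          rw [two_mul, pow_add T]
  have hexp := (pow_le_pow_iff_right_of_lt_one₀ hp0 hB).mp
    (le_of_mul_le_mul_right hfinal (pow_pos hT0 _))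
  have e1 : (p - 1) * (a + r) = (a + r) * (p - 1) := mul_comm _ _
  have e2 : (p - 1) * (i + (s1 + s2)) = i * (p - 1) + (s1 + s2) * (p - 1) := by ring
  rw [e1, e2]
  omega

end Pool.Agent.H.MP_7d3ffc_al
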