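import Mathlib
import Pool.Agent.H.MP_7d3ffc_al.ThmF

/-!
Consequences of Theorem F.
-/

namespace Pool.Agent.H.MP_7d3ffc_al

open Finset Module
open scoped Pointwise commutatorElement

variable {G : Type*} [Group G] {V : Type*} [AddCommGroup V] [Module ℂ V]

theorem linAt_ncard_le [Finite G] (ρ : Representation ℂ G V) (P : Subgroup G) (lam : P →* ℂˣ)
    (H : Subgroup G) : (LinAt ρ P lam H).ncard ≤ (Lin ρ P).ncard :=
  Set.ncard_le_ncard (fun _ h => h.1) (Set.toFinite _)

theorem linAt_ncard_eq_one (ρ : Representation ℂ G V) (P : Subgroup G) (lam : P →* ℂˣ)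
    (hlam : lam ∈ Lin ρ P) (H : Subgroup G) (hH : P ≤ H) : (LinAt ρ P lam H).ncard = 1 := by
  rw [Set.ncard_eq_one]
  refine ⟨lam, Set.eq_singleton_iff_unique_mem.mpr ⟨⟨hlam, fun x _ => rfl⟩, fun μ hμ => ?_⟩⟩
  exact MonoidHom.ext (fun x => hμ.2 x (hH x.2))

theorem card_inf_mul_relIndex [Finite G] (H K : Subgroup G) :
    Nat.card (H ⊓ K : Subgroup G) * H.relIndex K = Nat.card K := by
  rw [← Subgroup.relIndex_bot_left, ← Subgroup.relIndex_bot_left, ← Subgroup.inf_relIndex_right H K]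
  exact Subgroup.relIndex_mul_relIndex _ _ _ bot_le inf_le_right

theorem card_conj (P : Subgroup G) (g : G) :
    Nat.card (MulAut.conj g • P : Subgroup G) = Nat.card P :=
  (Nat.card_congr (Subgroup.equivSMul (MulAut.conj g) P).toEquiv).symm

/-- `|P : P ∩ g⁻¹Pg| = |P : P ∩ gPg⁻¹|`. -/
theorem relIndex_conj_inv [Finite G] (P : Subgroup G) (g : G) :
    (MulAut.conj g⁻¹ • P).relIndex P = (MulAut.conj g • P).relIndex P := by
  have h1 : (MulAut.conj g⁻¹ • P).relIndex P = P.relIndex (MulAut.conj g • P) := by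
    have h2 := Subgroup.relIndex_pointwise_smul (MulAut.conj g) (MulAut.conj g⁻¹ • P) P
    rw [← h2, smul_smul, ← map_mul, mul_inv_cancel, map_one, one_smul]
  rw [h1]
  have h3 := card_inf_mul_relIndex P (MulAut.conj g • P)
  have h4 := card_inf_mul_relIndex (MulAut.conj g • P) P
  rw [card_conj, inf_comm, ← h4] at h3
  exact Nat.eq_of_mul_eq_mul_left Nat.card_pos h3

/-- If `g` does not normalize `P` then `p` divides `|P : P ∩ gPg⁻¹|`. -/
theorem le_of_relIndex_eq_one [Finite G] (P : Subgroup G) (g : G)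
    (h : (MulAut.conj g • P).relIndex P = 1) : MulAut.conj g • P = P := by
  have hle : P ≤ MulAut.conj g • P := Subgroup.relIndex_eq_one.mp h
  exact (Subgroup.eq_of_le_of_card_ge hle (card_conj P g).le).symm

theorem conj_inv_eq_self (P : Subgroup G) (g : G) (h : MulAut.conj g • P = P) :
    MulAut.conj g⁻¹ • P = P := by
  rw [map_inv, inv_smul_eq_iff]
  exact h.symm

/-- Theorem F for Sylow subgroups: the element `g` does not normalize `P`. -/
theorem theoremF_sylow [Finite G] [FiniteDimensional ℂ V] {p : ℕ} [Fact p.Prime]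
    (P : Sylow p G) (ρ : Representation ℂ G V) (hρ : ρ.IsIrreducible)
    (hpd : p ∣ finrank ℂ V)
    (lam : (P : Subgroup G) →* ℂˣ) (hlam : lam ∈ Lin ρ (P : Subgroup G)) :
    ∃ g : G, MulAut.conj g • (P : Subgroup G) ≠ P ∧
      (p - 1) * (padicValNat p (finrank ℂ V) +
        padicValNat p ((MulAut.conj g • (P : Subgroup G)).relIndex P)) + 2 ≤
      (LinAt ρ (P : Subgroup G) lam (MulAut.conj g • (P : Subgroup G))).ncard +
        (LinAt ρ (P : Subgroup G) lam (MulAut.conj g⁻¹ • (P : Subgroup G))).ncard +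
      (p - 1) * (padicValNat p ((MulAut.conj g • (P : Subgroup G)).relIndex
          ⁅(P : Subgroup G), P⁆) +
          padicValNat p ((MulAut.conj g⁻¹ • (P : Subgroup G)).relIndex
          ⁅(P : Subgroup G), P⁆)) := by
  have hp : p.Prime := Fact.out
  obtain ⟨y, hy0, hy⟩ := (mem_Lin_iff ρ _ lam).mp hlam
  have hdeg0 : finrank ℂ V ≠ 0 := by
    intro h
    have : Subsingleton V := (finrank_zero_iff (R := ℂ) (M := V)).mp h
    exact hy0 (Subsingleton.elim _ _)
  have ha : 0 < padicValNat p (finrank ℂ V) := by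
    have := (one_le_padicValNat_of_dvd hdeg0 hpd)
    omega
  obtain ⟨g, hg⟩ := theoremF (P : Subgroup G) P.isPGroup' ρ hρ lam hlam
  rw [padicValNat.eq_zero_of_not_dvd P.not_dvd_index, zero_add] at hg
  refine ⟨g, fun h => ?_, hg⟩
  have h' := conj_inv_eq_self (P : Subgroup G) g h
  have hK : (P : Subgroup G).relIndex ⁅(P : Subgroup G), P⁆ = 1 :=
    Subgroup.relIndex_eq_one.mpr (Subgroup.commutator_le_self _)
  rw [h, h', linAt_ncard_eq_one ρ _ lam hlam _ le_rfl, hK, Subgroup.relIndex_self,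
    padicValNat.one] at hg
  have h2 : 0 < (p - 1) * padicValNat p (finrank ℂ V) :=
    Nat.mul_pos (by have := hp.two_le; omega) ha
  simp only [add_zero, mul_zero] at hg
  omega

/-- A criterion for Q1. -/
theorem q1_of_dvd [Finite G] [FiniteDimensional ℂ V] {p : ℕ} [Fact p.Prime]
    (P : Sylow p G) (ρ : Representation ℂ G V) (hρ : ρ.IsIrreducible)
    (hpd : p ∣ finrank ℂ V)
    (h : ∀ g : G, MulAut.conj g • (P : Subgroup G) ≠ P →
      p ^ 2 * ((MulAut.conj g • (P : Subgroup G)).relIndex ⁅(P : Subgroup G), P⁆ *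
      (MulAut.conj g⁻¹ • (P : Subgroup G)).relIndex ⁅(P : Subgroup G), P⁆) ∣
      finrank ℂ V * (MulAut.conj g • (P : Subgroup G)).relIndex P)
    (hne : (Lin ρ (P : Subgroup G)).Nonempty) : p ≤ (Lin ρ (P : Subgroup G)).ncard := by
  have hp : p.Prime := Fact.out
  obtain ⟨lam, hlam⟩ := hne
  obtain ⟨y, hy0, hy⟩ := (mem_Lin_iff ρ _ lam).mp hlam
  have hdeg0 : finrank ℂ V ≠ 0 := by
    intro h
    have : Subsingleton V := (finrank_zero_iff (R := ℂ) (M := V)).mp h
    exact hy0 (Subsingleton.elim _ _)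
  obtain ⟨g, hg1, hg2⟩ := theoremF_sylow P ρ hρ hpd lam hlam
  have h1 := h g hg1
  have hr : (MulAut.conj g • (P : Subgroup G)).relIndex P ≠ 0 :=
    Subgroup.FiniteIndex.index_ne_zero
  have hs1 : (MulAut.conj g • (P : Subgroup G)).relIndex ⁅(P : Subgroup G), P⁆ ≠ 0 :=
    Subgroup.FiniteIndex.index_ne_zero
  have hs2 : (MulAut.conj g⁻¹ • (P : Subgroup G)).relIndex ⁅(P : Subgroup G), P⁆ ≠ 0 :=
    Subgroup.FiniteIndex.index_ne_zero
  have h2 := (padicValNat_dvd_iff_le (p := p) (mul_ne_zero hdeg0 hr)).mp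
    ((pow_padicValNat_dvd (p := p)).trans h1)
  rw [padicValNat.mul (pow_ne_zero _ hp.ne_zero) (mul_ne_zero hs1 hs2),
    padicValNat.mul hs1 hs2, padicValNat.mul hdeg0 hr, padicValNat.prime_pow] at h2
  have k1 := linAt_ncard_le ρ (P : Subgroup G) lam (MulAut.conj g • (P : Subgroup G))
  have k2 := linAt_ncard_le ρ (P : Subgroup G) lam (MulAut.conj g⁻¹ • (P : Subgroup G))
  have h3 := Nat.mul_le_mul_left (p - 1) h2
  rw [mul_add] at h3
  have := hp.two_le
  omega

end Pool.Agent.H.MP_7d3ffc_al
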