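import Mathlib
import Pool.Agent.H.MP_7d3ffc_al.ThmC

/-!
# Linear constituents when the normalizer of the Sylow subgroup has a semi-invariant vector

`χ` is the character of the irreducible complex representation `ρ` of the finite group `G` on `V`.
-/

namespace Pool.Agent.H.MP_7d3ffc_al.LinNormalizerOld

open Pool.Agent.H.MP_7d3ffc_al Module
open scoped Pointwise

/-- Let `P` be a Sylow `p`-subgroup of the finite group `G`, let `P'` be its derived subgroup and
`N = N_G(P)`. Let `χ` be an irreducible character of `G` with `χ(1) > 1` such that `χ_N` has a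
linear constituent `ν` of `p`-power order which is trivial on all elements of `P` that are
`G`-conjugate to an element of `P'` (for instance `ν = 1`). Then there is `g ∉ N` such that
`|Lin(χ_P)| ≥ |P : P' (P ∩ gPg⁻¹)| ≥ p`. -/
theorem result {G : Type*} [Group G] [Finite G]
    {V : Type*} [AddCommGroup V] [Module ℂ V] [FiniteDimensional ℂ V]
    {p : ℕ} [Fact p.Prime] (P : Sylow p G)
    (ρ : Representation ℂ G V) (hρ : ρ.IsIrreducible) (hdim : 1 < finrank ℂ V)
    (ν : Subgroup.normalizer ((P : Subgroup G) : Set G) →* ℂˣ)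
    (hν : ν ∈ Lin ρ (Subgroup.normalizer ((P : Subgroup G) : Set G)))
    (hνp : ∃ n : ℕ, ∀ x, ν x ^ p ^ n = 1)
    (hνf : ∀ (y : G) (hy : y ∈ (P : Subgroup G)) (g : G),
      g * y * g⁻¹ ∈ ⁅(P : Subgroup G), (P : Subgroup G)⁆ →
      ν ⟨y, Subgroup.le_normalizer hy⟩ = 1) :
    ∃ g : G, g ∉ Subgroup.normalizer ((P : Subgroup G) : Set G) ∧
      p ≤ ((P : Subgroup G) ⊓ (MulAut.conj g • (P : Subgroup G)) ⊔
        ⁅(P : Subgroup G), (P : Subgroup G)⁆).relIndex P ∧
      ((P : Subgroup G) ⊓ (MulAut.conj g • (P : Subgroup G)) ⊔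
        ⁅(P : Subgroup G), (P : Subgroup G)⁆).relIndex P ≤ (Lin ρ (P : Subgroup G)).ncard :=
  theoremC P ρ hρ hdim ν hν hνp hνf

/-- The case `ν = 1`: an irreducible representation of dimension greater than one with a nonzero
vector fixed by `N_G(P)` (that is, a constituent of the permutation character of `G` on its Sylow
`p`-subgroups) has at least `p` different linear constituents on `P`. -/
theorem of_fixed_vector {G : Type*} [Group G] [Finite G]
    {V : Type*} [AddCommGroup V] [Module ℂ V] [FiniteDimensional ℂ V]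
    {p : ℕ} [Fact p.Prime] (P : Sylow p G)
    (ρ : Representation ℂ G V) (hρ : ρ.IsIrreducible) (hdim : 1 < finrank ℂ V)
    (w : V) (hw0 : w ≠ 0)
    (hw : ∀ x ∈ Subgroup.normalizer ((P : Subgroup G) : Set G), ρ x w = w) :
    p ≤ (Lin ρ (P : Subgroup G)).ncard := by
  obtain ⟨g, _, h1, h2⟩ := result P ρ hρ hdim 1
    ((mem_Lin_iff ρ _ 1).mpr ⟨w, hw0, fun x => by simpa using hw x x.2⟩)
    ⟨0, fun x => by simp⟩ (fun y hy g _ => rfl)
  exact h1.trans h2

/-- The case of a self-normalizing Sylow subgroup: if `N_G(P) = P` and every element of `P` that is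
`G`-conjugate to an element of `P'` lies in `P'`, then every irreducible `χ` with `χ(1) > 1` and
with a linear constituent in `χ_P` has at least `p` different linear constituents in `χ_P`. -/
theorem of_self_normalizing {G : Type*} [Group G] [Finite G]
    {V : Type*} [AddCommGroup V] [Module ℂ V] [FiniteDimensional ℂ V]
    {p : ℕ} [Fact p.Prime] (P : Sylow p G)
    (hN : Subgroup.normalizer ((P : Subgroup G) : Set G) = P)
    (hP : ∀ y ∈ (P : Subgroup G), ∀ g : G, g * y * g⁻¹ ∈ ⁅(P : Subgroup G), (P : Subgroup G)⁆ →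
      y ∈ ⁅(P : Subgroup G), (P : Subgroup G)⁆)
    (ρ : Representation ℂ G V) (hρ : ρ.IsIrreducible) (hdim : 1 < finrank ℂ V)
    (hne : (Lin ρ (P : Subgroup G)).Nonempty) :
    p ≤ (Lin ρ (P : Subgroup G)).ncard := by
  obtain ⟨lam, hlam⟩ := hne
  obtain ⟨w, hw0, hw⟩ := (mem_Lin_iff ρ _ lam).mp hlam
  have hle : Subgroup.normalizer ((P : Subgroup G) : Set G) ≤ P := hN.le
  obtain ⟨n, hn⟩ := IsPGroup.iff_card.mp P.isPGroup'
  obtain ⟨g, _, h1, h2⟩ := result P ρ hρ hdim (lam.comp (Subgroup.inclusion hle))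
    ((mem_Lin_iff ρ _ _).mpr ⟨w, hw0, fun x => hw ⟨x, hle x.2⟩⟩)
    ⟨n, fun x => by
      rw [MonoidHom.comp_apply, ← map_pow, ← hn, pow_card_eq_one', map_one]⟩
    (fun y hy g hg => lin_commutator (P : Subgroup G) lam y (hP y hy g hg) hy)
  exact h1.trans h2

end Pool.Agent.H.MP_7d3ffc_al.LinNormalizerOld
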