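import Mathlib
import Pool.Agent.H.MP_7d3ffc_al.ThmF2

/-!
The case `|P'| = p`.
-/

namespace Pool.Agent.H.MP_7d3ffc_al

open Finset Module
open scoped Pointwise commutatorElement

theorem commutator_le_center_of_card {Q : Type*} [Group Q] [Finite Q] {p : ℕ} [Fact p.Prime]
    (hQ : IsPGroup p Q) (hc : Nat.card (commutator Q) = p) :
    commutator Q ≤ Subgroup.center Q := by
  have hQ' : IsPGroup p (ConjAct Q) := hQ.of_equiv ConjAct.toConjAct
  have h1 : (1 : commutator Q) ∈ MulAction.fixedPoints (ConjAct Q) (commutator Q) := by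
    intro g
    simp
  obtain ⟨z, hz, hz1⟩ := hQ'.exists_fixed_point_of_prime_dvd_card_of_fixed_point
    (commutator Q) (by rw [hc]) h1
  intro x hx
  have hx2 : (⟨x, hx⟩ : commutator Q) ∈ Subgroup.zpowers z :=
    mem_zpowers_of_prime_card hc hz1.symm
  obtain ⟨n, hn⟩ := Subgroup.mem_zpowers_iff.mp hx2
  have hzc : (z : Q) ∈ Subgroup.center Q := by
    rw [Subgroup.mem_center_iff]
    intro g
    have h2 := hz (ConjAct.toConjAct g)
    have h3 : g * (z : Q) * g⁻¹ = z := by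
      have := congrArg Subtype.val h2
      rwa [ConjAct.Subgroup.val_conj_smul, ConjAct.toConjAct_smul] at this
    rw [← mul_inv_eq_iff_eq_mul]
    exact h3
  have h4 : x = (z : Q) ^ n := by
    have := congrArg Subtype.val hn
    simpa using this.symm
  rw [h4]
  exact Subgroup.zpow_mem _ hzc n

variable {G : Type*} [Group G] {V : Type*} [AddCommGroup V] [Module ℂ V]

theorem commutator_central [Finite G] {p : ℕ} [Fact p.Prime] (P : Subgroup G)
    (hP : IsPGroup p P) (hc : Nat.card (⁅P, P⁆ : Subgroup G) = p) {x k : G} (hx : x ∈ P)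
    (hk : k ∈ ⁅P, P⁆) : x * k = k * x := by
  have h1 : Nat.card (commutator P) = p := by
    rw [← hc, ← Subgroup.map_subtype_commutator P]
    exact (Nat.card_congr (Subgroup.equivMapOfInjective _ _ P.subtype_injective).toEquiv)
  have h2 := commutator_le_center_of_card hP h1
  have hk' : k ∈ (commutator P).map P.subtype := by
    rw [Subgroup.map_subtype_commutator P]
    exact hk
  obtain ⟨k0, hk0, hk1⟩ := hk'
  have h3 := Subgroup.mem_center_iff.mp (h2 hk0) ⟨x, hx⟩
  have h4 := congrArg Subtype.val h3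
  rw [← hk1]
  exact h4

/-- If `|P'| = p` and `P' ∩ H = 1`, then `P` has an abelian subgroup `A` with
`p |P : A| = |P : P ∩ H|`. -/
theorem exists_abelian [Finite G] {p : ℕ} [Fact p.Prime] (P H : Subgroup G)
    (hP : IsPGroup p P) (hc : Nat.card (⁅P, P⁆ : Subgroup G) = p)
    (hH : H.relIndex ⁅P, P⁆ ≠ 1) :
    ∃ A : Subgroup G, A ≤ P ∧ (∀ x ∈ A, ∀ y ∈ A, x * y = y * x) ∧
      p * A.relIndex P = H.relIndex P := by
  have hp : p.Prime := Fact.out
  set K : Subgroup G := ⁅P, P⁆ with hK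
  have hKP : K ≤ P := Subgroup.commutator_le_self _
  have hrel : H.relIndex K = p := by
    rcases (Nat.dvd_prime hp).mp (hc ▸ H.relIndex_dvd_card K) with h | h
    · exact absurd h hH
    · exact h
  have hHK : H ⊓ K = ⊥ := by
    have h1 := card_inf_mul_relIndex H K
    rw [hrel, hc] at h1
    have h2 : Nat.card (H ⊓ K : Subgroup G) = 1 := by
      have := Nat.eq_of_mul_eq_mul_right hp.pos (h1.trans (one_mul p).symm)
      exact this
    exact Subgroup.card_eq_one.mp h2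
  have hRab : ∀ x ∈ P ⊓ H, ∀ y ∈ P ⊓ H, x * y = y * x := by
    intro x hx y hy
    have h1 : ⁅x, y⁆ ∈ H ⊓ K := by
      refine ⟨?_, Subgroup.commutator_mem_commutator hx.1 hy.1⟩
      rw [commutatorElement_def]
      exact H.mul_mem (H.mul_mem (H.mul_mem hx.2 hy.2) (H.inv_mem hx.2)) (H.inv_mem hy.2)
    rw [hHK, Subgroup.mem_bot, commutatorElement_eq_one_iff_mul_comm] at h1
    exact h1
  have hcen : ∀ x ∈ P, ∀ k ∈ K, x * k = k * x := fun x hx k hk =>
    commutator_central P hP hc hx hk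
  -- the subgroup `A = (P ∩ H) K`
  let A : Subgroup G :=
    { carrier := {z | ∃ x ∈ P ⊓ H, ∃ k ∈ K, z = x * k}
      one_mem' := ⟨1, (P ⊓ H).one_mem, 1, K.one_mem, (mul_one 1).symm⟩
      mul_mem' := by
        rintro _ _ ⟨x, hx, k, hk, rfl⟩ ⟨y, hy, l, hl, rfl⟩
        refine ⟨x * y, (P ⊓ H).mul_mem hx hy, k * l, K.mul_mem hk hl, ?_⟩
        rw [mul_assoc x k, ← mul_assoc k y, ← hcen y hy.1 k hk]
        simp only [mul_assoc]
      inv_mem' := by
        rintro _ ⟨x, hx, k, hk, rfl⟩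
        refine ⟨x⁻¹, (P ⊓ H).inv_mem hx, k⁻¹, K.inv_mem hk, ?_⟩
        rw [mul_inv_rev]
        exact (hcen _ (P.inv_mem hx.1) _ (K.inv_mem hk)).symm }
  have hRA : P ⊓ H ≤ A := fun x hx => ⟨x, hx, 1, K.one_mem, (mul_one x).symm⟩
  have hKA : K ≤ A := fun k hk => ⟨1, (P ⊓ H).one_mem, k, hk, (one_mul k).symm⟩
  have hAP : A ≤ P := by
    rintro _ ⟨x, hx, k, hk, rfl⟩
    exact P.mul_mem hx.1 (hKP hk)
  refine ⟨A, hAP, ?_, ?_⟩
  · rintro _ ⟨x, hx, k, hk, rfl⟩ _ ⟨y, hy, l, hl, rfl⟩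
    calc x * k * (y * l) = x * (k * y) * l := by simp only [mul_assoc]
      _ = x * (y * k) * l := by rw [hcen y hy.1 k hk]
      _ = (x * y) * (k * l) := by simp only [mul_assoc]
      _ = (y * x) * (l * k) := by
          rw [hRab x hx y hy, hcen k (hKP hk) l hl]
      _ = y * (x * l) * k := by simp only [mul_assoc]
      _ = y * (l * x) * k := by rw [hcen x hx.1 l hl]
      _ = y * l * (x * k) := by simp only [mul_assoc]
  · -- indices
    have hAeq : A = (P ⊓ H) ⊔ K := by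
      refine le_antisymm ?_ (sup_le hRA hKA)
      rintro _ ⟨x, hx, k, hk, rfl⟩
      exact Subgroup.mul_mem_sup hx hk
    have h1 : (P ⊓ H).relIndex A * A.relIndex P = (P ⊓ H).relIndex P :=
      Subgroup.relIndex_mul_relIndex _ _ _ hRA hAP
    have h2 : (P ⊓ H).relIndex P = H.relIndex P := Subgroup.inf_relIndex_left P H
    have h3 : (P ⊓ H).relIndex A = p := by
      -- `|A : P ∩ H| = |K : K ∩ H| = p` by counting
      have e1 : Nat.card A = Nat.card (P ⊓ H : Subgroup G) * p := by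
        let f : (P ⊓ H : Subgroup G) × K → A := fun z =>
          ⟨z.1 * z.2, ⟨z.1, z.1.2, z.2, z.2.2, rfl⟩⟩
        have hf : Function.Bijective f := by
          constructor
          · rintro ⟨x, k⟩ ⟨y, l⟩ hxy
            have h5 : (x : G) * k = y * l := congrArg Subtype.val hxy
            have h6 : (y : G)⁻¹ * x = l * (k : G)⁻¹ := by
              rw [inv_mul_eq_iff_eq_mul, ← mul_assoc, ← h5, mul_inv_cancel_right]
            have h7 : (y : G)⁻¹ * x ∈ H ⊓ K :=
              ⟨H.mul_mem (H.inv_mem y.2.2) x.2.2, h6 ▸ K.mul_mem l.2 (K.inv_mem k.2)⟩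
            rw [hHK, Subgroup.mem_bot] at h7
            have h8 : (x : G) = y := (inv_mul_eq_one.mp h7).symm
            rw [h7] at h6
            have h9 : (l : G) = k := mul_inv_eq_one.mp h6.symm
            exact Prod.ext (Subtype.ext h8) (Subtype.ext h9.symm)
          · rintro ⟨_, ⟨x, hx, k, hk, rfl⟩⟩
            exact ⟨(⟨x, hx⟩, ⟨k, hk⟩), rfl⟩
        rw [← Nat.card_congr (Equiv.ofBijective f hf), Nat.card_prod, hc]
      have e2 := card_inf_mul_relIndex (P ⊓ H) A
      rw [inf_eq_left.mpr hRA, e1] at e2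
      exact Nat.eq_of_mul_eq_mul_left Nat.card_pos e2
    rw [← h2, ← h1, h3]

/-- Q1 when `|P'| = p` and `P` has no abelian subgroup of index `p`, or `p² ∣ χ(1)`. -/
theorem q1_of_card_commutator [Finite G] [FiniteDimensional ℂ V] {p : ℕ} [Fact p.Prime]
    (P : Sylow p G) (hc : Nat.card (⁅(P : Subgroup G), P⁆ : Subgroup G) = p)
    (ρ : Representation ℂ G V) (hρ : ρ.IsIrreducible)
    (hpd : p ∣ finrank ℂ V)
    (hab : p ^ 2 ∣ finrank ℂ V ∨ ∀ A : Subgroup G, A ≤ P → (∀ x ∈ A, ∀ y ∈ A, x * y = y * x) →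
      A.relIndex P ≠ p)
    (hne : (Lin ρ (P : Subgroup G)).Nonempty) : p ≤ (Lin ρ (P : Subgroup G)).ncard := by
  have hp : p.Prime := Fact.out
  refine q1_of_dvd P ρ hρ hpd (fun g hg => ?_) hne
  set Q := (P : Subgroup G) with hQ
  set K : Subgroup G := ⁅Q, Q⁆ with hK
  have hKQ : K ≤ Q := Subgroup.commutator_le_self _
  have hr1 : (MulAut.conj g • Q).relIndex Q ≠ 1 := fun h => hg (le_of_relIndex_eq_one Q g h)
  have hr := relIndex_eq_pow Q (MulAut.conj g • Q) Q P.isPGroup' le_rfl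
  have hr' := relIndex_conj_inv Q g
  set r := padicValNat p ((MulAut.conj g • Q).relIndex Q) with hrdef
  have hrpos : 0 < r := by
    rcases Nat.eq_zero_or_pos r with h | h
    · rw [h, pow_zero] at hr
      exact absurd hr hr1
    · exact h
  have key : ∀ g' : G, (MulAut.conj g' • Q).relIndex Q = p ^ r →
      (MulAut.conj g' • Q).relIndex K ≠ 1 → (2 ≤ r ∧ ((∀ A : Subgroup G, A ≤ Q →
        (∀ x ∈ A, ∀ y ∈ A, x * y = y * x) → A.relIndex Q ≠ p) → 3 ≤ r)) := by
    intro g' hg' hne1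
    obtain ⟨A, hA, hAab, hAr⟩ := exists_abelian Q (MulAut.conj g' • Q) P.isPGroup' hc hne1
    rw [hg'] at hAr
    obtain ⟨r', hr'⟩ : ∃ r', r = r' + 1 := ⟨r - 1, by omega⟩
    rw [hr', pow_succ'] at hAr
    have hAr' : A.relIndex Q = p ^ r' := Nat.eq_of_mul_eq_mul_left hp.pos hAr
    have hr0 : r' ≠ 0 := by
      rintro rfl
      rw [pow_zero] at hAr'
      have hQA : Q ≤ A := Subgroup.relIndex_eq_one.mp hAr'
      have hK1 : K = ⊥ := by
        rw [hK, Subgroup.commutator_eq_bot_iff_le_centralizer]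
        intro x hx
        rw [Subgroup.mem_centralizer_iff]
        intro y hy
        exact (hAab y (hQA hy) x (hQA hx))
      rw [hK1, Subgroup.card_bot] at hc
      exact hp.one_lt.ne hc
    refine ⟨by omega, fun hab => ?_⟩
    have hr1 : r' ≠ 1 := by
      rintro rfl
      rw [pow_one] at hAr'
      exact hab A hA hAab hAr'
    omega
  have hs : ∀ g' : G, (MulAut.conj g' • Q).relIndex K = 1 ∨
      (MulAut.conj g' • Q).relIndex K = p := fun g' =>
    (Nat.dvd_prime hp).mp (hc ▸ (MulAut.conj g' • Q).relIndex_dvd_card K)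
  rw [hr]
  -- case analysis
  have hcases : (p ^ 2 ∣ finrank ℂ V ∧ (2 ≤ r ∨ ((MulAut.conj g • Q).relIndex K = 1 ∧
      (MulAut.conj g⁻¹ • Q).relIndex K = 1))) ∨ (3 ≤ r ∨ ((MulAut.conj g • Q).relIndex K = 1 ∧
      (MulAut.conj g⁻¹ • Q).relIndex K = 1)) := by
    by_cases h1 : (MulAut.conj g • Q).relIndex K = 1
    · by_cases h2 : (MulAut.conj g⁻¹ • Q).relIndex K = 1
      · exact Or.inr (Or.inr ⟨h1, h2⟩)
      · obtain ⟨h3, h4⟩ := key g⁻¹ (hr'.trans hr) h2
        rcases hab with h | h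
        · exact Or.inl ⟨h, Or.inl h3⟩
        · exact Or.inr (Or.inl (h4 h))
    · obtain ⟨h3, h4⟩ := key g hr h1
      rcases hab with h | h
      · exact Or.inl ⟨h, Or.inl h3⟩
      · exact Or.inr (Or.inl (h4 h))
  have hsle : (MulAut.conj g • Q).relIndex K * (MulAut.conj g⁻¹ • Q).relIndex K ∣ p ^ 2 := by
    rw [pow_two]
    refine mul_dvd_mul ?_ ?_
    · rcases hs g with h | h <;> simp [h]
    · rcases hs g⁻¹ with h | h
      · rw [h]; exact one_dvd _
      · rw [h]
  rcases hcases with ⟨h1, h2 | ⟨h2, h3⟩⟩ | (h2 | ⟨h2, h3⟩)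
  · exact mul_dvd_mul h1 (hsle.trans (pow_dvd_pow p h2))
  · rw [h2, h3, one_mul, mul_one]
    exact h1.trans (dvd_mul_right _ _)
  · calc p ^ 2 * ((MulAut.conj g • Q).relIndex K * (MulAut.conj g⁻¹ • Q).relIndex K)
        ∣ p ^ 2 * p ^ 2 := mul_dvd_mul_left _ hsle
      _ = p * p ^ 3 := by ring
      _ ∣ finrank ℂ V * p ^ r := mul_dvd_mul hpd (pow_dvd_pow p h2)
  · rw [h2, h3, one_mul, mul_one, pow_two]
    exact mul_dvd_mul hpd (dvd_pow_self p hrpos.ne')

end Pool.Agent.H.MP_7d3ffc_al
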